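import Mathlib

/-!
# Normalised measures on the disc and on the circle, moments
-/

set_option autoImplicit false

open MeasureTheory Complex Filter Topology
open scoped ComplexConjugate

namespace Pool.Agent.Lib.BergExt

/-- Normalised area measure on the open unit disc. -/
noncomputable def μD : Measure ℂ :=
  (ENNReal.ofReal Real.pi)⁻¹ • (volume.restrict (Metric.ball (0 : ℂ) 1))

/-- Normalised arc length, parametrised by the angle in `(0, 2π]`. -/
noncomputable def μT : Measure ℝ :=
  (ENNReal.ofReal (2 * Real.pi))⁻¹ • (volume.restrict (Set.Ioc 0 (2 * Real.pi)))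

theorem ofReal_pi_ne_zero : ENNReal.ofReal Real.pi ≠ 0 := by
  simp [Real.pi_pos]

theorem ofReal_two_pi_ne_zero : ENNReal.ofReal (2 * Real.pi) ≠ 0 := by
  simp [Real.pi_pos]

instance : IsProbabilityMeasure μD := by
  constructor
  unfold μD
  have h : volume (Metric.ball (0 : ℂ) 1) = ENNReal.ofReal Real.pi := by
    rw [Complex.volume_ball]
    simp only [ENNReal.ofReal_one, one_pow, one_mul]
    rw [← NNReal.coe_real_pi, ENNReal.ofReal_coe_nnreal]
  simp only [Measure.smul_apply, Measure.restrict_apply_univ, smul_eq_mul, h]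
  exact ENNReal.inv_mul_cancel ofReal_pi_ne_zero ENNReal.ofReal_ne_top

instance : IsProbabilityMeasure μT := by
  constructor
  unfold μT
  simp only [Measure.smul_apply, Measure.restrict_apply_univ, smul_eq_mul, Real.volume_Ioc,
    sub_zero]
  exact ENNReal.inv_mul_cancel ofReal_two_pi_ne_zero ENNReal.ofReal_ne_top

theorem ae_ball : ∀ᵐ z ∂μD, ‖z‖ < 1 := by
  unfold μD
  refine Measure.ae_smul_measure ?_ _
  filter_upwards [ae_restrict_mem (Metric.isOpen_ball.measurableSet)] with z hz
  simpa using hz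

/-- the point `e^{iθ}` -/
noncomputable def eit (θ : ℝ) : ℂ := exp (θ * I)

theorem norm_eit (θ : ℝ) : ‖eit θ‖ = 1 := norm_exp_ofReal_mul_I θ

theorem continuous_eit : Continuous eit := by
  unfold eit
  fun_prop

theorem measurable_eit : Measurable eit := continuous_eit.measurable

theorem eit_mul_conj (θ : ℝ) : eit θ * conj (eit θ) = 1 := by
  rw [mul_conj, normSq_eq_norm_sq, norm_eit]
  simp

theorem integral_μT {E : Type*} [NormedAddCommGroup E] [NormedSpace ℝ E] (f : ℝ → E) :
    ∫ θ, f θ ∂μT = (1 / (2 * Real.pi)) • ∫ θ in (0 : ℝ)..(2 * Real.pi), f θ := by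
  unfold μT
  rw [integral_smul_measure, intervalIntegral.integral_of_le (by positivity)]
  congr 1
  rw [ENNReal.toReal_inv, ENNReal.toReal_ofReal (by positivity), one_div]

theorem int_eit (m n : ℕ) : ∫ θ, eit θ ^ m * conj (eit θ) ^ n ∂μT = if m = n then 1 else 0 := by
  by_cases h : m = n
  · subst h
    rw [if_pos rfl]
    have : ∀ θ, eit θ ^ m * conj (eit θ) ^ m = 1 := by
      intro θ
      rw [← mul_pow, eit_mul_conj, one_pow]
    simp_rw [this]
    simp
  · rw [if_neg h, integral_μT]
    have h1 : ∀ θ : ℝ, eit θ ^ m * conj (eit θ) ^ n = exp ((((m : ℂ) - n) * I) * θ) := by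
      intro θ
      unfold eit
      rw [← exp_conj, ← exp_nat_mul, ← exp_nat_mul, ← exp_add]
      congr 1
      simp
      ring
    simp_rw [h1]
    have hc : ((m : ℂ) - n) * I ≠ 0 := by
      refine mul_ne_zero ?_ I_ne_zero
      rw [sub_ne_zero]
      exact_mod_cast h
    rw [integral_exp_mul_complex hc]
    have h2 : exp (((m : ℂ) - n) * I * ((2 * Real.pi : ℝ) : ℂ)) = 1 := by
      rw [exp_eq_one_iff]
      refine ⟨(m : ℤ) - n, ?_⟩
      push_cast
      ring
    rw [h2]
    simp

/-- Rotation invariance of the area measure. -/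
theorem mp_rot (θ : ℝ) : MeasurePreserving (fun z : ℂ => eit θ * z) μD μD := by
  have hvol : MeasurePreserving (fun z : ℂ => eit θ * z) volume volume := by
    have h := (rotation (Circle.exp θ)).measurePreserving
    have h2 : (fun z : ℂ => eit θ * z) = rotation (Circle.exp θ) := by
      funext z
      rw [rotation_apply, Circle.coe_exp]
      rfl
    rw [h2]
    exact h
  have hres : MeasurePreserving (fun z : ℂ => eit θ * z) (volume.restrict (Metric.ball (0 : ℂ) 1))
      (volume.restrict (Metric.ball (0 : ℂ) 1)) := by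
    have h := hvol.restrict_preimage (s := Metric.ball (0 : ℂ) 1) Metric.isOpen_ball.measurableSet
    have h2 : (fun z : ℂ => eit θ * z) ⁻¹' (Metric.ball (0 : ℂ) 1) = Metric.ball (0 : ℂ) 1 := by
      ext z
      simp [norm_eit]
    rwa [h2] at h
  unfold μD
  exact hres.smul_measure _

theorem radial_moment (n : ℕ) : ∫ z, ((‖z‖ ^ 2) ^ n : ℝ) ∂μD = 1 / (n + 1) := by
  unfold μD
  rw [integral_smul_measure, ← integral_indicator Metric.isOpen_ball.measurableSet]
  have h1 : (Metric.ball (0 : ℂ) 1).indicator (fun z : ℂ => ((‖z‖ ^ 2) ^ n : ℝ)) =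
      fun z : ℂ => (Set.Iio (1 : ℝ)).indicator (fun t : ℝ => (t ^ 2) ^ n) ‖z‖ := by
    funext z
    by_cases hz : ‖z‖ < 1
    · rw [Set.indicator_of_mem (by simpa using hz), Set.indicator_of_mem (by simpa using hz)]
    · rw [Set.indicator_of_notMem (by simpa using hz), Set.indicator_of_notMem (by simpa using hz)]
  rw [h1, integral_fun_norm_addHaar (μ := (volume : Measure ℂ))
    (fun t => (Set.Iio (1 : ℝ)).indicator (fun t : ℝ => (t ^ 2) ^ n) t)]
  have h2 : volume.real (Metric.ball (0 : ℂ) 1) = Real.pi := by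
    rw [measureReal_def, Complex.volume_ball]
    simp
  rw [h2, Complex.finrank_real_complex]
  have h3 : ∫ y in Set.Ioi (0 : ℝ), y ^ (2 - 1) • (Set.Iio (1 : ℝ)).indicator
      (fun t : ℝ => (t ^ 2) ^ n) y = ∫ y in (0 : ℝ)..1, y ^ (2 * n + 1) := by
    rw [intervalIntegral.integral_of_le zero_le_one, integral_Ioc_eq_integral_Ioo]
    have : ∀ y : ℝ, y ^ (2 - 1) • (Set.Iio (1 : ℝ)).indicator (fun t : ℝ => (t ^ 2) ^ n) y =
        (Set.Iio (1 : ℝ)).indicator (fun t : ℝ => t ^ (2 * n + 1)) y := by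
      intro y
      by_cases hy : y < 1
      · rw [Set.indicator_of_mem (by simpa using hy), Set.indicator_of_mem (by simpa using hy)]
        simp only [smul_eq_mul]
        ring
      · rw [Set.indicator_of_notMem (by simpa using hy), Set.indicator_of_notMem (by simpa using hy)]
        simp
    simp_rw [this]
    rw [setIntegral_indicator measurableSet_Iio]
    congr 2
  rw [h3, integral_pow]
  rw [ENNReal.toReal_inv, ENNReal.toReal_ofReal Real.pi_pos.le]
  simp only [smul_eq_mul, nsmul_eq_mul]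
  have := Real.pi_pos.ne'
  push_cast
  field_simp
  ring

theorem radial_moment_C (n : ℕ) : ∫ z, z ^ n * conj z ^ n ∂μD = 1 / ((n : ℂ) + 1) := by
  have h : ∀ z : ℂ, z ^ n * conj z ^ n = (((‖z‖ ^ 2) ^ n : ℝ) : ℂ) := by
    intro z
    rw [← mul_pow, mul_conj, normSq_eq_norm_sq]
    push_cast
    rfl
  simp_rw [h]
  rw [integral_complex_ofReal, radial_moment]
  push_cast
  rfl

theorem summable_norm_of_hasSum {a : ℕ → ℂ} {g : ℂ → ℂ}
    (ha : ∀ z, ‖z‖ < 1 → HasSum (fun m => a m * z ^ m) (g z)) {r : ℝ} (h0 : 0 ≤ r) (hr : r < 1) :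
    Summable (fun m => ‖a m‖ * r ^ m) := by
  have h := (ha (r : ℂ) (by simpa [abs_of_nonneg h0] using hr)).summable.norm
  refine h.congr ?_
  intro m
  rw [norm_mul, norm_pow, Complex.norm_real, Real.norm_of_nonneg h0]

/-- Fourier coefficients on a circle of a function given by a power series. -/
theorem circle_coef {a : ℕ → ℂ} {g : ℂ → ℂ}
    (ha : ∀ z, ‖z‖ < 1 → HasSum (fun m => a m * z ^ m) (g z)) (x y : ℕ) {z : ℂ} (hz : ‖z‖ < 1) :
    ∫ θ, g (eit θ * z) * ((eit θ) ^ y * conj (eit θ) ^ x) ∂μT =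
      if y ≤ x then a (x - y) * z ^ (x - y) else 0 := by
  have h1 : ∀ θ, g (eit θ * z) * ((eit θ) ^ y * conj (eit θ) ^ x) =
      ∑' m, a m * z ^ m * ((eit θ) ^ (m + y) * conj (eit θ) ^ x) := by
    intro θ
    have h2 := ha (eit θ * z) (by rw [norm_mul, norm_eit, one_mul]; exact hz)
    rw [← h2.tsum_eq, ← tsum_mul_right]
    congr 1
    ext m
    ring
  simp_rw [h1]
  have hint : ∀ m, Integrable (fun θ => a m * z ^ m * ((eit θ) ^ (m + y) * conj (eit θ) ^ x)) μT := by
    intro m
    refine Integrable.of_bound (C := ‖a m * z ^ m‖) ?_ (ae_of_all _ fun θ => ?_)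
    · refine Continuous.aestronglyMeasurable ?_
      have := continuous_eit
      fun_prop
    · rw [norm_mul, norm_mul ((eit θ) ^ (m + y)), norm_pow, norm_pow, RCLike.norm_conj, norm_eit]
      simp
  have hsum : Summable (fun m => ∫ θ, ‖a m * z ^ m * ((eit θ) ^ (m + y) * conj (eit θ) ^ x)‖ ∂μT) := by
    have h3 := summable_norm_of_hasSum ha (norm_nonneg z) hz
    refine h3.congr ?_
    intro m
    have : ∀ θ, ‖a m * z ^ m * ((eit θ) ^ (m + y) * conj (eit θ) ^ x)‖ = ‖a m‖ * ‖z‖ ^ m := by
      intro θ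
      rw [norm_mul, norm_mul ((eit θ) ^ (m + y)), norm_pow, norm_pow, RCLike.norm_conj, norm_eit,
        norm_mul, norm_pow]
      simp
    simp_rw [this]
    simp
  rw [← integral_tsum_of_summable_integral_norm hint hsum]
  have h4 : ∀ m, ∫ θ, a m * z ^ m * ((eit θ) ^ (m + y) * conj (eit θ) ^ x) ∂μT =
      if m + y = x then a m * z ^ m else 0 := by
    intro m
    rw [integral_const_mul, int_eit]
    split_ifs
    · rw [mul_one]
    · rw [mul_zero]
  simp_rw [h4]
  by_cases hxy : y ≤ x
  · rw [if_pos hxy, tsum_eq_single (x - y)]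
    · rw [if_pos (Nat.sub_add_cancel hxy)]
    · intro m hm
      rw [if_neg]
      omega
  · rw [if_neg hxy]
    convert tsum_zero with m
    rw [if_neg]
    omega

theorem mp_rot_prod : MeasurePreserving (fun q : ℝ × ℂ => (q.1, eit q.1 * q.2))
    (μT.prod μD) (μT.prod μD) := by
  refine MeasurePreserving.skew_product (MeasurePreserving.id μT) (g := fun θ z => eit θ * z) ?_ ?_
  · refine Continuous.measurable ?_
    have := continuous_eit
    fun_prop
  · exact ae_of_all _ fun θ => (mp_rot θ).map_eq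

theorem integral_rot {h : ℂ → ℂ} (hh : Integrable h μD) :
    ∫ z, h z ∂μD = ∫ z, ∫ θ, h (eit θ * z) ∂μT ∂μD := by
  have hint : Integrable (fun q : ℝ × ℂ => h (eit q.1 * q.2)) (μT.prod μD) := by
    have h1 : Integrable (fun q : ℝ × ℂ => h q.2) (μT.prod μD) := hh.comp_snd μT
    exact mp_rot_prod.integrable_comp_of_integrable h1
  have h2 : ∫ z, ∫ θ, h (eit θ * z) ∂μT ∂μD = ∫ θ, ∫ z, h (eit θ * z) ∂μD ∂μT :=
    (integral_integral_swap (f := fun θ z => h (eit θ * z)) hint).symm
  rw [h2]
  have h3 : ∀ θ, ∫ z, h (eit θ * z) ∂μD = ∫ z, h z ∂μD := by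
    intro θ
    have hmp := mp_rot θ
    have h4 := integral_map (μ := μD) hmp.measurable.aemeasurable (f := h)
      (by rw [hmp.map_eq]; exact hh.aestronglyMeasurable)
    rw [hmp.map_eq] at h4
    exact h4.symm
  simp_rw [h3]
  simp

/-- The moments of an integrable analytic function on the disc. -/
theorem moment {a : ℕ → ℂ} {g : ℂ → ℂ} (hg : Integrable g μD)
    (ha : ∀ z, ‖z‖ < 1 → HasSum (fun m => a m * z ^ m) (g z)) (x y : ℕ) :
    ∫ z, g z * (z ^ y * conj z ^ x) ∂μD = if y ≤ x then a (x - y) / ((x : ℂ) + 1) else 0 := by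
  have hint : Integrable (fun z => g z * (z ^ y * conj z ^ x)) μD := by
    refine hg.mul_bdd (c := 1) ?_ ?_
    · refine Continuous.aestronglyMeasurable ?_
      fun_prop
    · filter_upwards [ae_ball] with z hz
      rw [norm_mul, norm_pow, norm_pow, RCLike.norm_conj]
      exact mul_le_one₀ (pow_le_one₀ (norm_nonneg _) hz.le) (by positivity)
        (pow_le_one₀ (norm_nonneg _) hz.le)
  rw [integral_rot hint]
  have h1 : ∀ᵐ z ∂μD, ∫ θ, g (eit θ * z) * ((eit θ * z) ^ y * conj (eit θ * z) ^ x) ∂μT =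
      if y ≤ x then a (x - y) * (z ^ x * conj z ^ x) else 0 := by
    filter_upwards [ae_ball] with z hz
    have h2 : ∀ θ, g (eit θ * z) * ((eit θ * z) ^ y * conj (eit θ * z) ^ x) =
        (z ^ y * conj z ^ x) * (g (eit θ * z) * ((eit θ) ^ y * conj (eit θ) ^ x)) := by
      intro θ
      rw [map_mul]
      ring
    simp_rw [h2]
    rw [integral_const_mul, circle_coef ha x y hz]
    by_cases hxy : y ≤ x
    · rw [if_pos hxy, if_pos hxy]
      obtain ⟨k, rfl⟩ := Nat.exists_eq_add_of_le hxy
      rw [Nat.add_sub_cancel_left]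
      ring
    · rw [if_neg hxy, if_neg hxy, mul_zero]
  rw [integral_congr_ae h1]
  by_cases hxy : y ≤ x
  · simp only [if_pos hxy]
    rw [integral_const_mul, radial_moment_C]
    ring
  · simp only [if_neg hxy]
    simp

end Pool.Agent.Lib.BergExt
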