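import Pool.Agent.Lib.BergExt.TwoScale2

/-!
# The building block `log ((1 + R w) / (1 - R w))`
-/

set_option autoImplicit false

open MeasureTheory Complex Filter Topology
open scoped ComplexConjugate

namespace Pool.Agent.Lib.BergExt

/-- The Cayley transform. -/
noncomputable def cay (t : ℂ) : ℂ := (1 + t) / (1 - t)

/-- Its logarithm. -/
noncomputable def lc (t : ℂ) : ℂ := log (cay t)

theorem one_sub_ne {t : ℂ} (ht : ‖t‖ < 1) : 1 - t ≠ 0 := by
  intro h
  have : t = 1 := (sub_eq_zero.1 h).symm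
  rw [this] at ht
  simp at ht

theorem one_add_ne {t : ℂ} (ht : ‖t‖ < 1) : 1 + t ≠ 0 := by
  have := one_sub_ne (t := -t) (by rwa [norm_neg])
  rwa [sub_neg_eq_add] at this

theorem cay_re_pos {t : ℂ} (ht : ‖t‖ < 1) : 0 < (cay t).re := by
  unfold cay
  have h1 : 0 < normSq (1 - t) := normSq_pos.2 (one_sub_ne ht)
  have h2 : t.re ^ 2 + t.im ^ 2 < 1 := by
    have h3 : ‖t‖ ^ 2 < 1 := by
      have := norm_nonneg t
      nlinarith
    rw [← normSq_eq_norm_sq, normSq_apply] at h3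
    nlinarith
  rw [div_re, ← add_div]
  apply div_pos _ h1
  simp
  nlinarith

theorem cay_mem {t : ℂ} (ht : ‖t‖ < 1) : cay t ∈ slitPlane := Or.inl (cay_re_pos ht)

theorem exp_lc {t : ℂ} (ht : ‖t‖ < 1) : exp (lc t) = cay t := by
  unfold lc
  refine exp_log ?_
  intro h
  have := cay_re_pos ht
  rw [h] at this
  simp at this

theorem differentiableAt_lc {t : ℂ} (ht : ‖t‖ < 1) : DifferentiableAt ℂ lc t := by
  unfold lc
  refine DifferentiableAt.clog ?_ (cay_mem ht)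
  unfold cay
  have := one_sub_ne ht
  fun_prop (disch := assumption)

theorem hasDerivAt_lc {t : ℂ} (ht : ‖t‖ < 1) : HasDerivAt lc (2 / (1 - t ^ 2)) t := by
  have h1 := one_sub_ne ht
  have h2 := one_add_ne ht
  have h3 : HasDerivAt cay (((1 : ℂ) * (1 - t) - (1 + t) * (-1)) / (1 - t) ^ 2) t := by
    have e1 : HasDerivAt (fun t : ℂ => 1 + t) 1 t := (hasDerivAt_id t).const_add 1
    have e2 : HasDerivAt (fun t : ℂ => 1 - t) (-1) t := (hasDerivAt_id t).const_sub 1
    exact e1.div e2 h1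
  have h4 := h3.clog (cay_mem ht)
  refine h4.congr_deriv ?_
  unfold cay
  have h5 : 1 - t ^ 2 ≠ 0 := by
    have : 1 - t ^ 2 = (1 - t) * (1 + t) := by ring
    rw [this]
    exact mul_ne_zero h1 h2
  field_simp
  ring

theorem lc_zero : lc 0 = 0 := by
  unfold lc cay
  simp

/-- Taylor coefficients of a function which is analytic in a disc larger than the unit disc. -/
theorem exists_coef {f : ℂ → ℂ} {r : ℝ} (hr : 1 < r) (hf : DifferentiableOn ℂ f (Metric.ball 0 r)) :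
    ∃ a : ℕ → ℂ, Summable (fun n => ‖a n‖) ∧
      ∀ z, ‖z‖ < r → HasSum (fun n => a n * z ^ n) (f z) := by
  refine ⟨fun n => (n.factorial : ℂ)⁻¹ * iteratedDeriv n f 0, ?_, ?_⟩
  · have h1 := Complex.hasSum_taylorSeries_on_ball (r := r) hf
      (z := (((1 + r) / 2 : ℝ) : ℂ)) (by
        rw [mem_ball_zero_iff, Complex.norm_real, Real.norm_of_nonneg (by linarith)]
        linarith)
    refine Summable.of_nonneg_of_le (fun n => norm_nonneg _) (fun n => ?_) h1.summable.norm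
    rw [norm_smul, norm_smul, norm_mul, sub_zero, norm_pow, Complex.norm_real,
      Real.norm_of_nonneg (by linarith)]
    have h2 : 1 ≤ ((1 + r) / 2) ^ n := one_le_pow₀ (by linarith)
    have h3 : ‖iteratedDeriv n f 0‖ ≤ ((1 + r) / 2) ^ n * ‖iteratedDeriv n f 0‖ :=
      le_mul_of_one_le_left (norm_nonneg _) h2
    exact mul_le_mul_of_nonneg_left h3 (norm_nonneg _)
  · intro z hz
    have h1 := Complex.hasSum_taylorSeries_on_ball (r := r) hf (z := z) (by
      rwa [mem_ball_zero_iff])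
    refine h1.congr_fun ?_
    intro n
    simp only [smul_eq_mul, sub_zero]
    ring

/-- coefficients of `((1 + R w) / (1 - R w)) ^ 2` -/
noncomputable def gco (R : ℝ) (i : ℕ) : ℂ := if i = 0 then 1 else ((4 * i * R ^ i : ℝ) : ℂ)

theorem summable_gco {R : ℝ} (h0 : 0 ≤ R) (h1 : R < 1) : Summable (fun i => ‖gco R i‖) := by
  have h2 : Summable (fun i : ℕ => (i : ℝ) * R ^ i) := by
    have := (hasSum_coe_mul_geometric_of_norm_lt_one (𝕜 := ℝ) (r := R)
      (by rwa [Real.norm_of_nonneg h0])).summable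
    exact this
  rw [← summable_nat_add_iff 1]
  have h3 := (summable_nat_add_iff 1).2 (h2.mul_left 4)
  refine h3.congr ?_
  intro i
  unfold gco
  rw [if_neg (Nat.succ_ne_zero i), Complex.norm_real, Real.norm_of_nonneg (by positivity)]
  ring

theorem hasSum_gco {R : ℝ} (h0 : 0 ≤ R) (h1 : R < 1) {w : ℂ} (hw : ‖w‖ ≤ 1) :
    HasSum (fun i => gco R i * w ^ i) (cay (R * w) ^ 2) := by
  have ht : ‖(R : ℂ) * w‖ < 1 := by
    rw [norm_mul, Complex.norm_real, Real.norm_of_nonneg h0]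
    have := norm_nonneg w
    nlinarith
  have h2 := (hasSum_coe_mul_geometric_of_norm_lt_one ht).mul_left 4
  have h3 : HasSum (fun i : ℕ => if i = 0 then (1 : ℂ) else 0) 1 := hasSum_ite_eq 0 1
  have h4 := h3.add h2
  have h5 : cay (R * w) ^ 2 = 1 + 4 * (R * w / (1 - R * w) ^ 2) := by
    unfold cay
    have := one_sub_ne ht
    field_simp
    ring
  rw [h5]
  refine h4.congr_fun ?_
  intro i
  unfold gco
  by_cases hi : i = 0
  · subst hi
    simp
  · rw [if_neg hi, if_neg hi]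
    push_cast
    rw [mul_pow]
    ring

/-- The coefficients `θ` of the block. -/
noncomputable def thc (R : ℝ) (γ : ℕ → ℂ) (κ : ℕ × ℕ) : ℂ :=
  if κ = (0, 0) then 0 else gco R κ.1 * conj (γ κ.2)

theorem summable_prod_gco {R : ℝ} (h0 : 0 ≤ R) (h1 : R < 1) {γ : ℕ → ℂ}
    (hγ : Summable (fun j => ‖γ j‖)) :
    Summable (fun κ : ℕ × ℕ => ‖gco R κ.1 * conj (γ κ.2)‖) := by
  have hγ' : Summable (fun j => ‖conj (γ j)‖) := by simpa using hγ
  have h2 := Summable.mul_of_nonneg (f := fun i => ‖gco R i‖) (g := fun j => ‖conj (γ j)‖)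
    (summable_gco h0 h1) hγ' (fun i => norm_nonneg _) (fun i => norm_nonneg _)
  refine h2.congr ?_
  intro κ
  rw [norm_mul]

theorem summable_thc {R : ℝ} (h0 : 0 ≤ R) (h1 : R < 1) {γ : ℕ → ℂ}
    (hγ : Summable (fun j => ‖γ j‖)) : Summable (fun κ => ‖thc R γ κ‖) := by
  refine Summable.of_nonneg_of_le (fun κ => norm_nonneg _) (fun κ => ?_)
    (summable_prod_gco h0 h1 hγ)
  unfold thc
  split_ifs
  · rw [norm_zero]
    exact norm_nonneg _
  · exact le_rfl

theorem thc_zero (R : ℝ) (γ : ℕ → ℂ) : thc R γ (0, 0) = 0 := by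
  unfold thc
  simp

/-- The block as a series. -/
theorem hasSum_full {R : ℝ} (h0 : 0 ≤ R) (h1 : R < 1) {γ : ℕ → ℂ} {Γ : ℂ → ℂ}
    {w : ℂ} (hw : ‖w‖ ≤ 1) (hΓ : HasSum (fun j => γ j * w ^ j) (Γ w)) :
    HasSum (fun κ : ℕ × ℕ => (gco R κ.1 * conj (γ κ.2)) * (w ^ κ.1 * conj w ^ κ.2))
      (cay (R * w) ^ 2 * conj (Γ w)) := by
  have hs1 : Summable (fun i => ‖gco R i * w ^ i‖) := (hasSum_gco h0 h1 hw).summable.norm
  have hΓ' : HasSum (fun j => conj (γ j) * conj w ^ j) (conj (Γ w)) := by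
    have := hΓ.map (starRingEnd ℂ) continuous_conj
    refine this.congr_fun ?_
    intro j
    simp
  have hs2 : Summable (fun j => ‖conj (γ j) * conj w ^ j‖) := hΓ'.summable.norm
  have e1 := summable_mul_of_summable_norm (f := fun i => gco R i * w ^ i)
    (g := fun j => conj (γ j) * conj w ^ j) hs1 hs2
  have e2 := tsum_mul_tsum_of_summable_norm (f := fun i => gco R i * w ^ i)
    (g := fun j => conj (γ j) * conj w ^ j) hs1 hs2
  rw [(hasSum_gco h0 h1 hw).tsum_eq, hΓ'.tsum_eq] at e2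
  have e3 : HasSum (fun κ : ℕ × ℕ => (gco R κ.1 * w ^ κ.1) * (conj (γ κ.2) * conj w ^ κ.2))
      (cay (R * w) ^ 2 * conj (Γ w)) := by
    rw [e2]
    exact e1.hasSum
  refine e3.congr_fun ?_
  intro κ
  ring

/-- The block minus one as a series. -/
theorem hasSum_thc {R : ℝ} (h0 : 0 ≤ R) (h1 : R < 1) {γ : ℕ → ℂ} {Γ : ℂ → ℂ}
    (hγ0 : γ 0 = 1) {w : ℂ} (hw : ‖w‖ ≤ 1)
    (hΓ : HasSum (fun j => γ j * w ^ j) (Γ w)) :
    HasSum (fun κ : ℕ × ℕ => thc R γ κ * (w ^ κ.1 * conj w ^ κ.2))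
      (cay (R * w) ^ 2 * conj (Γ w) - 1) := by
  have e3 := hasSum_full h0 h1 hw hΓ
  have e4 : HasSum (fun κ : ℕ × ℕ => if κ = (0, 0) then (1 : ℂ) else 0) 1 := hasSum_ite_eq (0, 0) 1
  refine (e3.sub e4).congr_fun ?_
  rintro ⟨i, j⟩
  unfold thc
  by_cases h : (i, j) = (0, 0)
  · rw [if_pos h, if_pos h]
    obtain ⟨rfl, rfl⟩ := Prod.mk.inj h
    simp [gco, hγ0]
  · rw [if_neg h, if_neg h]
    ring

/-- The profile of the block. -/
theorem prof_thc {R : ℝ} (h0 : 0 ≤ R) (h1 : R < 1) {γ : ℕ → ℂ} {Γ : ℂ → ℂ}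
    (hΓ : HasSum (fun j => γ j * (R : ℂ) ^ j) (Γ R))
    {w : ℂ} (hw : ‖w‖ ≤ 1) :
    prof (thc R γ) w = 4 * conj (Γ R) * (R * w / (1 - R * w) ^ 2) := by
  have ht : ‖(R : ℂ) * w‖ < 1 := by
    rw [norm_mul, Complex.norm_real, Real.norm_of_nonneg h0]
    have := norm_nonneg w
    nlinarith
  unfold prof
  set e : ℕ × ℕ → ℕ × ℕ := fun q => (q.1 + 1 + q.2, q.2) with he
  have hinj : Function.Injective e := by
    rintro ⟨a, b⟩ ⟨c, d⟩ h
    simp only [he, Prod.mk.injEq] at h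
    ext
    · simp only
      omega
    · exact h.2
  have hsupp : Function.support (fun κ : ℕ × ℕ =>
      thc R γ κ * ((lamInf κ.1 κ.2 : ℂ) * w ^ (κ.1 - κ.2))) ⊆ Set.range e := by
    rintro ⟨i, j⟩ hk
    by_contra hcon
    apply hk
    have hij : ¬ j < i := by
      intro hlt
      apply hcon
      refine ⟨(i - 1 - j, j), ?_⟩
      simp only [he, Prod.mk.injEq, and_true]
      omega
    have : lamInf i j = 0 := by
      unfold lamInf
      rw [if_neg hij]
    simp [this]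
  rw [← hinj.tsum_eq hsupp]
  have h2 : ∀ q : ℕ × ℕ, thc R γ (e q) * ((lamInf (e q).1 (e q).2 : ℂ) * w ^ ((e q).1 - (e q).2)) =
      (((q.1 + 1 : ℕ) : ℂ) * ((R : ℂ) * w) ^ (q.1 + 1)) * (4 * (conj (γ q.2) * (R : ℂ) ^ q.2)) := by
    rintro ⟨l, j⟩
    simp only [he]
    have h3 : (l + 1 + j, j) ≠ ((0, 0) : ℕ × ℕ) := by
      intro h
      have := (Prod.mk.inj h).1
      omega
    have h4 : l + 1 + j - j = l + 1 := by omega
    unfold thc gco lamInf
    rw [if_neg h3, if_neg (by simp), if_pos (by omega), h4]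
    have h5 : ((l : ℂ) + 1 + j) ≠ 0 := by
      have : ((l + 1 + j : ℕ) : ℂ) ≠ 0 := by
        rw [Nat.cast_ne_zero]
        omega
      push_cast at this
      exact this
    push_cast
    rw [mul_pow]
    field_simp
    ring
  simp_rw [h2]
  have hs1 : HasSum (fun l : ℕ => ((l + 1 : ℕ) : ℂ) * ((R : ℂ) * w) ^ (l + 1))
      (R * w / (1 - R * w) ^ 2) := by
    have h3 := hasSum_coe_mul_geometric_of_norm_lt_one ht
    have h4 := (hasSum_nat_add_iff' 1).2 h3
    simpa using h4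
  have hs2 : HasSum (fun j => 4 * (conj (γ j) * (R : ℂ) ^ j)) (4 * conj (Γ R)) := by
    have h3 := (hΓ.map (starRingEnd ℂ) continuous_conj).mul_left 4
    refine h3.congr_fun ?_
    intro j
    simp
  have e2 := tsum_mul_tsum_of_summable_norm
    (f := fun l : ℕ => ((l + 1 : ℕ) : ℂ) * ((R : ℂ) * w) ^ (l + 1))
    (g := fun j => 4 * (conj (γ j) * (R : ℂ) ^ j)) hs1.summable.norm hs2.summable.norm
  rw [← e2, hs1.tsum_eq, hs2.tsum_eq]
  ring

end Pool.Agent.Lib.BergExt
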