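import Pool.Agent.Lib.BergExt.Growth2

/-!
# Unbounded means, and the pointwise inequality behind extremality
-/

set_option autoImplicit false

open MeasureTheory Complex Filter Topology
open scoped ComplexConjugate ENNReal

namespace Pool.Agent.Lib.BergExt

theorem M2_lower {r : ℝ} (hr : 0 < r) {R : ℕ → ℝ} {N : ℕ → ℕ}
    (hRN : ∀ n, 1 / 2 ≤ R n ∧ R n < 1 ∧ n + 1 ≤ N n) (m : ℕ) {ρ : ℝ} (h0 : 0 ≤ ρ) (h1 : ρ < 1) :
    ∏ j ∈ Finset.range m, (1 + r ^ 2 * ρ ^ (2 * N j)) ≤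
      M2 (fun z => exp (r * Linf R N z)) ρ := by
  have hzz : ∀ θ, ‖(ρ : ℂ) * eit θ‖ ≤ ρ := by
    intro θ
    rw [norm_mul, norm_eit, mul_one, Complex.norm_real, Real.norm_of_nonneg h0]
  set K : ℝ := ∑' j : ℕ, (2 / (1 - ρ ^ 2)) * ρ ^ (j + 1) with hK
  have hlim : Tendsto (fun n => M2 (fun z => exp (r * ∑ j ∈ Finset.range n, lc (R j * z ^ N j))) ρ)
      atTop (𝓝 (M2 (fun z => exp (r * Linf R N z)) ρ)) := by
    unfold M2
    refine tendsto_integral_of_dominated_convergence (fun _ => (Real.exp (r * K)) ^ 2) ?_ ?_ ?_ ?_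
    · intro n
      have h2 := (growth hr hRN n).1.continuousOn
      exact ((circle_continuous h2 h0 h1).norm.pow 2).aestronglyMeasurable
    · exact integrable_const _
    · intro n
      refine ae_of_all _ fun θ => ?_
      rw [Real.norm_of_nonneg (by positivity)]
      have h2 := norm_Lf_le hRN h0 h1 (hzz θ) n
      have h3 : ‖exp ((r : ℂ) * ∑ j ∈ Finset.range n, lc (R j * ((ρ : ℂ) * eit θ) ^ N j))‖ ≤
          Real.exp (r * K) := by
        refine (norm_exp_le_exp_norm _).trans ?_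
        rw [Real.exp_le_exp, norm_mul, Complex.norm_real, Real.norm_of_nonneg hr.le]
        exact mul_le_mul_of_nonneg_left h2 hr.le
      gcongr
    · refine ae_of_all _ fun θ => ?_
      refine Tendsto.pow (Tendsto.norm ?_) 2
      refine (continuous_exp.tendsto _).comp ?_
      refine Tendsto.const_mul _ ?_
      exact tendsto_Lf hRN (lt_of_le_of_lt (hzz θ) h1)
  refine ge_of_tendsto hlim ?_
  filter_upwards [eventually_ge_atTop m] with n hn
  refine le_trans ?_ ((growth hr hRN n).2 ρ h0 h1)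
  clear hzz hlim
  induction n, hn using Nat.le_induction with
  | base => exact le_rfl
  | succ n _ ih =>
    rw [Finset.prod_range_succ]
    have h3 : 0 ≤ r ^ 2 * ρ ^ (2 * N n) := by positivity
    have h4 : 0 ≤ ∏ j ∈ Finset.range n, (1 + r ^ 2 * ρ ^ (2 * N j)) :=
      Finset.prod_nonneg fun j _ => by positivity
    nlinarith [mul_nonneg h4 h3]

theorem M2_unbounded {r : ℝ} (hr : 0 < r) {R : ℕ → ℝ} {N : ℕ → ℕ}
    (hRN : ∀ n, 1 / 2 ≤ R n ∧ R n < 1 ∧ n + 1 ≤ N n) (C : ℝ)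
    (h : ∀ ρ : ℝ, 0 < ρ → ρ < 1 → M2 (fun z => exp (r * Linf R N z)) ρ ≤ C) : False := by
  have h1 : ∀ m : ℕ, (1 + r ^ 2) ^ m ≤ C := by
    intro m
    have hcont : Tendsto (fun ρ : ℝ => ∏ j ∈ Finset.range m, (1 + r ^ 2 * ρ ^ (2 * N j)))
        (𝓝[<] 1) (𝓝 (∏ j ∈ Finset.range m, (1 + r ^ 2 * (1 : ℝ) ^ (2 * N j)))) := by
      have hc : Continuous (fun ρ : ℝ => ∏ j ∈ Finset.range m, (1 + r ^ 2 * ρ ^ (2 * N j))) := by
        fun_prop
      exact (hc.tendsto 1).mono_left nhdsWithin_le_nhds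
    have hval : ∏ j ∈ Finset.range m, (1 + r ^ 2 * (1 : ℝ) ^ (2 * N j)) = (1 + r ^ 2) ^ m := by
      simp
    rw [hval] at hcont
    refine le_of_tendsto hcont ?_
    have e1 : ∀ᶠ ρ : ℝ in 𝓝[<] 1, 0 < ρ :=
      mem_nhdsWithin_of_mem_nhds (Ioi_mem_nhds (by norm_num))
    have e2 : ∀ᶠ ρ : ℝ in 𝓝[<] 1, ρ < 1 := self_mem_nhdsWithin
    filter_upwards [e1, e2] with ρ hρ0 hρ1
    exact (M2_lower hr hRN m hρ0.le hρ1).trans (h ρ hρ0 hρ1)
  have hr2 : 1 < 1 + r ^ 2 := by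
    have : 0 < r ^ 2 := by positivity
    linarith
  obtain ⟨m, hm⟩ := pow_unbounded_of_one_lt C hr2
  exact absurd (h1 m) (not_le.2 hm)

/-- The pointwise inequality behind extremality (`v ≠ 0`). -/
theorem young_complex {p : ℝ} (hp : 1 < p) {u v : ℂ} (hv : v ≠ 0) :
    (u * conj v).re * ‖v‖ ^ (p - 2) ≤ ‖u‖ ^ p / p + ‖v‖ ^ p * (1 - 1 / p) ∧
    ((u * conj v).re * ‖v‖ ^ (p - 2) = ‖u‖ ^ p / p + ‖v‖ ^ p * (1 - 1 / p) → u = v) := by
  have hp0 : 0 < p := by linarith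
  have hvn : 0 < ‖v‖ := norm_pos_iff.2 hv
  set w : ℂ := u / v with hw
  have hu : u = w * v := by rw [hw]; field_simp
  have hun : ‖u‖ = ‖w‖ * ‖v‖ := by rw [hu, norm_mul]
  have hre : (u * conj v).re * ‖v‖ ^ (p - 2) = w.re * ‖v‖ ^ p := by
    have h1 : u * conj v = ((‖v‖ ^ 2 : ℝ) : ℂ) * w := by
      rw [hu, mul_assoc, mul_conj, normSq_eq_norm_sq, mul_comm]
    rw [h1, re_ofReal_mul]
    have h2 : ‖v‖ ^ p = ‖v‖ ^ (2 : ℝ) * ‖v‖ ^ (p - 2) := by
      rw [← Real.rpow_add hvn]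
      congr 1
      ring
    rw [h2, Real.rpow_two]
    ring
  have hupow : ‖u‖ ^ p = ‖w‖ ^ p * ‖v‖ ^ p := by
    rw [hun, Real.mul_rpow (norm_nonneg _) (norm_nonneg _)]
  have hvp : 0 < ‖v‖ ^ p := Real.rpow_pos_of_pos hvn p
  have hbern : 1 + p * (‖w‖ - 1) ≤ ‖w‖ ^ p := by
    have := one_add_mul_self_le_rpow_one_add (s := ‖w‖ - 1) (by linarith [norm_nonneg w]) hp.le
    rwa [add_sub_cancel] at this
  have hwre : w.re ≤ ‖w‖ := re_le_norm w
  have hrhs : ‖u‖ ^ p / p + ‖v‖ ^ p * (1 - 1 / p) = ‖v‖ ^ p * (‖w‖ ^ p / p + (1 - 1 / p)) := by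
    rw [hupow]
    ring
  have hmid : ‖w‖ ≤ ‖w‖ ^ p / p + (1 - 1 / p) := by
    have h2 : ‖w‖ ^ p / p + (1 - 1 / p) - ‖w‖ = (‖w‖ ^ p - (1 + p * (‖w‖ - 1))) / p := by
      field_simp
      ring
    have h3 : 0 ≤ (‖w‖ ^ p - (1 + p * (‖w‖ - 1))) / p := div_nonneg (by linarith) hp0.le
    linarith
  rw [hre, hrhs]
  constructor
  · rw [mul_comm]
    exact mul_le_mul_of_nonneg_left (hwre.trans hmid) hvp.le
  · intro heq
    rw [mul_comm] at heq
    have heq2 : w.re = ‖w‖ ^ p / p + (1 - 1 / p) := mul_left_cancel₀ hvp.ne' heq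
    have h4 : w.re = ‖w‖ := le_antisymm hwre (by rw [heq2]; exact hmid)
    have h5 : ‖w‖ = 1 := by
      by_contra hne
      have h6 := one_add_mul_self_lt_rpow_one_add (s := ‖w‖ - 1) (by linarith [norm_nonneg w])
        (sub_ne_zero.2 hne) hp
      rw [add_sub_cancel] at h6
      have h7 : ‖w‖ ^ p / p + (1 - 1 / p) - ‖w‖ = (‖w‖ ^ p - (1 + p * (‖w‖ - 1))) / p := by
        field_simp
        ring
      have h8 : 0 < (‖w‖ ^ p - (1 + p * (‖w‖ - 1))) / p := div_pos (by linarith) hp0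
      rw [h4] at heq2
      linarith
    have h6 : w = 1 := by
      have h7 : w.re = 1 := by rw [h4, h5]
      have h8 : ‖w‖ ^ 2 = w.re ^ 2 + w.im ^ 2 := by
        rw [← normSq_eq_norm_sq, normSq_apply]
        ring
      rw [h5, h7] at h8
      have h9 : w.im = 0 := by
        have : w.im ^ 2 = 0 := by linarith
        exact pow_eq_zero_iff (two_ne_zero) |>.1 this
      exact Complex.ext (by simp [h7]) (by simp [h9])
    rw [hu, h6, one_mul]

end Pool.Agent.Lib.BergExt
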