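import Pool.Agent.Lib.BergExt.Limit

/-!
# Growth of the quadratic means of `exp (r L)`
-/

set_option autoImplicit false

open MeasureTheory Complex Filter Topology
open scoped ComplexConjugate ENNReal

namespace Pool.Agent.Lib.BergExt

/-- `f` is given on the disc by a power series with nonnegative coefficients. -/
def NN (f : ℂ → ℂ) : Prop :=
  ∃ a : ℕ → ℝ, (∀ m, 0 ≤ a m) ∧ ∀ z, ‖z‖ < 1 → HasSum (fun m => (a m : ℂ) * z ^ m) (f z)

theorem NN.mul {f g : ℂ → ℂ} (hf : NN f) (hg : NN g) : NN (fun z => f z * g z) := by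
  obtain ⟨a, ha, hfa⟩ := hf
  obtain ⟨b, hb, hgb⟩ := hg
  refine ⟨fun n => ∑ kl ∈ Finset.HasAntidiagonal.antidiagonal n, a kl.1 * b kl.2, fun n =>
    Finset.sum_nonneg fun kl _ => mul_nonneg (ha _) (hb _), fun z hz => ?_⟩
  have h1 := (hfa z hz).summable.norm
  have h2 := (hgb z hz).summable.norm
  have h3 := summable_norm_sum_mul_antidiagonal_of_summable_norm h1 h2
  have h4 := tsum_mul_tsum_eq_tsum_sum_antidiagonal_of_summable_norm h1 h2
  rw [(hfa z hz).tsum_eq, (hgb z hz).tsum_eq] at h4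
  simp only
  rw [h4]
  refine h3.of_norm.hasSum.congr_fun ?_
  intro n
  push_cast
  rw [Finset.sum_mul]
  refine Finset.sum_congr rfl fun kl hkl => ?_
  rw [← Finset.HasAntidiagonal.mem_antidiagonal.1 hkl, pow_add]
  ring

theorem NN.scale {f : ℂ → ℂ} (hf : NN f) {N : ℕ} (hN : 1 ≤ N) : NN (fun z => f (z ^ N)) := by
  obtain ⟨a, ha, hfa⟩ := hf
  refine ⟨fun n => if N ∣ n then a (n / N) else 0, fun n => ?_, fun z hz => ?_⟩
  · simp only
    split_ifs
    · exact ha _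
    · exact le_rfl
  · have hzN : ‖z ^ N‖ < 1 := by
      rw [norm_pow]
      exact pow_lt_one₀ (norm_nonneg _) hz (by omega)
    have h1 := hfa (z ^ N) hzN
    have hinj : Function.Injective (fun m : ℕ => N * m) := fun m n h =>
      Nat.eq_of_mul_eq_mul_left (by omega) h
    rw [← hinj.hasSum_iff]
    · refine h1.congr_fun ?_
      intro m
      simp only [Function.comp_apply]
      rw [if_pos (Dvd.intro m rfl), Nat.mul_div_cancel_left m (by omega), pow_mul]
    · intro n hn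
      simp only
      rw [if_neg]
      · simp
      · rintro ⟨m, rfl⟩
        exact hn ⟨m, rfl⟩

theorem NN.const_mul {f : ℂ → ℂ} (hf : NN f) {c : ℝ} (hc : 0 ≤ c) : NN (fun z => (c : ℂ) * f z) := by
  obtain ⟨a, ha, hfa⟩ := hf
  refine ⟨fun n => c * a n, fun n => mul_nonneg hc (ha n), fun z hz => ?_⟩
  refine ((hfa z hz).mul_left (c : ℂ)).congr_fun ?_
  intro m
  push_cast
  ring

theorem NN.one : NN (fun _ => 1) := by
  refine ⟨fun n => if n = 0 then 1 else 0, fun n => ?_, fun z hz => ?_⟩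
  · simp only
    split_ifs <;> norm_num
  · refine (hasSum_ite_eq 0 (1 : ℂ)).congr_fun ?_
    intro m
    by_cases hm : m = 0
    · simp [hm]
    · simp [hm]

theorem NN.pow (n : ℕ) : NN (fun z => z ^ n) := by
  refine ⟨fun m => if m = n then 1 else 0, fun m => ?_, fun z hz => ?_⟩
  · simp only
    split_ifs <;> norm_num
  · refine (hasSum_ite_eq n (z ^ n)).congr_fun ?_
    intro m
    by_cases hm : m = n
    · simp [hm]
    · simp [hm]

theorem NN.continuousOn {f : ℂ → ℂ} (hf : NN f) : ContinuousOn f (Metric.ball 0 1) := by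
  obtain ⟨a, ha, hfa⟩ := hf
  intro z hz
  have hz' : ‖z‖ < 1 := by simpa using hz
  set r : ℝ := (1 + ‖z‖) / 2 with hr
  have hr1 : r < 1 := by rw [hr]; linarith
  have hzr : ‖z‖ < r := by rw [hr]; linarith
  have hr0 : 0 ≤ r := (norm_nonneg z).trans hzr.le
  have hs := summable_norm_of_hasSum hfa hr0 hr1
  have h1 : ContinuousOn (fun z => ∑' m, (a m : ℂ) * z ^ m) (Metric.ball 0 r) := by
    refine continuousOn_tsum (fun m => by fun_prop) hs ?_
    intro m w hw
    have hw' : ‖w‖ < r := by simpa using hw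
    rw [norm_mul, norm_pow]
    gcongr
  have h2 : ContinuousOn f (Metric.ball 0 r) := by
    refine h1.congr ?_
    intro w hw
    have hw' : ‖w‖ < r := by simpa using hw
    exact (hfa w (by linarith)).tsum_eq.symm
  exact (h2.continuousAt (Metric.isOpen_ball.mem_nhds (by simpa using hzr))).continuousWithinAt

theorem integrable_circle {f : ℂ → ℂ} (hf : ContinuousOn f (Metric.ball 0 1)) {ρ : ℝ}
    (h0 : 0 ≤ ρ) (h1 : ρ < 1) {g : ℂ → ℝ} (hg : Continuous g) :
    Integrable (fun θ => g (f (ρ * eit θ))) μT := by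
  have hc : Continuous (fun θ => g (f (ρ * eit θ))) := hg.comp (circle_continuous hf h0 h1)
  unfold μT
  refine Integrable.smul_measure ?_ (ENNReal.inv_ne_top.2 ofReal_two_pi_ne_zero)
  exact (hc.integrableOn_Icc).mono_set Set.Ioc_subset_Icc_self

theorem integrable_of_continuous {f : ℝ → ℝ} (hc : Continuous f) : Integrable f μT := by
  unfold μT
  refine Integrable.smul_measure ?_ (ENNReal.inv_ne_top.2 ofReal_two_pi_ne_zero)
  exact (hc.integrableOn_Icc).mono_set Set.Ioc_subset_Icc_self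

/-- Functions with nonnegative coefficients have nonnegative correlations. -/
theorem NN.corr {f g : ℂ → ℂ} (hf : NN f) (hg : NN g) {ρ : ℝ} (h0 : 0 ≤ ρ) (h1 : ρ < 1) :
    0 ≤ ∫ θ, (f (ρ * eit θ) * conj (g (ρ * eit θ))).re ∂μT := by
  have hcf := hf.continuousOn
  have hcg := hg.continuousOn
  obtain ⟨a, ha, hfa⟩ := hf
  obtain ⟨b, hb, hgb⟩ := hg
  have hρ : ‖(ρ : ℂ)‖ < 1 := by
    rw [Complex.norm_real, Real.norm_of_nonneg h0]
    exact h1
  have hzz : ∀ θ, ‖(ρ : ℂ) * eit θ‖ < 1 := by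
    intro θ
    rw [norm_mul, norm_eit, mul_one]
    exact hρ
  have hcg' : Continuous (fun θ => conj (g (ρ * eit θ))) :=
    continuous_conj.comp (circle_continuous hcg h0 h1)
  have hgint : Integrable (fun θ => ‖g (ρ * eit θ)‖) μT :=
    integrable_of_continuous (circle_continuous hcg h0 h1).norm
  have hce := continuous_eit
  have hterm : ∀ m, Integrable (fun θ => ((a m : ℂ) * ((ρ : ℂ) * eit θ) ^ m) *
      conj (g (ρ * eit θ))) μT := by
    intro m
    have hc : Continuous (fun θ => ((a m : ℂ) * ((ρ : ℂ) * eit θ) ^ m) *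
      conj (g (ρ * eit θ))) := by fun_prop
    refine (hgint.const_mul (a m)).mono hc.aestronglyMeasurable (ae_of_all _ fun θ => ?_)
    rw [norm_mul, norm_mul, norm_pow, RCLike.norm_conj, Complex.norm_real, Real.norm_of_nonneg (ha m),
      Real.norm_of_nonneg (mul_nonneg (ha m) (norm_nonneg _))]
    have h2 : ‖(ρ : ℂ) * eit θ‖ ^ m ≤ 1 := pow_le_one₀ (norm_nonneg _) (hzz θ).le
    have h3 : a m * ‖(ρ : ℂ) * eit θ‖ ^ m ≤ a m := mul_le_of_le_one_right (ha m) h2
    exact mul_le_mul_of_nonneg_right h3 (norm_nonneg _)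
  have hsum : Summable (fun m => ∫ θ, ‖((a m : ℂ) * ((ρ : ℂ) * eit θ) ^ m) *
      conj (g (ρ * eit θ))‖ ∂μT) := by
    have hs := summable_norm_of_hasSum hfa h0 h1
    refine (hs.mul_right (∫ θ, ‖g (ρ * eit θ)‖ ∂μT)).congr ?_
    intro m
    rw [← integral_const_mul]
    congr 1
    ext θ
    rw [norm_mul, norm_mul, norm_pow, RCLike.norm_conj, norm_mul, norm_eit, mul_one,
      Complex.norm_real, Complex.norm_real, Real.norm_of_nonneg h0]
  have hI := hasSum_integral_of_summable_integral_norm hterm hsum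
  have hcoef : ∀ m, ∫ θ, ((a m : ℂ) * ((ρ : ℂ) * eit θ) ^ m) * conj (g (ρ * eit θ)) ∂μT =
      ((a m * ρ ^ m * (b m * ρ ^ m) : ℝ) : ℂ) := by
    intro m
    have h2 := circle_coef hgb m 0 hρ
    rw [if_pos (Nat.zero_le m), Nat.sub_zero] at h2
    have h3 := congrArg conj h2
    rw [← integral_conj] at h3
    have h4 : ∀ θ, ((a m : ℂ) * ((ρ : ℂ) * eit θ) ^ m) * conj (g (ρ * eit θ)) =
        ((a m : ℂ) * (ρ : ℂ) ^ m) * conj (g (eit θ * (ρ : ℂ)) * (eit θ ^ 0 * conj (eit θ) ^ m)) := by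
      intro θ
      rw [mul_comm (eit θ) (ρ : ℂ)]
      simp only [map_mul, map_pow, conj_conj, pow_zero, one_mul]
      rw [mul_pow]
      ring
    simp_rw [h4]
    rw [integral_const_mul, h3]
    simp only [map_mul, map_pow, conj_ofReal]
    push_cast
    ring
  simp_rw [hcoef] at hI
  have htot : ∫ θ, f (ρ * eit θ) * conj (g (ρ * eit θ)) ∂μT =
      ∫ θ, ∑' m, ((a m : ℂ) * ((ρ : ℂ) * eit θ) ^ m) * conj (g (ρ * eit θ)) ∂μT := by
    congr 1
    ext θ
    rw [tsum_mul_right, (hfa _ (hzz θ)).tsum_eq]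
  rw [← htot] at hI
  have hfg : Integrable (fun θ => f (ρ * eit θ) * conj (g (ρ * eit θ))) μT := by
    have hc : Continuous (fun θ => f (ρ * eit θ) * conj (g (ρ * eit θ))) :=
      (circle_continuous hcf h0 h1).mul hcg'
    unfold μT
    refine Integrable.smul_measure ?_ (ENNReal.inv_ne_top.2 ofReal_two_pi_ne_zero)
    exact (hc.integrableOn_Icc).mono_set Set.Ioc_subset_Icc_self
  have hre : ∫ θ, (f (ρ * eit θ) * conj (g (ρ * eit θ))).re ∂μT =
      (∫ θ, f (ρ * eit θ) * conj (g (ρ * eit θ)) ∂μT).re := integral_re hfg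
  rw [hre]
  have h5 := Complex.hasSum_re hI
  refine h5.nonneg ?_
  intro m
  rw [ofReal_re]
  have := ha m
  have := hb m
  positivity

theorem int6 {u1 u2 u3 u4 u5 u6 : ℝ → ℝ} (h1 : Integrable u1 μT) (h2 : Integrable u2 μT)
    (h3 : Integrable u3 μT) (h4 : Integrable u4 μT) (h5 : Integrable u5 μT)
    (h6 : Integrable u6 μT) :
    ∫ θ, (u1 θ + u2 θ + u3 θ + u4 θ + u5 θ + u6 θ) ∂μT = ∫ θ, u1 θ ∂μT + ∫ θ, u2 θ ∂μT +
      ∫ θ, u3 θ ∂μT + ∫ θ, u4 θ ∂μT + ∫ θ, u5 θ ∂μT + ∫ θ, u6 θ ∂μT := by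
  have i2 : Integrable (fun θ => u1 θ + u2 θ) μT := h1.add h2
  have i3 : Integrable (fun θ => u1 θ + u2 θ + u3 θ) μT := i2.add h3
  have i4 : Integrable (fun θ => u1 θ + u2 θ + u3 θ + u4 θ) μT := i3.add h4
  have i5 : Integrable (fun θ => u1 θ + u2 θ + u3 θ + u4 θ + u5 θ) μT := i4.add h5
  rw [integral_add i5 h6, integral_add i4 h5, integral_add i3 h4, integral_add i2 h3,
    integral_add h1 h2]

/-- the quadratic mean -/
noncomputable def M2 (f : ℂ → ℂ) (ρ : ℝ) : ℝ := ∫ θ, ‖f (ρ * eit θ)‖ ^ 2 ∂μT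

theorem M2_nonneg (f : ℂ → ℂ) (ρ : ℝ) : 0 ≤ M2 f ρ := integral_nonneg fun θ => by positivity

theorem NN.M2_add {A B C : ℂ → ℂ} (hA : NN A) (hB : NN B) (hC : NN C) {ρ : ℝ} (h0 : 0 ≤ ρ)
    (h1 : ρ < 1) : M2 A ρ + M2 B ρ ≤ M2 (fun z => A z + B z + C z) ρ := by
  have h2 := hA.corr hB h0 h1
  have h3 := hA.corr hC h0 h1
  have h4 := hB.corr hC h0 h1
  have cA := circle_continuous hA.continuousOn h0 h1
  have cB := circle_continuous hB.continuousOn h0 h1
  have cC := circle_continuous hC.continuousOn h0 h1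
  have hconj : ∀ {u v : ℝ → ℂ}, Continuous u → Continuous v →
      Continuous (fun θ => (u θ * conj (v θ)).re) := fun hu hv =>
    continuous_re.comp (hu.mul (continuous_conj.comp hv))
  have iA : Integrable (fun θ => ‖A (ρ * eit θ)‖ ^ 2) μT := integrable_of_continuous (cA.norm.pow 2)
  have iB : Integrable (fun θ => ‖B (ρ * eit θ)‖ ^ 2) μT := integrable_of_continuous (cB.norm.pow 2)
  have iC : Integrable (fun θ => ‖C (ρ * eit θ)‖ ^ 2) μT := integrable_of_continuous (cC.norm.pow 2)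
  have iAB := (integrable_of_continuous (hconj cA cB)).const_mul 2
  have iAC := (integrable_of_continuous (hconj cA cC)).const_mul 2
  have iBC := (integrable_of_continuous (hconj cB cC)).const_mul 2
  unfold M2
  have hexp : ∀ u v w : ℂ, ‖u + v + w‖ ^ 2 = ‖u‖ ^ 2 + ‖v‖ ^ 2 + ‖w‖ ^ 2 +
      2 * (u * conj v).re + 2 * (u * conj w).re + 2 * (v * conj w).re := by
    intro u v w
    simp only [← normSq_eq_norm_sq, normSq_apply, add_re, add_im, mul_re, conj_re, conj_im]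
    ring
  have hI : ∫ θ, ‖A (ρ * eit θ) + B (ρ * eit θ) + C (ρ * eit θ)‖ ^ 2 ∂μT =
      ∫ θ, ‖A (ρ * eit θ)‖ ^ 2 ∂μT + ∫ θ, ‖B (ρ * eit θ)‖ ^ 2 ∂μT + ∫ θ, ‖C (ρ * eit θ)‖ ^ 2 ∂μT +
      2 * ∫ θ, (A (ρ * eit θ) * conj (B (ρ * eit θ))).re ∂μT +
      2 * ∫ θ, (A (ρ * eit θ) * conj (C (ρ * eit θ))).re ∂μT +
      2 * ∫ θ, (B (ρ * eit θ) * conj (C (ρ * eit θ))).re ∂μT := by
    simp_rw [hexp]
    rw [int6 iA iB iC iAB iAC iBC, integral_const_mul, integral_const_mul, integral_const_mul]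
  rw [hI]
  have h5 : 0 ≤ ∫ θ, ‖C (ρ * eit θ)‖ ^ 2 ∂μT := integral_nonneg fun θ => by positivity
  linarith

end Pool.Agent.Lib.BergExt
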