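import Pool.Agent.Lib.BergExt.Growth

/-!
# Positivity of the coefficients of the block
-/

set_option autoImplicit false

open MeasureTheory Complex Filter Topology
open scoped ComplexConjugate ENNReal

namespace Pool.Agent.Lib.BergExt

theorem coef_unique {a b : ℕ → ℂ} {f : ℂ → ℂ}
    (ha : ∀ z, ‖z‖ < 1 → HasSum (fun m => a m * z ^ m) (f z))
    (hb : ∀ z, ‖z‖ < 1 → HasSum (fun m => b m * z ^ m) (f z)) (m : ℕ) : a m = b m := by
  have hz : ‖(1 / 2 : ℂ)‖ < 1 := by norm_num
  have h1 := circle_coef ha m 0 hz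
  have h2 := circle_coef hb m 0 hz
  rw [if_pos (Nat.zero_le m), Nat.sub_zero] at h1 h2
  rw [h1] at h2
  exact mul_right_cancel₀ (pow_ne_zero m (by norm_num)) h2

theorem taylor_hasSum {f : ℂ → ℂ} (hf : DifferentiableOn ℂ f (Metric.ball 0 1)) {z : ℂ}
    (hz : ‖z‖ < 1) :
    HasSum (fun n : ℕ => ((n.factorial : ℂ)⁻¹ * iteratedDeriv n f 0) * z ^ n) (f z) := by
  have h2 := Complex.hasSum_taylorSeries_on_ball hf (z := z) (by simpa using hz)
  refine h2.congr_fun ?_
  intro n
  simp only [smul_eq_mul, sub_zero]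
  ring

/-- The block to the power `r`. -/
noncomputable def YY (r R : ℝ) (w : ℂ) : ℂ := exp (r * lc (R * w))

theorem norm_Rw {R : ℝ} (h0 : 0 < R) (h1 : R < 1) {w : ℂ} (hw : ‖w‖ < 1) : ‖(R : ℂ) * w‖ < 1 := by
  rw [norm_mul, Complex.norm_real, Real.norm_of_nonneg h0.le]
  have := norm_nonneg w
  nlinarith

theorem YY_deriv {r R : ℝ} (h0 : 0 < R) (h1 : R < 1) {w : ℂ} (hw : ‖w‖ < 1) :
    HasDerivAt (YY r R) (YY r R w * (2 * r * R / (1 - (R * w) ^ 2))) w := by
  have ht := norm_Rw h0 h1 hw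
  have h2 : HasDerivAt (fun w : ℂ => (R : ℂ) * w) (R : ℂ) w := by
    simpa using (hasDerivAt_id w).const_mul (R : ℂ)
  have h3 : HasDerivAt (fun w : ℂ => lc (R * w)) (2 / (1 - (R * w) ^ 2) * R) w :=
    HasDerivAt.comp (h₂ := lc) (h := fun w : ℂ => (R : ℂ) * w) w (hasDerivAt_lc ht) h2
  have h4 := (h3.const_mul (r : ℂ)).cexp
  refine h4.congr_deriv ?_
  unfold YY
  ring

theorem YY_diff {r R : ℝ} (h0 : 0 < R) (h1 : R < 1) : DifferentiableOn ℂ (YY r R) (Metric.ball 0 1) :=
  fun w hw => (YY_deriv h0 h1 (by simpa using hw)).differentiableAt.differentiableWithinAt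

theorem YY_zero (r R : ℝ) : YY r R 0 = 1 := by
  unfold YY
  simp [lc_zero]

theorem YY_coefs {r R : ℝ} (hr : 0 < r) (h0 : 0 < R) (h1 : R < 1) :
    ∃ a : ℕ → ℝ, (∀ m, 0 ≤ a m) ∧ a 0 = 1 ∧ a 1 = 2 * r * R ∧
      ∀ z, ‖z‖ < 1 → HasSum (fun m => (a m : ℂ) * z ^ m) (YY r R z) := by
  set c : ℕ → ℂ := fun n => (n.factorial : ℂ)⁻¹ * iteratedDeriv n (YY r R) 0 with hc
  have hcs : ∀ z, ‖z‖ < 1 → HasSum (fun m => c m * z ^ m) (YY r R z) :=
    fun z hz => taylor_hasSum (YY_diff h0 h1) hz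
  have hd : DifferentiableOn ℂ (deriv (YY r R)) (Metric.ball 0 1) :=
    (YY_diff h0 h1).deriv Metric.isOpen_ball
  have hds : ∀ z, ‖z‖ < 1 → HasSum (fun m : ℕ => (((m : ℂ) + 1) * c (m + 1)) * z ^ m)
      (deriv (YY r R) z) := by
    intro z hz
    have h2 := taylor_hasSum hd hz
    refine h2.congr_fun ?_
    intro m
    rw [hc]
    simp only
    rw [iteratedDeriv_succ', Nat.factorial_succ]
    have h3 : (m.factorial : ℂ) ≠ 0 := by exact_mod_cast Nat.factorial_ne_zero m
    have h4 : ((m : ℂ) + 1) ≠ 0 := by exact_mod_cast Nat.succ_ne_zero m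
    push_cast
    field_simp
  -- the differential equation
  set e : ℕ → ℂ := fun m => if m < 2 then 0 else (R : ℂ) ^ 2 * (((m : ℂ) - 1) * c (m - 1)) with he
  have hes : ∀ z, ‖z‖ < 1 → HasSum (fun m => e m * z ^ m) ((R * z) ^ 2 * deriv (YY r R) z) := by
    intro z hz
    have h2 := (hds z hz).mul_left ((R * z) ^ 2)
    rw [← hasSum_nat_add_iff' 2]
    have h3 : ((R : ℂ) * z) ^ 2 * deriv (YY r R) z - ∑ i ∈ Finset.range 2, e i * z ^ i =
        ((R : ℂ) * z) ^ 2 * deriv (YY r R) z := by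
      simp [Finset.sum_range_succ, he]
    rw [h3]
    refine h2.congr_fun ?_
    intro m
    rw [he]
    simp only
    rw [if_neg (by omega)]
    have h4 : m + 2 - 1 = m + 1 := by omega
    rw [h4]
    push_cast
    ring
  have hode : ∀ z, ‖z‖ < 1 → deriv (YY r R) z - (R * z) ^ 2 * deriv (YY r R) z =
      (2 * r * R) * YY r R z := by
    intro z hz
    rw [(YY_deriv h0 h1 hz).deriv]
    have ht := norm_Rw h0 h1 hz
    have h5 : 1 - ((R : ℂ) * z) ^ 2 ≠ 0 := by
      have : 1 - ((R : ℂ) * z) ^ 2 = (1 - (R : ℂ) * z) * (1 + (R : ℂ) * z) := by ring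
      rw [this]
      exact mul_ne_zero (one_sub_ne ht) (one_add_ne ht)
    rw [mul_pow] at h5 ⊢
    field_simp
  have hrec : ∀ m : ℕ, ((m : ℂ) + 1) * c (m + 1) - e m = (2 * r * R) * c m := by
    intro m
    refine coef_unique (f := fun z => (2 * r * R) * YY r R z)
      (a := fun m => ((m : ℂ) + 1) * c (m + 1) - e m) (b := fun m => (2 * r * R) * c m) ?_ ?_ m
    · intro z hz
      have h2 := (hds z hz).sub (hes z hz)
      rw [hode z hz] at h2
      refine h2.congr_fun ?_
      intro k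
      ring
    · intro z hz
      have h2 := (hcs z hz).mul_left (2 * r * R : ℂ)
      refine h2.congr_fun ?_
      intro k
      ring
  have hc0 : c 0 = 1 := by
    rw [hc]
    simp [YY_zero]
  have hnn : ∀ m, ∃ x : ℝ, 0 ≤ x ∧ c m = x := by
    intro m
    induction m using Nat.strong_induction_on with
    | _ m ih =>
      rcases Nat.eq_zero_or_pos m with h | h
      · subst h
        exact ⟨1, zero_le_one, by rw [hc0]; simp⟩
      · obtain ⟨k, rfl⟩ : ∃ k, m = k + 1 := ⟨m - 1, by omega⟩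
        obtain ⟨x, hx0, hx⟩ := ih k (by omega)
        have h2 := hrec k
        have hk : ((k : ℂ) + 1) ≠ 0 := by exact_mod_cast Nat.succ_ne_zero k
        by_cases hk2 : k < 2
        · have he0 : e k = 0 := by
            rw [he]
            simp only
            rw [if_pos hk2]
          rw [he0, sub_zero, hx] at h2
          refine ⟨2 * r * R * x / (k + 1), by positivity, ?_⟩
          push_cast
          rw [eq_div_iff hk, mul_comm]
          exact h2
        · obtain ⟨y, hy0, hy⟩ := ih (k - 1) (by omega)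
          have hek : e k = (R : ℂ) ^ 2 * (((k : ℂ) - 1) * y) := by
            rw [he]
            simp only
            rw [if_neg hk2, hy]
          have hk1 : (0 : ℝ) ≤ (k : ℝ) - 1 := by
            have : (2 : ℝ) ≤ k := by exact_mod_cast not_lt.1 hk2
            linarith
          rw [hek, hx] at h2
          refine ⟨(2 * r * R * x + R ^ 2 * (((k : ℝ) - 1) * y)) / (k + 1), ?_, ?_⟩
          · have := mul_nonneg hk1 hy0
            positivity
          · push_cast
            rw [eq_div_iff hk, mul_comm]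
            linear_combination h2
  choose a ha0 ha using hnn
  refine ⟨a, ha0, ?_, ?_, ?_⟩
  · have h2 := ha 0
    rw [hc0] at h2
    exact_mod_cast h2.symm
  · have h2 := hrec 0
    have he0 : e 0 = 0 := by
      rw [he]
      simp
    rw [he0, sub_zero, hc0] at h2
    have h3 : c 1 = 2 * r * R := by
      simpa using h2
    rw [ha 1] at h3
    exact_mod_cast h3
  · intro z hz
    refine (hcs z hz).congr_fun ?_
    intro m
    rw [ha m]

theorem YY_split {r R : ℝ} (hr : 0 < r) (h0 : 0 < R) (h1 : R < 1) :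
    ∃ Z : ℂ → ℂ, NN Z ∧ NN (YY r R) ∧
      ∀ z, ‖z‖ < 1 → YY r R z = 1 + ((2 * r * R : ℝ) : ℂ) * z + Z z := by
  obtain ⟨a, ha, ha0, ha1, hs⟩ := YY_coefs hr h0 h1
  refine ⟨fun z => YY r R z - 1 - ((2 * r * R : ℝ) : ℂ) * z, ?_, ⟨a, ha, hs⟩, fun z hz => by ring⟩
  refine ⟨fun m => if m < 2 then 0 else a m, fun m => ?_, fun z hz => ?_⟩
  · simp only
    split_ifs
    · exact le_rfl
    · exact ha m
  · rw [← hasSum_nat_add_iff' 2]
    have h2 := (hasSum_nat_add_iff' 2).2 (hs z hz)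
    have h3 : YY r R z - 1 - ((2 * r * R : ℝ) : ℂ) * z -
        ∑ i ∈ Finset.range 2, (((fun m => if m < 2 then 0 else a m) i : ℝ) : ℂ) * z ^ i =
        YY r R z - ∑ i ∈ Finset.range 2, (a i : ℂ) * z ^ i := by
      simp only [Finset.sum_range_succ, Finset.sum_range_zero, ha0, ha1]
      simp
      ring
    rw [h3]
    refine h2.congr_fun ?_
    intro m
    simp

/-- The product of the blocks. -/
theorem growth {r : ℝ} (hr : 0 < r) {R : ℕ → ℝ} {N : ℕ → ℕ}
    (hRN : ∀ n, 1 / 2 ≤ R n ∧ R n < 1 ∧ n + 1 ≤ N n) (n : ℕ) :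
    NN (fun z => exp (r * ∑ j ∈ Finset.range n, lc (R j * z ^ N j))) ∧
    ∀ ρ : ℝ, 0 ≤ ρ → ρ < 1 → ∏ j ∈ Finset.range n, (1 + r ^ 2 * ρ ^ (2 * N j)) ≤
      M2 (fun z => exp (r * ∑ j ∈ Finset.range n, lc (R j * z ^ N j))) ρ := by
  induction n with
  | zero =>
    simp only [Finset.range_zero, Finset.sum_empty, mul_zero, exp_zero, Finset.prod_empty]
    refine ⟨NN.one, fun ρ _ _ => ?_⟩
    unfold M2
    simp
  | succ n ih =>
    obtain ⟨hNN, hM⟩ := ih
    have hR0 : 0 < R n := by linarith [(hRN n).1]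
    have hN1 : 1 ≤ N n := by have := (hRN n).2.2; omega
    obtain ⟨Z, hZ, hY, hsplit⟩ := YY_split hr hR0 (hRN n).2.1
    set g : ℂ → ℂ := fun z => exp (r * ∑ j ∈ Finset.range n, lc (R j * z ^ N j)) with hg
    have hfun : (fun z : ℂ => exp (r * ∑ j ∈ Finset.range (n + 1), lc (R j * z ^ N j))) =
        fun z => g z * YY r (R n) (z ^ N n) := by
      funext z
      rw [hg, Finset.sum_range_succ]
      unfold YY
      rw [← exp_add]
      congr 1
      ring
    rw [hfun]
    refine ⟨hNN.mul (hY.scale hN1), fun ρ hρ0 hρ1 => ?_⟩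
    have hB : NN (fun z => ((2 * r * R n : ℝ) : ℂ) * (z ^ N n * g z)) :=
      ((NN.pow (N n)).mul hNN).const_mul (by positivity)
    have hC : NN (fun z => g z * Z (z ^ N n)) := hNN.mul (hZ.scale hN1)
    have h2 := NN.M2_add hNN hB hC hρ0 hρ1
    have hzz : ∀ θ, ‖(ρ : ℂ) * eit θ‖ < 1 := by
      intro θ
      rw [norm_mul, norm_eit, mul_one, Complex.norm_real, Real.norm_of_nonneg hρ0]
      exact hρ1
    have h3 : M2 (fun z => g z + ((2 * r * R n : ℝ) : ℂ) * (z ^ N n * g z) + g z * Z (z ^ N n)) ρ =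
        M2 (fun z => g z * YY r (R n) (z ^ N n)) ρ := by
      unfold M2
      congr 1
      ext θ
      simp only
      rw [hsplit _ (by
        rw [norm_pow]
        exact pow_lt_one₀ (norm_nonneg _) (hzz θ) (by omega))]
      congr 2
      ring
    have h4 : M2 (fun z => ((2 * r * R n : ℝ) : ℂ) * (z ^ N n * g z)) ρ =
        (2 * r * R n) ^ 2 * ρ ^ (2 * N n) * M2 g ρ := by
      unfold M2
      rw [← integral_const_mul]
      congr 1
      ext θ
      simp only
      rw [norm_mul, norm_mul, norm_pow, norm_mul (ρ : ℂ), norm_eit, mul_one, Complex.norm_real,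
        Complex.norm_real, Real.norm_of_nonneg (by positivity), Real.norm_of_nonneg hρ0]
      ring
    rw [h3, h4] at h2
    have h5 : (r : ℝ) ^ 2 ≤ (2 * r * R n) ^ 2 := by
      have : r ≤ 2 * r * R n := by nlinarith [(hRN n).1]
      gcongr
    have h6 := M2_nonneg g ρ
    rw [Finset.prod_range_succ]
    have h7 : 0 ≤ ρ ^ (2 * N n) := by positivity
    calc (∏ j ∈ Finset.range n, (1 + r ^ 2 * ρ ^ (2 * N j))) * (1 + r ^ 2 * ρ ^ (2 * N n))
        ≤ M2 g ρ * (1 + r ^ 2 * ρ ^ (2 * N n)) :=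
          mul_le_mul_of_nonneg_right (hM ρ hρ0 hρ1) (by positivity)
      _ ≤ M2 g ρ * (1 + (2 * r * R n) ^ 2 * ρ ^ (2 * N n)) := by
          gcongr
      _ = M2 g ρ + (2 * r * R n) ^ 2 * ρ ^ (2 * N n) * M2 g ρ := by ring
      _ ≤ _ := h2

end Pool.Agent.Lib.BergExt
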