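import Pool.Agent.Lib.BergExt.Seq

/-!
# Passage to the limit
-/

set_option autoImplicit false

open MeasureTheory Complex Filter Topology
open scoped ComplexConjugate ENNReal

namespace Pool.Agent.Lib.BergExt

section tele

variable {α : Type*} [MeasurableSpace α] {μ : Measure α}

theorem tele_le {p : ℝ≥0∞} (hp : 1 ≤ p) {f : ℕ → α → ℂ} (hm : ∀ n, AEStronglyMeasurable (f n) μ)
    (h : ∀ n, eLpNorm (fun x => f (n + 1) x - f n x) p μ ≤ ENNReal.ofReal ((1 / 2) ^ n)) (n k : ℕ) :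
    eLpNorm (fun x => f (n + k) x - f n x) p μ ≤
      ENNReal.ofReal (2 * (1 / 2) ^ n - 2 * (1 / 2) ^ (n + k)) := by
  induction k with
  | zero => simp
  | succ k ih =>
    have h1 : (fun x => f (n + (k + 1)) x - f n x) =
        (fun x => f (n + k + 1) x - f (n + k) x) + (fun x => f (n + k) x - f n x) := by
      funext x
      simp [add_assoc]
    rw [h1]
    refine (eLpNorm_add_le ((hm _).sub (hm _)) ((hm _).sub (hm _)) hp).trans ?_
    refine (add_le_add (h (n + k)) ih).trans ?_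
    have h2 : (0 : ℝ) ≤ 2 * (1 / 2) ^ n - 2 * (1 / 2) ^ (n + k) := by
      have : (1 / 2 : ℝ) ^ (n + k) ≤ (1 / 2) ^ n :=
        pow_le_pow_of_le_one (by norm_num) (by norm_num) (Nat.le_add_right n k)
      linarith
    rw [← ENNReal.ofReal_add (by positivity) h2]
    apply ENNReal.ofReal_le_ofReal
    rw [← add_assoc, pow_succ]
    linarith

theorem tele_lim {p : ℝ≥0∞} (hp : 1 ≤ p) {f : ℕ → α → ℂ} {g : α → ℂ}
    (hm : ∀ n, AEStronglyMeasurable (f n) μ)
    (h : ∀ n, eLpNorm (fun x => f (n + 1) x - f n x) p μ ≤ ENNReal.ofReal ((1 / 2) ^ n))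
    (hlim : ∀ᵐ x ∂μ, Tendsto (fun n => f n x) atTop (𝓝 (g x))) (n : ℕ) :
    eLpNorm (fun x => g x - f n x) p μ ≤ ENNReal.ofReal (2 * (1 / 2) ^ n) := by
  refine Lp.eLpNorm_le_of_ae_tendsto (u := atTop) (f := fun k x => f (n + k) x - f n x)
    (Eventually.of_forall fun k => ?_) (fun k => (hm _).sub (hm _)) ?_
  · refine (tele_le hp hm h n k).trans (ENNReal.ofReal_le_ofReal ?_)
    have : (0 : ℝ) ≤ 2 * (1 / 2) ^ (n + k) := by positivity
    linarith
  · filter_upwards [hlim] with x hx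
    refine Tendsto.sub_const ?_ _
    have := hx.comp (tendsto_add_atTop_nat n)
    refine this.congr ?_
    intro k
    simp [add_comm]

end tele

theorem lc_term_le {R : ℝ} {N j : ℕ} (hR0 : 0 ≤ R) (hR1 : R < 1) (hN : j + 1 ≤ N) {z : ℂ} {ρ : ℝ}
    (hρ1 : ρ < 1) (hz : ‖z‖ ≤ ρ) : ‖lc (R * z ^ N)‖ ≤ (2 / (1 - ρ ^ 2)) * ρ ^ (j + 1) := by
  have hρ0 : 0 ≤ ρ := (norm_nonneg z).trans hz
  have hpos : 0 < 1 - ρ ^ 2 := by nlinarith
  have h1 : ‖(R : ℂ) * z ^ N‖ ≤ ρ ^ (j + 1) := by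
    rw [norm_mul, Complex.norm_real, Real.norm_of_nonneg hR0, norm_pow]
    calc R * ‖z‖ ^ N ≤ 1 * ρ ^ N := by
          gcongr
      _ = ρ ^ N := one_mul _
      _ ≤ ρ ^ (j + 1) := pow_le_pow_of_le_one hρ0 hρ1.le hN
  have h2 : ρ ^ (j + 1) ≤ ρ := by
    have := pow_le_pow_of_le_one hρ0 hρ1.le (Nat.le_add_left 1 j)
    simpa using this
  refine (norm_lc_le hρ1 (h1.trans h2)).trans ?_
  gcongr

theorem summable_majorant {ρ : ℝ} (hρ0 : 0 ≤ ρ) (hρ1 : ρ < 1) :
    Summable (fun j : ℕ => (2 / (1 - ρ ^ 2)) * ρ ^ (j + 1)) := by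
  refine Summable.mul_left _ ?_
  exact (summable_nat_add_iff 1).2 (summable_geometric_of_lt_one hρ0 hρ1)

/-- the limit logarithm -/
noncomputable def Linf (R : ℕ → ℝ) (N : ℕ → ℕ) (z : ℂ) : ℂ := ∑' j, lc (R j * z ^ N j)

section lim

variable {R : ℕ → ℝ} {N : ℕ → ℕ} (hRN : ∀ n, 1 / 2 ≤ R n ∧ R n < 1 ∧ n + 1 ≤ N n)

include hRN

theorem summable_lc {z : ℂ} (hz : ‖z‖ < 1) : Summable (fun j => lc (R j * z ^ N j)) := by
  refine Summable.of_norm_bounded (summable_majorant (norm_nonneg z) hz) ?_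
  intro j
  exact lc_term_le (by linarith [(hRN j).1]) (hRN j).2.1 (hRN j).2.2 hz le_rfl

theorem tendsto_Lf {z : ℂ} (hz : ‖z‖ < 1) :
    Tendsto (fun n => ∑ j ∈ Finset.range n, lc (R j * z ^ N j)) atTop (𝓝 (Linf R N z)) :=
  (summable_lc hRN hz).hasSum.tendsto_sum_nat

theorem norm_Lf_le {ρ : ℝ} (hρ0 : 0 ≤ ρ) (hρ1 : ρ < 1) {z : ℂ} (hz : ‖z‖ ≤ ρ) (n : ℕ) :
    ‖∑ j ∈ Finset.range n, lc (R j * z ^ N j)‖ ≤ ∑' j : ℕ, (2 / (1 - ρ ^ 2)) * ρ ^ (j + 1) := by
  have hpos : 0 < 1 - ρ ^ 2 := by nlinarith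
  refine (norm_sum_le _ _).trans ?_
  refine (Finset.sum_le_sum fun j _ => lc_term_le (by linarith [(hRN j).1]) (hRN j).2.1
    (hRN j).2.2 hρ1 hz).trans ?_
  exact (summable_majorant hρ0 hρ1).sum_le_tsum _ (fun j _ => by positivity)

theorem diff_Linf : DifferentiableOn ℂ (Linf R N) (Metric.ball 0 1) := by
  intro z hz
  have hz' : ‖z‖ < 1 := by simpa using hz
  set r : ℝ := (1 + ‖z‖) / 2 with hr
  have hr1 : r < 1 := by rw [hr]; linarith
  have hzr : ‖z‖ < r := by rw [hr]; linarith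
  have hr0 : 0 ≤ r := (norm_nonneg z).trans hzr.le
  have h1 : DifferentiableOn ℂ (Linf R N) (Metric.ball 0 r) := by
    refine differentiableOn_tsum_of_summable_norm (summable_majorant hr0 hr1) ?_
      Metric.isOpen_ball ?_
    · intro j w hw
      have hw' : ‖w‖ < r := by simpa using hw
      have ht : ‖(R j : ℂ) * w ^ N j‖ < 1 := by
        rw [norm_mul, Complex.norm_real, Real.norm_of_nonneg (by linarith [(hRN j).1]), norm_pow]
        have h2 : ‖w‖ ^ N j ≤ 1 := pow_le_one₀ (norm_nonneg _) (by linarith)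
        have := (hRN j).2.1
        have := (hRN j).1
        nlinarith
      refine DifferentiableAt.differentiableWithinAt ?_
      have h3 : DifferentiableAt ℂ (fun w : ℂ => (R j : ℂ) * w ^ N j) w := by fun_prop
      exact DifferentiableAt.comp (g := lc) (f := fun w : ℂ => (R j : ℂ) * w ^ N j) w
        (differentiableAt_lc ht) h3
    · intro j w hw
      exact lc_term_le (by linarith [(hRN j).1]) (hRN j).2.1 (hRN j).2.2 hr1
        (by simpa using (Metric.ball_subset_closedBall hw))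
  exact (h1.differentiableAt (Metric.isOpen_ball.mem_nhds (by simpa using hzr))).differentiableWithinAt

end lim

theorem tendsto_Psi {β : ℝ} {Lf : ℕ → ℂ → ℂ} {L : ℂ → ℂ} {z : ℂ}
    (h : Tendsto (fun n => Lf n z) atTop (𝓝 (L z))) :
    Tendsto (fun n => Psi β (Lf n) z) atTop (𝓝 (Psi β L z)) := by
  unfold Psi
  refine (continuous_exp.tendsto _).comp ?_
  refine (h.const_mul 2).sub (Tendsto.const_mul _ ?_)
  exact (continuous_conj.tendsto _).comp h

theorem norm_PP_le {Ψ : ℂ → ℂ} (hΨ : Integrable Ψ μD) {z : ℂ} (hz : ‖z‖ < 1) :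
    ‖PP Ψ z‖ ≤ ((1 - ‖z‖) ^ 2)⁻¹ * ∫ w, ‖Ψ w‖ ∂μD := by
  unfold PP
  refine (norm_integral_le_integral_norm _).trans ?_
  rw [← integral_const_mul]
  refine integral_mono_ae (integrable_mul_kernel hΨ hz).norm (hΨ.norm.const_mul _) ?_
  filter_upwards [ae_ball] with w hw
  rw [norm_mul, mul_comm]
  exact mul_le_mul_of_nonneg_right (norm_kernel_le hz hw) (norm_nonneg _)

theorem integral_norm_le_of_eLpNorm {f : ℂ → ℂ} (hf : AEStronglyMeasurable f μD) {q : ℝ≥0∞}
    (hq : 1 ≤ q) {K : ℝ} (hK : 0 ≤ K) (h : eLpNorm f q μD ≤ ENNReal.ofReal K) :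
    Integrable f μD ∧ ∫ w, ‖f w‖ ∂μD ≤ K := by
  have h1 : MemLp f q μD := ⟨hf, lt_of_le_of_lt h ENNReal.ofReal_lt_top⟩
  have h2 : eLpNorm f 1 μD ≤ ENNReal.ofReal K :=
    (eLpNorm_le_eLpNorm_of_exponent_le hq hf).trans h
  have hint : Integrable f μD := h1.integrable hq
  refine ⟨hint, ?_⟩
  rw [eLpNorm_one_eq_lintegral_enorm] at h2
  rw [integral_norm_eq_lintegral_enorm hf]
  exact ENNReal.toReal_le_of_le_ofReal hK h2

/-- Package of the properties of the limit. -/
theorem exists_limit {β : ℝ} (hβ0 : 0 ≤ β) {s q : ℝ} (hs : 1 ≤ s) (hq : 1 ≤ q)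
    (hβ : 2 - 1 / s < β) :
    ∃ (R : ℕ → ℝ) (N : ℕ → ℕ),
      (∀ n, 1 / 2 ≤ R n ∧ R n < 1 ∧ n + 1 ≤ N n) ∧
      MemLp (Psi β (Linf R N)) (ENNReal.ofReal q) μD ∧
      MemLp (PP (Psi β (Linf R N))) (ENNReal.ofReal q) μD ∧
      (∀ ρ : ℝ, 0 ≤ ρ → ρ < 1 → eLpNorm (fun θ => PP (Psi β (Linf R N)) (ρ * eit θ))
        (ENNReal.ofReal s) μT ≤ 3) ∧
      (∀ (P : ℝ≥0∞), 1 ≤ P → ENNReal.HolderTriple P (ENNReal.ofReal q) 1 → ∀ g : ℂ → ℂ, MemLp g P μD →
        DifferentiableOn ℂ g (Metric.ball 0 1) →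
        ∫ z, g z * conj (Psi β (Linf R N) z) ∂μD = ∫ z, g z * conj (PP (Psi β (Linf R N)) z) ∂μD) := by
  obtain ⟨R, N, Lf, hRN, hLf, hnice, hPsi, hPP, hcirc⟩ := exists_seq hβ0 hs hq hβ
  have hq1 : (1 : ℝ≥0∞) ≤ ENNReal.ofReal q := by
    rw [← ENNReal.ofReal_one]
    exact ENNReal.ofReal_le_ofReal hq
  have hs1 : (1 : ℝ≥0∞) ≤ ENNReal.ofReal s := by
    rw [← ENNReal.ofReal_one]
    exact ENNReal.ofReal_le_ofReal hs
  have haesm : ∀ n, AEStronglyMeasurable (Psi β (Lf n)) μD := by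
    intro n
    obtain ⟨ι, hι, c, x, y, hrep⟩ := hnice n
    exact hrep.aesm
  have hintn : ∀ n, Integrable (Psi β (Lf n)) μD := by
    intro n
    obtain ⟨ι, hι, c, x, y, hrep⟩ := hnice n
    exact hrep.integrable
  have hlimL : ∀ z, ‖z‖ < 1 → Tendsto (fun n => Lf n z) atTop (𝓝 (Linf R N z)) := by
    intro z hz
    simp_rw [hLf]
    exact tendsto_Lf hRN hz
  have hlimPsi : ∀ᵐ z ∂μD, Tendsto (fun n => Psi β (Lf n) z) atTop (𝓝 (Psi β (Linf R N) z)) := by
    filter_upwards [ae_ball] with z hz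
    exact tendsto_Psi (hlimL z hz)
  have hd1 := tele_lim hq1 haesm hPsi hlimPsi
  have haesm' : AEStronglyMeasurable (Psi β (Linf R N)) μD :=
    aestronglyMeasurable_of_tendsto_ae atTop haesm hlimPsi
  have hdiffi : ∀ n, Integrable (fun z => Psi β (Linf R N) z - Psi β (Lf n) z) μD ∧
      ∫ w, ‖Psi β (Linf R N) w - Psi β (Lf n) w‖ ∂μD ≤ 2 * (1 / 2) ^ n := by
    intro n
    exact integral_norm_le_of_eLpNorm (haesm'.sub (haesm n)) hq1 (by positivity) (hd1 n)
  have hint : Integrable (Psi β (Linf R N)) μD := by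
    have h1 := (hdiffi 0).1.add (hintn 0)
    refine h1.congr (ae_of_all _ fun z => ?_)
    simp
  have hgeo : Tendsto (fun n : ℕ => 2 * (1 / 2 : ℝ) ^ n) atTop (𝓝 0) := by
    have := (tendsto_pow_atTop_nhds_zero_of_lt_one (r := (1 / 2 : ℝ)) (by norm_num)
      (by norm_num)).const_mul 2
    rwa [mul_zero] at this
  -- convergence of the projections
  have hlimPP : ∀ z, ‖z‖ < 1 → Tendsto (fun n => PP (Psi β (Lf n)) z) atTop
      (𝓝 (PP (Psi β (Linf R N)) z)) := by
    intro z hz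
    rw [tendsto_iff_norm_sub_tendsto_zero]
    have h1 : ∀ n, ‖PP (Psi β (Lf n)) z - PP (Psi β (Linf R N)) z‖ ≤
        ((1 - ‖z‖) ^ 2)⁻¹ * (2 * (1 / 2) ^ n) := by
      intro n
      rw [norm_sub_rev, ← PP_sub hint (hintn n) hz]
      refine (norm_PP_le (hdiffi n).1 hz).trans ?_
      exact mul_le_mul_of_nonneg_left (hdiffi n).2 (by positivity)
    refine squeeze_zero (fun n => norm_nonneg _) h1 ?_
    have := hgeo.const_mul ((1 - ‖z‖) ^ 2)⁻¹
    rwa [mul_zero] at this
  have hPPaesm : ∀ n, AEStronglyMeasurable (PP (Psi β (Lf n))) μD := fun n => PP_aesm (hintn n)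
  have hd2 := tele_lim hq1 hPPaesm hPP (by
    filter_upwards [ae_ball] with z hz
    exact hlimPP z hz)
  -- the initial function
  have hL0 : Lf 0 = fun _ => 0 := by
    funext z
    rw [hLf]
    simp
  have hPsi0 : ∀ z, Psi β (Lf 0) z = 1 := by
    intro z
    rw [hL0]
    simp [Psi]
  have hrep0 : IsRep (Psi β (Lf 0)) (fun _ : Unit => (1 : ℂ)) (fun _ => 0) (fun _ => 0) := by
    refine ⟨Summable.of_finite, fun z _ => ?_⟩
    rw [hPsi0]
    simp
  have hPP0 : ∀ z, ‖z‖ < 1 → PP (Psi β (Lf 0)) z = 1 := by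
    intro z hz
    rw [PP_rep hrep0 hz]
    simp [lam]
  refine ⟨R, N, hRN, ?_, ?_, ?_, ?_⟩
  · refine ⟨haesm', ?_⟩
    have h1 : Psi β (Linf R N) = (fun z => Psi β (Linf R N) z - Psi β (Lf 0) z) + Psi β (Lf 0) := by
      funext z
      simp
    rw [h1]
    refine lt_of_le_of_lt (eLpNorm_add_le (haesm'.sub (haesm 0)) (haesm 0) hq1) ?_
    refine ENNReal.add_lt_top.2 ⟨lt_of_le_of_lt (hd1 0) ENNReal.ofReal_lt_top, ?_⟩
    obtain ⟨ι, hι, c, x, y, hrep⟩ := hnice 0
    refine (MemLp.of_bound (haesm 0) (∑' i, ‖c i‖) ?_).2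
    filter_upwards [ae_ball] with z hz
    exact hrep.bound hz.le
  · refine ⟨PP_aesm hint, ?_⟩
    have h1 : PP (Psi β (Linf R N)) =
        (fun z => PP (Psi β (Linf R N)) z - PP (Psi β (Lf 0)) z) + PP (Psi β (Lf 0)) := by
      funext z
      simp
    rw [h1]
    refine lt_of_le_of_lt (eLpNorm_add_le ((PP_aesm hint).sub (hPPaesm 0)) (hPPaesm 0) hq1) ?_
    refine ENNReal.add_lt_top.2 ⟨lt_of_le_of_lt (hd2 0) ENNReal.ofReal_lt_top, ?_⟩
    refine (MemLp.of_bound (hPPaesm 0) 1 ?_).2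
    filter_upwards [ae_ball] with z hz
    rw [hPP0 z hz]
    simp
  · intro ρ hρ0 hρ1
    have hzz : ∀ θ, ‖(ρ : ℂ) * eit θ‖ < 1 := by
      intro θ
      rw [norm_mul, norm_eit, mul_one, Complex.norm_real, Real.norm_of_nonneg hρ0]
      exact hρ1
    have hm : ∀ n, AEStronglyMeasurable (fun θ => PP (Psi β (Lf n)) (ρ * eit θ)) μT := fun n =>
      (circle_continuous (PP_diff (hintn n)).continuousOn hρ0 hρ1).aestronglyMeasurable
    have hm' : AEStronglyMeasurable (fun θ => PP (Psi β (Linf R N)) (ρ * eit θ)) μT :=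
      (circle_continuous (PP_diff hint).continuousOn hρ0 hρ1).aestronglyMeasurable
    have hd3 := tele_lim (f := fun n θ => PP (Psi β (Lf n)) (ρ * eit θ))
      (g := fun θ => PP (Psi β (Linf R N)) (ρ * eit θ)) hs1 hm (fun n => hcirc n ρ hρ0 hρ1)
      (ae_of_all _ fun θ => hlimPP _ (hzz θ)) 0
    have h1 : (fun θ => PP (Psi β (Linf R N)) (ρ * eit θ)) =
        (fun θ => PP (Psi β (Linf R N)) (ρ * eit θ) - PP (Psi β (Lf 0)) (ρ * eit θ)) +
          (fun θ => PP (Psi β (Lf 0)) (ρ * eit θ)) := by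
      funext θ
      simp
    rw [h1]
    refine (eLpNorm_add_le (hm'.sub (hm 0)) (hm 0) hs1).trans ?_
    have h3 : eLpNorm (fun θ => PP (Psi β (Lf 0)) (ρ * eit θ)) (ENNReal.ofReal s) μT ≤ 1 := by
      have h2 : (fun θ => PP (Psi β (Lf 0)) (ρ * eit θ)) = fun _ => (1 : ℂ) := by
        funext θ
        exact hPP0 _ (hzz θ)
      rw [h2]
      rw [eLpNorm_const' _ (by
        intro h0
        rw [h0] at hs1
        simp at hs1) ENNReal.ofReal_ne_top, measure_univ, ENNReal.one_rpow, mul_one]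
      simp
    refine (add_le_add hd3 h3).trans ?_
    rw [pow_zero, mul_one]
    have : ENNReal.ofReal 2 = 2 := by simp
    rw [this]
    norm_num
  · intro P hP1 hP g hg hgd
    have hser : ∀ z, ‖z‖ < 1 → HasSum (fun n : ℕ => ((n.factorial : ℂ)⁻¹ *
        iteratedDeriv n g 0) * z ^ n) (g z) := by
      intro z hz
      have h2 := Complex.hasSum_taylorSeries_on_ball hgd (z := z) (by simpa using hz)
      refine h2.congr_fun ?_
      intro n
      simp only [smul_eq_mul, sub_zero]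
      ring
    have hgi : Integrable g μD := hg.integrable hP1
    have hdual : ∀ n, ∫ z, g z * conj (Psi β (Lf n) z) ∂μD =
        ∫ z, g z * conj (PP (Psi β (Lf n)) z) ∂μD := by
      intro n
      obtain ⟨ι, hι, c, x, y, hrep⟩ := hnice n
      exact duality hrep hgi hser
    -- general convergence
    have hconv : ∀ (f : ℕ → ℂ → ℂ) (f' : ℂ → ℂ), (∀ n, AEStronglyMeasurable (f n) μD) →
        AEStronglyMeasurable f' μD → (∀ n, MemLp (f n) (ENNReal.ofReal q) μD) →
        (∀ n, eLpNorm (fun z => f' z - f n z) (ENNReal.ofReal q) μD ≤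
          ENNReal.ofReal (2 * (1 / 2) ^ n)) →
        Tendsto (fun n => ∫ z, g z * conj (f n z) ∂μD) atTop (𝓝 (∫ z, g z * conj (f' z) ∂μD)) := by
      intro f f' hfm hfm' hmem hd
      have hmemd : ∀ n, MemLp (fun z => f' z - f n z) (ENNReal.ofReal q) μD := fun n =>
        ⟨hfm'.sub (hfm n), lt_of_le_of_lt (hd n) ENNReal.ofReal_lt_top⟩
      have hcm : ∀ {h : ℂ → ℂ}, MemLp h (ENNReal.ofReal q) μD →
          MemLp (fun z => conj (h z)) (ENNReal.ofReal q) μD := by
        intro h hh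
        refine ⟨continuous_conj.comp_aestronglyMeasurable hh.1, ?_⟩
        have : eLpNorm (fun z => conj (h z)) (ENNReal.ofReal q) μD =
            eLpNorm h (ENNReal.ofReal q) μD := by
          refine eLpNorm_congr_norm_ae (ae_of_all _ fun z => ?_)
          exact RCLike.norm_conj _
        rw [this]
        exact hh.2
      have hprod : ∀ {h : ℂ → ℂ}, MemLp h (ENNReal.ofReal q) μD →
          Integrable (fun z => g z * conj (h z)) μD := by
        intro h hh
        have h1 := (hcm hh).mul' hg (r := 1)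
        rw [memLp_one_iff_integrable] at h1
        exact h1
      rw [tendsto_iff_norm_sub_tendsto_zero]
      have hmem' : MemLp f' (ENNReal.ofReal q) μD := by
        have h1 := (hmemd 0).add (hmem 0)
        refine h1.ae_eq (ae_of_all _ fun z => ?_)
        simp
      have hb : ∀ n, ‖∫ z, g z * conj (f n z) ∂μD - ∫ z, g z * conj (f' z) ∂μD‖ ≤
          (eLpNorm g P μD).toReal * (2 * (1 / 2) ^ n) := by
        intro n
        rw [norm_sub_rev, ← integral_sub (hprod hmem') (hprod (hmem n))]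
        have h1 : ∀ z, g z * conj (f' z) - g z * conj (f n z) = g z * conj (f' z - f n z) := by
          intro z
          rw [map_sub]
          ring
        simp_rw [h1]
        refine (norm_integral_le_integral_norm _).trans ?_
        rw [integral_norm_eq_lintegral_enorm (hprod (hmemd n)).aestronglyMeasurable,
          ← eLpNorm_one_eq_lintegral_enorm]
        have h2 : eLpNorm (fun z => g z * conj (f' z - f n z)) 1 μD ≤
            eLpNorm g P μD * eLpNorm (fun z => conj (f' z - f n z)) (ENNReal.ofReal q) μD := by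
          have := eLpNorm_smul_le_mul_eLpNorm (p := P) (q := ENNReal.ofReal q) (r := 1)
            (hcm (hmemd n)).1 hg.1
          exact this
        have h3 : eLpNorm (fun z => conj (f' z - f n z)) (ENNReal.ofReal q) μD =
            eLpNorm (fun z => f' z - f n z) (ENNReal.ofReal q) μD := by
          refine eLpNorm_congr_norm_ae (ae_of_all _ fun z => ?_)
          exact RCLike.norm_conj _
        rw [h3] at h2
        have h4 : eLpNorm (fun z => g z * conj (f' z - f n z)) 1 μD ≤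
            eLpNorm g P μD * ENNReal.ofReal (2 * (1 / 2) ^ n) :=
          h2.trans (mul_le_mul_right (hd n) _)
        have h5 := ENNReal.toReal_mono (ENNReal.mul_ne_top hg.2.ne ENNReal.ofReal_ne_top) h4
        rwa [ENNReal.toReal_mul, ENNReal.toReal_ofReal (by positivity)] at h5
      refine squeeze_zero (fun n => norm_nonneg _) hb ?_
      have := hgeo.const_mul (eLpNorm g P μD).toReal
      rwa [mul_zero] at this
    have hmemn : ∀ n, MemLp (Psi β (Lf n)) (ENNReal.ofReal q) μD := by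
      intro n
      obtain ⟨ι, hι, c, x, y, hrep⟩ := hnice n
      refine MemLp.of_bound (haesm n) (∑' i, ‖c i‖) ?_
      filter_upwards [ae_ball] with z hz
      exact hrep.bound hz.le
    have hmemPn : ∀ n, MemLp (PP (Psi β (Lf n))) (ENNReal.ofReal q) μD := by
      intro n
      obtain ⟨ι, hι, c, x, y, hrep⟩ := hnice n
      refine MemLp.of_bound (hPPaesm n) (∑' i, ‖c i‖) ?_
      filter_upwards [ae_ball] with z hz
      rw [PP_rep hrep hz]
      refine tsum_of_norm_bounded hrep.sum.hasSum ?_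
      intro i
      rw [norm_mul, norm_mul, Complex.norm_real, Real.norm_of_nonneg (lam_nonneg _ _), norm_pow]
      refine mul_le_of_le_one_right (norm_nonneg _) ?_
      exact mul_le_one₀ (lam_le_one _ _) (by positivity) (pow_le_one₀ (norm_nonneg _) hz.le)
    have hc1 := hconv (fun n => Psi β (Lf n)) (Psi β (Linf R N)) haesm haesm' hmemn hd1
    have hc2 := hconv (fun n => PP (Psi β (Lf n))) (PP (Psi β (Linf R N))) hPPaesm (PP_aesm hint)
      hmemPn hd2
    simp_rw [hdual] at hc1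
    exact tendsto_nhds_unique hc1 hc2

end Pool.Agent.Lib.BergExt
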