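import Pool.Agent.Lib.BergExt.Block

/-!
# Norm estimates used in the inductive step
-/

set_option autoImplicit false

open MeasureTheory Complex Filter Topology
open scoped ComplexConjugate ENNReal

namespace Pool.Agent.Lib.BergExt

section gen

variable {α : Type*} [MeasurableSpace α] {μ : Measure α}

theorem eLpNorm_le_of_int {s : ℝ} (hs : 1 ≤ s) {h : α → ℝ} (h0 : ∀ x, 0 ≤ h x)
    (hint : Integrable (fun x => h x ^ s) μ) {K : ℝ} (hK : ∫ x, h x ^ s ∂μ ≤ K) :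
    eLpNorm h (ENNReal.ofReal s) μ ≤ ENNReal.ofReal (K ^ (1 / s)) := by
  have hs0 : 0 < s := by linarith
  have hne : ENNReal.ofReal s ≠ 0 := by simpa using hs0
  rw [eLpNorm_eq_lintegral_rpow_enorm_toReal hne ENNReal.ofReal_ne_top,
    ENNReal.toReal_ofReal hs0.le]
  have h1 : ∀ x, ‖h x‖ₑ ^ s = ENNReal.ofReal (h x ^ s) := by
    intro x
    rw [Real.enorm_eq_ofReal (h0 x), ENNReal.ofReal_rpow_of_nonneg (h0 x) hs0.le]
  simp_rw [h1]
  rw [← ofReal_integral_eq_lintegral_ofReal hint (ae_of_all _ fun x => Real.rpow_nonneg (h0 x) _)]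
  have h2 : 0 ≤ ∫ x, h x ^ s ∂μ := integral_nonneg fun x => Real.rpow_nonneg (h0 x) _
  rw [ENNReal.ofReal_rpow_of_nonneg h2 (by positivity)]
  exact ENNReal.ofReal_le_ofReal (Real.rpow_le_rpow h2 hK (by positivity))

theorem eLpNorm_le_affine [IsProbabilityMeasure μ] {s : ℝ} (hs : 1 ≤ s) {f : α → ℂ} {h : α → ℝ}
    (hm : AEStronglyMeasurable h μ) {A e H : ℝ} (hA : 0 ≤ A) (he : 0 ≤ e) (hH : 0 ≤ H)
    (hb : ∀ᵐ x ∂μ, ‖f x‖ ≤ A * h x + e) (hn : eLpNorm h (ENNReal.ofReal s) μ ≤ ENNReal.ofReal H) :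
    eLpNorm f (ENNReal.ofReal s) μ ≤ ENNReal.ofReal (A * H + e) := by
  have hs1 : (1 : ℝ≥0∞) ≤ ENNReal.ofReal s := by
    rw [← ENNReal.ofReal_one]
    exact ENNReal.ofReal_le_ofReal hs
  have hne : ENNReal.ofReal s ≠ 0 := by
    intro h0
    rw [h0] at hs1
    simp at hs1
  refine (eLpNorm_mono_ae_real hb).trans ?_
  have h1 : (fun x => A * h x + e) = (A • h) + (fun _ => e) := by
    funext x
    simp
  rw [h1]
  refine (eLpNorm_add_le (hm.const_smul A) aestronglyMeasurable_const hs1).trans ?_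
  rw [eLpNorm_const_smul, eLpNorm_const' _ hne ENNReal.ofReal_ne_top, measure_univ, ENNReal.one_rpow,
    mul_one, Real.enorm_eq_ofReal hA, Real.enorm_eq_ofReal he, ENNReal.ofReal_add (by positivity) he,
    ENNReal.ofReal_mul hA]
  gcongr

end gen

theorem int_norm_pow (n : ℕ) : ∫ z : ℂ, ‖z‖ ^ (2 * n) ∂μD = 1 / ((n : ℝ) + 1) := by
  simp_rw [pow_mul]
  exact radial_moment n

theorem eLpNorm_pow {s : ℝ} (hs : 1 ≤ s) (N : ℕ) :
    eLpNorm (fun z : ℂ => ‖z‖ ^ N) (ENNReal.ofReal s) μD ≤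
      ENNReal.ofReal ((1 / (((N / 2 : ℕ) : ℝ) + 1)) ^ (1 / s)) := by
  have hm : Measurable (fun z : ℂ => ‖z‖ ^ N) := by fun_prop
  have hint2 : Integrable (fun z : ℂ => ‖z‖ ^ (2 * (N / 2))) μD := by
    refine Integrable.of_bound (C := 1) ?_ ?_
    · exact Measurable.aestronglyMeasurable (by fun_prop)
    · filter_upwards [ae_ball] with z hz
      rw [norm_pow, norm_norm]
      exact pow_le_one₀ (norm_nonneg _) hz.le
  have hint : Integrable (fun z : ℂ => (‖z‖ ^ N) ^ s) μD := by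
    refine Integrable.of_bound (C := 1) ?_ ?_
    · exact (hm.pow_const s).aestronglyMeasurable
    · filter_upwards [ae_ball] with z hz
      rw [Real.norm_of_nonneg (by positivity)]
      exact Real.rpow_le_one (by positivity) (pow_le_one₀ (norm_nonneg _) hz.le) (by linarith)
  refine eLpNorm_le_of_int hs (fun z => by positivity) hint ?_
  rw [← int_norm_pow]
  refine integral_mono_ae hint hint2 ?_
  filter_upwards [ae_ball] with z hz
  have h1 : ‖z‖ ^ N ≤ 1 := pow_le_one₀ (norm_nonneg _) hz.le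
  calc (‖z‖ ^ N) ^ s ≤ (‖z‖ ^ N) ^ (1 : ℝ) :=
        Real.rpow_le_rpow_of_exponent_ge' (by positivity) h1 zero_le_one hs
    _ = ‖z‖ ^ N := Real.rpow_one _
    _ ≤ ‖z‖ ^ (2 * (N / 2)) := pow_le_pow_of_le_one (norm_nonneg _) hz.le (by omega)

theorem tendsto_pow_bound {s : ℝ} (hs : 1 ≤ s) :
    Tendsto (fun N : ℕ => (1 / (((N / 2 : ℕ) : ℝ) + 1)) ^ (1 / s)) atTop (𝓝 0) := by
  have h1 : Tendsto (fun N : ℕ => ((N / 2 : ℕ) : ℝ) + 1) atTop atTop := by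
    refine tendsto_atTop_add_const_right _ _ ?_
    exact tendsto_natCast_atTop_atTop.comp (Nat.tendsto_div_const_atTop (by norm_num))
  have h2 : Tendsto (fun N : ℕ => 1 / (((N / 2 : ℕ) : ℝ) + 1)) atTop (𝓝 0) :=
    tendsto_const_nhds.div_atTop h1
  have h3 := h2.rpow_const (p := 1 / s) (Or.inr (by positivity))
  rwa [Real.zero_rpow (by positivity)] at h3

/-- The mean of the Poisson-type kernel. -/
theorem int_poisson {R : ℝ} (h0 : 0 ≤ R) (h1 : R < 1) {N : ℕ} (hN : 1 ≤ N) {ρ : ℝ} (hρ0 : 0 ≤ ρ)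
    (hρ1 : ρ < 1) :
    ∫ θ, (‖1 - (R : ℂ) * ((ρ : ℂ) * eit θ) ^ N‖ ^ 2)⁻¹ ∂μT ≤ (1 - R)⁻¹ := by
  have hb : ∀ z : ℂ, ‖z‖ < 1 → ‖(R : ℂ) * z ^ N‖ < 1 := by
    intro z hz
    rw [norm_mul, Complex.norm_real, Real.norm_of_nonneg h0, norm_pow]
    have : ‖z‖ ^ N ≤ 1 := pow_le_one₀ (norm_nonneg _) hz.le
    nlinarith
  have hdiff : DifferentiableOn ℂ (fun z : ℂ => cay (R * z ^ N)) (Metric.ball 0 1) := by
    intro z hz
    have hz' : ‖z‖ < 1 := by simpa using hz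
    have := one_sub_ne (hb z hz')
    unfold cay
    refine DifferentiableAt.differentiableWithinAt ?_
    fun_prop (disch := assumption)
  have hser : ∀ z, ‖z‖ < 1 → HasSum (fun n : ℕ => ((n.factorial : ℂ)⁻¹ *
      iteratedDeriv n (fun z : ℂ => cay (R * z ^ N)) 0) * z ^ n) (cay (R * z ^ N)) := by
    intro z hz
    have h2 := Complex.hasSum_taylorSeries_on_ball hdiff (z := z) (by simpa using hz)
    refine h2.congr_fun ?_
    intro n
    simp only [smul_eq_mul, sub_zero]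
    ring
  have hρ : ‖(ρ : ℂ)‖ < 1 := by
    rw [Complex.norm_real, Real.norm_of_nonneg hρ0]
    exact hρ1
  have hcirc := circle_coef hser 0 0 hρ
  simp only [pow_zero, mul_one, le_refl, if_true, Nat.sub_self, Nat.factorial_zero, Nat.cast_one,
    inv_one, one_mul, iteratedDeriv_zero] at hcirc
  have hzero : cay (R * (0 : ℂ) ^ N) = 1 := by
    rw [zero_pow (by omega), mul_zero]
    simp [cay]
  rw [hzero] at hcirc
  -- continuity of the integrand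
  have hz : ∀ θ, ‖(ρ : ℂ) * eit θ‖ < 1 := by
    intro θ
    rw [norm_mul, norm_eit, mul_one]
    exact hρ
  have hne : ∀ θ, 1 - (R : ℂ) * ((ρ : ℂ) * eit θ) ^ N ≠ 0 := fun θ => one_sub_ne (hb _ (hz θ))
  have hce := continuous_eit
  have hcont : Continuous (fun θ => cay (R * (eit θ * (ρ : ℂ)) ^ N)) := by
    unfold cay
    refine Continuous.div (by fun_prop) (by fun_prop) ?_
    intro θ
    have := hne θ
    rwa [mul_comm (ρ : ℂ)] at this
  have hint : Integrable (fun θ => cay (R * (eit θ * (ρ : ℂ)) ^ N)) μT := by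
    unfold μT
    refine Integrable.smul_measure ?_ (ENNReal.inv_ne_top.2 ofReal_two_pi_ne_zero)
    exact (hcont.integrableOn_Icc).mono_set Set.Ioc_subset_Icc_self
  have hre : ∫ θ, (cay (R * (eit θ * (ρ : ℂ)) ^ N)).re ∂μT = 1 := by
    have h2 := integral_re hint
    have h3 : ∫ θ, (cay (R * (eit θ * (ρ : ℂ)) ^ N)).re ∂μT =
        (∫ θ, cay (R * (eit θ * (ρ : ℂ)) ^ N) ∂μT).re := h2
    rw [h3, hcirc]
    simp
  set a : ℝ := R * ρ ^ N with ha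
  have ha0 : 0 ≤ a := by positivity
  have haR : a ≤ R := mul_le_of_le_one_right h0 (pow_le_one₀ hρ0 hρ1.le)
  have hval : ∀ θ, (cay (R * (eit θ * (ρ : ℂ)) ^ N)).re =
      (1 - a ^ 2) * (‖1 - (R : ℂ) * ((ρ : ℂ) * eit θ) ^ N‖ ^ 2)⁻¹ := by
    intro θ
    set t : ℂ := (R : ℂ) * ((ρ : ℂ) * eit θ) ^ N with ht
    have ht' : (R : ℂ) * (eit θ * (ρ : ℂ)) ^ N = t := by
      rw [ht, mul_comm (ρ : ℂ)]
    have htn : ‖t‖ = a := by
      rw [ht, norm_mul, norm_pow, norm_mul, norm_eit, Complex.norm_real, Complex.norm_real,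
        Real.norm_of_nonneg h0, Real.norm_of_nonneg hρ0, mul_one]
    have htsq : t.re ^ 2 + t.im ^ 2 = a ^ 2 := by
      rw [← htn, ← normSq_eq_norm_sq, normSq_apply]
      ring
    rw [ht']
    unfold cay
    rw [div_re, ← add_div, ← normSq_eq_norm_sq, div_eq_mul_inv]
    congr 1
    simp only [add_re, one_re, sub_re, add_im, one_im, zero_add, sub_im, zero_sub]
    linarith
  simp_rw [hval] at hre
  rw [integral_const_mul] at hre
  have hpos : 0 < 1 - a ^ 2 := by nlinarith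
  have hI : ∫ θ, (‖1 - (R : ℂ) * ((ρ : ℂ) * eit θ) ^ N‖ ^ 2)⁻¹ ∂μT = (1 - a ^ 2)⁻¹ := by
    field_simp at hre ⊢
    linarith
  rw [hI]
  exact inv_anti₀ (by linarith) (by nlinarith)

theorem eLpNorm_poisson {s : ℝ} (hs : 1 ≤ s) {R : ℝ} (h0 : 0 ≤ R) (h1 : R < 1) {N : ℕ}
    (hN : 1 ≤ N) {ρ : ℝ} (hρ0 : 0 ≤ ρ) (hρ1 : ρ < 1) :
    eLpNorm (fun θ => (‖1 - (R : ℂ) * ((ρ : ℂ) * eit θ) ^ N‖ ^ 2)⁻¹) (ENNReal.ofReal s) μT ≤
      ENNReal.ofReal ((1 - R) ^ (-2 + 1 / s)) := by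
  have hR : 0 < 1 - R := by linarith
  have hlow : ∀ θ, 1 - R ≤ ‖1 - (R : ℂ) * ((ρ : ℂ) * eit θ) ^ N‖ := by
    intro θ
    have h2 := norm_sub_norm_le (1 : ℂ) ((R : ℂ) * ((ρ : ℂ) * eit θ) ^ N)
    have h3 : ‖(R : ℂ) * ((ρ : ℂ) * eit θ) ^ N‖ ≤ R := by
      rw [norm_mul, norm_pow, norm_mul, norm_eit, Complex.norm_real, Complex.norm_real,
        Real.norm_of_nonneg h0, Real.norm_of_nonneg hρ0, mul_one]
      exact mul_le_of_le_one_right h0 (pow_le_one₀ hρ0 hρ1.le)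
    rw [norm_one] at h2
    linarith
  have hce := continuous_eit
  have hcont : Continuous (fun θ => (‖1 - (R : ℂ) * ((ρ : ℂ) * eit θ) ^ N‖ ^ 2)⁻¹) := by
    refine Continuous.inv₀ (by fun_prop) ?_
    intro θ
    have := hlow θ
    have h2 : 0 < ‖1 - (R : ℂ) * ((ρ : ℂ) * eit θ) ^ N‖ := by linarith
    positivity
  have hup : ∀ θ, (‖1 - (R : ℂ) * ((ρ : ℂ) * eit θ) ^ N‖ ^ 2)⁻¹ ≤ ((1 - R) ^ 2)⁻¹ := by
    intro θ
    have := hlow θ
    exact inv_anti₀ (by positivity) (by gcongr)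
  have hnn : ∀ θ, 0 ≤ (‖1 - (R : ℂ) * ((ρ : ℂ) * eit θ) ^ N‖ ^ 2)⁻¹ := fun θ => by positivity
  have hint1 : Integrable (fun θ => (‖1 - (R : ℂ) * ((ρ : ℂ) * eit θ) ^ N‖ ^ 2)⁻¹) μT := by
    refine Integrable.of_bound (C := ((1 - R) ^ 2)⁻¹) hcont.aestronglyMeasurable
      (ae_of_all _ fun θ => ?_)
    rw [Real.norm_of_nonneg (hnn θ)]
    exact hup θ
  have hints : Integrable (fun θ => ((‖1 - (R : ℂ) * ((ρ : ℂ) * eit θ) ^ N‖ ^ 2)⁻¹) ^ s) μT := by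
    refine Integrable.of_bound (C := (((1 - R) ^ 2)⁻¹) ^ s)
      (hcont.measurable.pow_const s).aestronglyMeasurable (ae_of_all _ fun θ => ?_)
    rw [Real.norm_of_nonneg (Real.rpow_nonneg (hnn θ) _)]
    exact Real.rpow_le_rpow (hnn θ) (hup θ) (by linarith)
  refine (eLpNorm_le_of_int hs hnn hints (K := (((1 - R) ^ 2)⁻¹) ^ (s - 1) * (1 - R)⁻¹) ?_).trans ?_
  · calc ∫ θ, ((‖1 - (R : ℂ) * ((ρ : ℂ) * eit θ) ^ N‖ ^ 2)⁻¹) ^ s ∂μT
        ≤ ∫ θ, (((1 - R) ^ 2)⁻¹) ^ (s - 1) * (‖1 - (R : ℂ) * ((ρ : ℂ) * eit θ) ^ N‖ ^ 2)⁻¹ ∂μT := by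
          refine integral_mono hints (hint1.const_mul _) ?_
          intro θ
          simp only
          have hpos : 0 < (‖1 - (R : ℂ) * ((ρ : ℂ) * eit θ) ^ N‖ ^ 2)⁻¹ := by
            have := hlow θ
            have h2 : 0 < ‖1 - (R : ℂ) * ((ρ : ℂ) * eit θ) ^ N‖ := by linarith
            positivity
          have h2 : ((‖1 - (R : ℂ) * ((ρ : ℂ) * eit θ) ^ N‖ ^ 2)⁻¹) ^ s =
              ((‖1 - (R : ℂ) * ((ρ : ℂ) * eit θ) ^ N‖ ^ 2)⁻¹) ^ (s - 1) *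
                (‖1 - (R : ℂ) * ((ρ : ℂ) * eit θ) ^ N‖ ^ 2)⁻¹ := by
            rw [← Real.rpow_add_one hpos.ne']
            congr 1
            ring
          rw [h2]
          exact mul_le_mul_of_nonneg_right (Real.rpow_le_rpow hpos.le (hup θ) (by linarith)) hpos.le
      _ = (((1 - R) ^ 2)⁻¹) ^ (s - 1) *
          ∫ θ, (‖1 - (R : ℂ) * ((ρ : ℂ) * eit θ) ^ N‖ ^ 2)⁻¹ ∂μT := integral_const_mul _ _
      _ ≤ (((1 - R) ^ 2)⁻¹) ^ (s - 1) * (1 - R)⁻¹ :=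
          mul_le_mul_of_nonneg_left (int_poisson h0 h1 hN hρ0 hρ1) (by positivity)
  · apply ENNReal.ofReal_le_ofReal
    have hs0 : 0 < s := by linarith
    have h2 : (((1 - R) ^ 2)⁻¹) ^ (s - 1) * (1 - R)⁻¹ = (1 - R) ^ (-2 * (s - 1) - 1) := by
      rw [← Real.rpow_natCast, ← Real.rpow_neg hR.le, ← Real.rpow_mul hR.le, ← Real.rpow_neg_one,
        ← Real.rpow_add hR]
      congr 1
    rw [h2, ← Real.rpow_mul hR.le]
    apply le_of_eq
    congr 1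
    field_simp
    ring

end Pool.Agent.Lib.BergExt
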