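import Pool.Agent.Lib.BergExt.Basic

/-!
# The Bergman projection on absolutely convergent series of monomials
-/

set_option autoImplicit false

open MeasureTheory Complex Filter Topology
open scoped ComplexConjugate

namespace Pool.Agent.Lib.BergExt

/-- The coefficient of the Bergman projection of `z ^ x * conj z ^ y`. -/
noncomputable def lam (x y : ℕ) : ℝ := if y ≤ x then ((x : ℝ) - y + 1) / (x + 1) else 0

theorem lam_nonneg (x y : ℕ) : 0 ≤ lam x y := by
  unfold lam
  split_ifs with h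
  · have : (y : ℝ) ≤ x := by exact_mod_cast h
    exact div_nonneg (by linarith) (by positivity)
  · exact le_rfl

theorem lam_le_one (x y : ℕ) : lam x y ≤ 1 := by
  unfold lam
  split_ifs with h
  · have : (0 : ℝ) ≤ y := Nat.cast_nonneg y
    rw [div_le_one (by positivity)]
    linarith
  · exact zero_le_one

/-- `Ψ` is the sum of an absolutely convergent series of monomials `z ^ x * conj z ^ y` on the
closed disc. -/
structure IsRep {ι : Type} (Ψ : ℂ → ℂ) (c : ι → ℂ) (x y : ι → ℕ) : Prop where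
  sum : Summable (fun i => ‖c i‖)
  eq : ∀ z, ‖z‖ ≤ 1 → Ψ z = ∑' i, c i * (z ^ x i * conj z ^ y i)

theorem norm_mono_le {z : ℂ} (hz : ‖z‖ ≤ 1) (x y : ℕ) : ‖z ^ x * conj z ^ y‖ ≤ 1 := by
  rw [norm_mul, norm_pow, norm_pow, RCLike.norm_conj]
  exact mul_le_one₀ (pow_le_one₀ (norm_nonneg _) hz) (by positivity)
    (pow_le_one₀ (norm_nonneg _) hz)

theorem IsRep.summable {ι : Type} {Ψ : ℂ → ℂ} {c : ι → ℂ} {x y : ι → ℕ} (h : IsRep Ψ c x y)
    {z : ℂ} (hz : ‖z‖ ≤ 1) : Summable (fun i => ‖c i * (z ^ x i * conj z ^ y i)‖) := by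
  refine Summable.of_nonneg_of_le (fun i => norm_nonneg _) (fun i => ?_) h.sum
  rw [norm_mul]
  exact mul_le_of_le_one_right (norm_nonneg _) (norm_mono_le hz _ _)

theorem IsRep.bound {ι : Type} {Ψ : ℂ → ℂ} {c : ι → ℂ} {x y : ι → ℕ} (h : IsRep Ψ c x y)
    {z : ℂ} (hz : ‖z‖ ≤ 1) : ‖Ψ z‖ ≤ ∑' i, ‖c i‖ := by
  rw [h.eq z hz]
  refine (norm_tsum_le_tsum_norm (h.summable hz)).trans ?_
  refine (h.summable hz).tsum_le_tsum (fun i => ?_) h.sum
  rw [norm_mul]
  exact mul_le_of_le_one_right (norm_nonneg _) (norm_mono_le hz _ _)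

/-- The Bergman projection, as an integral operator. -/
noncomputable def PP (Ψ : ℂ → ℂ) (z : ℂ) : ℂ := ∫ w, Ψ w * ((1 - z * conj w) ^ 2)⁻¹ ∂μD

/-- Termwise integration against an integrable function. -/
theorem integral_mul_tsum {ι : Type} [Countable ι] {g : ℂ → ℂ} (hg : Integrable g μD)
    {c : ι → ℂ} (hc : Summable (fun i => ‖c i‖)) {m : ι → ℂ → ℂ} (hm : ∀ i, Continuous (m i))
    (hb : ∀ i z, ‖z‖ ≤ 1 → ‖m i z‖ ≤ 1) :
    ∫ z, g z * (∑' i, c i * m i z) ∂μD = ∑' i, c i * ∫ z, g z * m i z ∂μD := by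
  have hint : ∀ i, Integrable (fun z => g z * (c i * m i z)) μD := by
    intro i
    refine hg.mul_bdd (c := ‖c i‖) ?_ ?_
    · exact (continuous_const.mul (hm i)).aestronglyMeasurable
    · filter_upwards [ae_ball] with z hz
      rw [norm_mul]
      exact mul_le_of_le_one_right (norm_nonneg _) (hb i z hz.le)
  have hsum : Summable (fun i => ∫ z, ‖g z * (c i * m i z)‖ ∂μD) := by
    refine Summable.of_nonneg_of_le (fun i => integral_nonneg fun z => norm_nonneg _) (fun i => ?_)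
      (hc.mul_right (∫ z, ‖g z‖ ∂μD))
    rw [← integral_const_mul]
    refine integral_mono_ae (hint i).norm (hg.norm.const_mul _) ?_
    filter_upwards [ae_ball] with z hz
    rw [norm_mul, norm_mul, mul_comm]
    refine mul_le_mul_of_nonneg_right ?_ (norm_nonneg _)
    exact mul_le_of_le_one_right (norm_nonneg _) (hb i z hz.le)
  have h1 : ∀ z, g z * (∑' i, c i * m i z) = ∑' i, g z * (c i * m i z) := fun z =>
    tsum_mul_left.symm
  simp_rw [h1]
  rw [← integral_tsum_of_summable_integral_norm hint hsum]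
  congr 1
  ext i
  rw [← integral_const_mul]
  congr 1
  ext z
  ring

theorem hasSum_kernel {z w : ℂ} (hz : ‖z‖ < 1) (hw : ‖w‖ < 1) :
    HasSum (fun m : ℕ => (((m : ℂ) + 1) * conj z ^ m) * w ^ m) (((1 - conj z * w) ^ 2)⁻¹) := by
  have h1 : ‖conj z * w‖ < 1 := by
    rw [norm_mul, RCLike.norm_conj]
    exact mul_lt_one_of_nonneg_of_lt_one_left (norm_nonneg _) hz hw.le
  have h2 := hasSum_choose_mul_geometric_of_norm_lt_one 1 h1
  have h3 : ((1 - conj z * w) ^ 2)⁻¹ = 1 / (1 - conj z * w) ^ (1 + 1) := by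
    rw [one_div]
  rw [h3]
  refine h2.congr_fun ?_
  intro m
  simp only [Nat.choose_one_right]
  push_cast
  rw [mul_pow]
  ring

theorem integrable_kernel {z : ℂ} (hz : ‖z‖ < 1) :
    Integrable (fun w => ((1 - conj z * w) ^ 2)⁻¹) μD := by
  have h0 : 0 < 1 - ‖z‖ := by linarith
  refine Integrable.of_bound (C := ((1 - ‖z‖) ^ 2)⁻¹) ?_ ?_
  · refine Measurable.aestronglyMeasurable ?_
    fun_prop
  · filter_upwards [ae_ball] with w hw
    rw [norm_inv, norm_pow]
    have h1 : 1 - ‖z‖ ≤ ‖1 - conj z * w‖ := by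
      have h2 := norm_sub_norm_le (1 : ℂ) (conj z * w)
      rw [norm_one, norm_mul, RCLike.norm_conj] at h2
      have h3 : ‖z‖ * ‖w‖ ≤ ‖z‖ := mul_le_of_le_one_right (norm_nonneg _) hw.le
      linarith
    exact inv_anti₀ (by positivity) (by gcongr)

theorem kernel_moment {z : ℂ} (hz : ‖z‖ < 1) (x y : ℕ) :
    ∫ w, ((1 - z * conj w) ^ 2)⁻¹ * (w ^ x * conj w ^ y) ∂μD = lam x y * z ^ (x - y) := by
  have h1 := moment (integrable_kernel hz) (a := fun m : ℕ => ((m : ℂ) + 1) * conj z ^ m)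
    (fun w hw => hasSum_kernel hz hw) x y
  have h2 := congrArg conj h1
  rw [← integral_conj] at h2
  have h3 : ∀ w, conj (((1 - conj z * w) ^ 2)⁻¹ * (w ^ y * conj w ^ x)) =
      ((1 - z * conj w) ^ 2)⁻¹ * (w ^ x * conj w ^ y) := by
    intro w
    simp only [map_mul, map_pow, map_inv₀, map_sub, map_one, conj_conj]
    ring
  simp_rw [h3] at h2
  rw [h2]
  unfold lam
  by_cases h : y ≤ x
  · rw [if_pos h, if_pos h]
    push_cast [Nat.cast_sub h]
    simp
    ring
  · rw [if_neg h, if_neg h]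
    simp

theorem PP_rep {ι : Type} [Countable ι] {Ψ : ℂ → ℂ} {c : ι → ℂ} {x y : ι → ℕ}
    (h : IsRep Ψ c x y) {z : ℂ} (hz : ‖z‖ < 1) :
    PP Ψ z = ∑' i, c i * (lam (x i) (y i) * z ^ (x i - y i)) := by
  unfold PP
  have hk : Integrable (fun w => ((1 - z * conj w) ^ 2)⁻¹) μD := by
    refine (integrable_kernel hz).mono ?_ (ae_of_all _ fun w => ?_)
    · refine Measurable.aestronglyMeasurable ?_
      have : Measurable (fun w : ℂ => conj w) := continuous_conj.measurable
      fun_prop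
    · rw [norm_inv, norm_inv, norm_pow, norm_pow, ← RCLike.norm_conj (1 - z * conj w)]
      simp
  have h1 : ∀ᵐ w ∂μD, Ψ w * ((1 - z * conj w) ^ 2)⁻¹ =
      ((1 - z * conj w) ^ 2)⁻¹ * ∑' i, c i * (w ^ x i * conj w ^ y i) := by
    filter_upwards [ae_ball] with w hw
    rw [h.eq w hw.le, mul_comm]
  rw [integral_congr_ae h1, integral_mul_tsum hk h.sum (m := fun i w => w ^ x i * conj w ^ y i)
    (fun i => by fun_prop) (fun i w hw => norm_mono_le hw _ _)]
  congr 1
  ext i
  rw [kernel_moment hz]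

/-- The Bergman projection represents the same functional. -/
theorem duality {ι : Type} [Countable ι] {Ψ : ℂ → ℂ} {c : ι → ℂ} {x y : ι → ℕ}
    (h : IsRep Ψ c x y) {a : ℕ → ℂ} {g : ℂ → ℂ} (hg : Integrable g μD)
    (ha : ∀ z, ‖z‖ < 1 → HasSum (fun m => a m * z ^ m) (g z)) :
    ∫ z, g z * conj (Ψ z) ∂μD = ∫ z, g z * conj (PP Ψ z) ∂μD := by
  have hc : Summable (fun i => ‖conj (c i)‖) := by simpa using h.sum
  have h1 : ∀ᵐ z ∂μD, g z * conj (Ψ z) =
      g z * ∑' i, conj (c i) * (z ^ y i * conj z ^ x i) := by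
    filter_upwards [ae_ball] with z hz
    rw [h.eq z hz.le, conj_tsum]
    congr 2
    ext i
    simp only [map_mul, map_pow, conj_conj]
    ring
  have h2 : ∀ᵐ z ∂μD, g z * conj (PP Ψ z) =
      g z * ∑' i, conj (c i) * (lam (x i) (y i) * conj z ^ (x i - y i)) := by
    filter_upwards [ae_ball] with z hz
    rw [PP_rep h hz, conj_tsum]
    congr 2
    ext i
    simp
  rw [integral_congr_ae h1, integral_congr_ae h2,
    integral_mul_tsum hg hc (m := fun i z => z ^ y i * conj z ^ x i)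
      (fun i => by fun_prop) (fun i w hw => norm_mono_le hw _ _),
    integral_mul_tsum hg hc (m := fun i z => (lam (x i) (y i) : ℂ) * conj z ^ (x i - y i))
      (fun i => by fun_prop) (fun i w hw => by
        rw [norm_mul, Complex.norm_real, Real.norm_of_nonneg (lam_nonneg _ _), norm_pow,
          RCLike.norm_conj]
        exact mul_le_one₀ (lam_le_one _ _) (by positivity) (pow_le_one₀ (norm_nonneg _) hw))]
  congr 1
  ext i
  congr 1
  rw [moment hg ha]
  have h3 : ∀ z, g z * ((lam (x i) (y i) : ℂ) * conj z ^ (x i - y i)) =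
      (lam (x i) (y i) : ℂ) * (g z * (z ^ 0 * conj z ^ (x i - y i))) := by
    intro z
    ring
  simp_rw [h3]
  rw [integral_const_mul, moment hg ha, if_pos (Nat.zero_le _), Nat.sub_zero]
  unfold lam
  by_cases hxy : y i ≤ x i
  · rw [if_pos hxy, if_pos hxy]
    obtain ⟨k, hk⟩ := Nat.exists_eq_add_of_le hxy
    rw [hk, Nat.add_sub_cancel_left]
    push_cast
    have h4 : (k : ℂ) + 1 ≠ 0 := by exact_mod_cast Nat.succ_ne_zero k
    have h5 : (y i : ℂ) + k + 1 ≠ 0 := by exact_mod_cast Nat.succ_ne_zero (y i + k)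
    field_simp
    ring
  · rw [if_neg hxy, if_neg hxy]
    simp

end Pool.Agent.Lib.BergExt
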