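import Pool.Agent.Lib.BergExt.Step2

/-!
# The sequence of finite-stage functions
-/

set_option autoImplicit false

open MeasureTheory Complex Filter Topology
open scoped ComplexConjugate ENNReal

namespace Pool.Agent.Lib.BergExt

theorem PP_diff {Ψ : ℂ → ℂ} (hΨ : Integrable Ψ μD) : DifferentiableOn ℂ (PP Ψ) (Metric.ball 0 1) := by
  intro z hz
  have hz' : ‖z‖ < 1 := by simpa using hz
  set r : ℝ := (1 + ‖z‖) / 2 with hr
  have hr1 : r < 1 := by rw [hr]; linarith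
  have hzr : ‖z‖ < r := by rw [hr]; linarith
  have h0 : 0 < 1 - r := by linarith
  have hball : Metric.ball (0 : ℂ) r ∈ 𝓝 z := Metric.isOpen_ball.mem_nhds (by simpa using hzr)
  have hlow : ∀ x ∈ Metric.ball (0 : ℂ) r, ∀ w : ℂ, ‖w‖ < 1 → 1 - r ≤ ‖1 - x * conj w‖ := by
    intro x hx w hw
    have hx' : ‖x‖ < r := by simpa using hx
    have h2 := norm_sub_norm_le (1 : ℂ) (x * conj w)
    rw [norm_one, norm_mul, RCLike.norm_conj] at h2
    have h3 : ‖x‖ * ‖w‖ ≤ ‖x‖ := mul_le_of_le_one_right (norm_nonneg _) hw.le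
    linarith
  have hne : ∀ x ∈ Metric.ball (0 : ℂ) r, ∀ w : ℂ, ‖w‖ < 1 → 1 - x * conj w ≠ 0 := by
    intro x hx w hw h
    have := hlow x hx w hw
    rw [h, norm_zero] at this
    linarith
  have key := hasDerivAt_integral_of_dominated_loc_of_deriv_le (μ := μD) (𝕜 := ℂ)
    (F := fun z w => Ψ w * ((1 - z * conj w) ^ 2)⁻¹)
    (F' := fun z w => Ψ w * (2 * conj w * ((1 - z * conj w) ^ 3)⁻¹))
    (x₀ := z) (s := Metric.ball (0 : ℂ) r) (bound := fun w => ‖Ψ w‖ * (2 * ((1 - r) ^ 3)⁻¹)) hball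
    ?_ (integrable_mul_kernel hΨ hz') ?_ ?_ (hΨ.norm.mul_const _) ?_
  · exact key.2.differentiableAt.differentiableWithinAt
  · filter_upwards [hball] with x hx
    have hx' : ‖x‖ < r := by simpa using hx
    exact (integrable_mul_kernel hΨ (by linarith)).aestronglyMeasurable
  · refine hΨ.aestronglyMeasurable.mul ?_
    refine Measurable.aestronglyMeasurable ?_
    have : Measurable (fun w : ℂ => conj w) := continuous_conj.measurable
    fun_prop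
  · filter_upwards [ae_ball] with w hw x hx
    have h1 := hlow x hx w hw
    rw [norm_mul, norm_mul, norm_mul, norm_inv, norm_pow, RCLike.norm_conj]
    have h2 : ‖(2 : ℂ)‖ = 2 := by norm_num
    rw [h2]
    have h3 : (‖1 - x * conj w‖ ^ 3)⁻¹ ≤ ((1 - r) ^ 3)⁻¹ := inv_anti₀ (by positivity) (by gcongr)
    have h4 : 2 * ‖w‖ ≤ 2 := by linarith
    gcongr
  · filter_upwards [ae_ball] with w hw x hx
    have h1 := hne x hx w hw
    have h2 : HasDerivAt (fun x : ℂ => 1 - x * conj w) (-(1 * conj w)) x :=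
      ((hasDerivAt_id x).mul_const (conj w)).const_sub 1
    have h3 := ((h2.pow 2).inv (pow_ne_zero 2 h1)).const_mul (Ψ w)
    refine h3.congr_deriv ?_
    have h4 : ((fun x : ℂ => 1 - x * conj w) ^ 2) x = (1 - x * conj w) ^ 2 := rfl
    rw [h4]
    push_cast
    field_simp

theorem PP_aesm {Ψ : ℂ → ℂ} (hΨ : Integrable Ψ μD) : AEStronglyMeasurable (PP Ψ) μD :=
  aesm_of_continuousOn (PP_diff hΨ).continuousOn

theorem circle_continuous {f : ℂ → ℂ} (hf : ContinuousOn f (Metric.ball 0 1)) {ρ : ℝ}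
    (h0 : 0 ≤ ρ) (h1 : ρ < 1) : Continuous (fun θ => f (ρ * eit θ)) := by
  refine hf.comp_continuous (by
    have := continuous_eit
    fun_prop) ?_
  intro θ
  rw [mem_ball_zero_iff, norm_mul, norm_eit, mul_one, Complex.norm_real, Real.norm_of_nonneg h0]
  exact h1

theorem norm_lc_le {t : ℂ} {ρ : ℝ} (hρ1 : ρ < 1) (ht : ‖t‖ ≤ ρ) :
    ‖lc t‖ ≤ (2 / (1 - ρ ^ 2)) * ‖t‖ := by
  have hρ0 : 0 ≤ ρ := (norm_nonneg t).trans ht
  have hpos : 0 < 1 - ρ ^ 2 := by nlinarith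
  have h1 := (convex_closedBall (0 : ℂ) ρ).norm_image_sub_le_of_norm_hasDerivWithin_le
    (f := lc) (f' := fun t => 2 / (1 - t ^ 2)) (C := 2 / (1 - ρ ^ 2)) (x := 0) (y := t)
    (fun x hx => (hasDerivAt_lc (lt_of_le_of_lt (by simpa using hx) hρ1)).hasDerivWithinAt)
    (fun x hx => by
      have hx' : ‖x‖ ≤ ρ := by simpa using hx
      rw [norm_div]
      have h2 : ‖(2 : ℂ)‖ = 2 := by norm_num
      rw [h2]
      have h3 : 1 - ρ ^ 2 ≤ ‖1 - x ^ 2‖ := by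
        have h4 := norm_sub_norm_le (1 : ℂ) (x ^ 2)
        rw [norm_one, norm_pow] at h4
        have h5 : ‖x‖ ^ 2 ≤ ρ ^ 2 := by gcongr
        linarith
      gcongr)
    (by simpa using hρ0) (by simpa using ht)
  rwa [lc_zero, sub_zero, sub_zero] at h1

/-- The choice of parameters. -/
theorem exists_seq {β : ℝ} (hβ0 : 0 ≤ β) {s q : ℝ} (hs : 1 ≤ s) (hq : 1 ≤ q)
    (hβ : 2 - 1 / s < β) :
    ∃ (R : ℕ → ℝ) (N : ℕ → ℕ) (Lf : ℕ → ℂ → ℂ),
      (∀ n, 1 / 2 ≤ R n ∧ R n < 1 ∧ n + 1 ≤ N n) ∧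
      (∀ n z, Lf n z = ∑ j ∈ Finset.range n, lc (R j * z ^ N j)) ∧
      (∀ n, Nice β (Lf n)) ∧
      (∀ n, eLpNorm (fun z => Psi β (Lf (n + 1)) z - Psi β (Lf n) z)
        (ENNReal.ofReal q) μD ≤ ENNReal.ofReal ((1 / 2) ^ n)) ∧
      (∀ n, eLpNorm (fun z => PP (Psi β (Lf (n + 1))) z - PP (Psi β (Lf n)) z)
        (ENNReal.ofReal q) μD ≤ ENNReal.ofReal ((1 / 2) ^ n)) ∧
      (∀ n, ∀ ρ : ℝ, 0 ≤ ρ → ρ < 1 →
        eLpNorm (fun θ => PP (Psi β (Lf (n + 1))) (ρ * eit θ) -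
          PP (Psi β (Lf n)) (ρ * eit θ)) (ENNReal.ofReal s) μT ≤ ENNReal.ofReal ((1 / 2) ^ n)) := by
  have hstep : ∀ (n : ℕ) (L : {L : ℂ → ℂ // Nice β L}), ∃ q' : (ℝ × ℕ) × {L : ℂ → ℂ // Nice β L},
      1 / 2 ≤ q'.1.1 ∧ q'.1.1 < 1 ∧ n + 1 ≤ q'.1.2 ∧
      (∀ z, q'.2.1 z = L.1 z + lc (q'.1.1 * z ^ q'.1.2)) ∧
      eLpNorm (fun z => Psi β q'.2.1 z - Psi β L.1 z)
        (ENNReal.ofReal q) μD ≤ ENNReal.ofReal ((1 / 2) ^ n) ∧
      eLpNorm (fun z => PP (Psi β q'.2.1) z - PP (Psi β L.1) z)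
        (ENNReal.ofReal q) μD ≤ ENNReal.ofReal ((1 / 2) ^ n) ∧
      (∀ ρ : ℝ, 0 ≤ ρ → ρ < 1 →
        eLpNorm (fun θ => PP (Psi β q'.2.1) (ρ * eit θ) -
          PP (Psi β L.1) (ρ * eit θ)) (ENNReal.ofReal s) μT ≤ ENNReal.ofReal ((1 / 2) ^ n)) := by
    intro n L
    obtain ⟨R, N, h1, h2, h3, h4, h5, h6, h7, h8⟩ := step hβ0 L.2 hs hq hβ
      (ε := (1 / 2) ^ n) (by positivity) (n + 1)
    exact ⟨((R, N), ⟨_, h5⟩), h1, h2, h3, fun z => rfl, h6, h7, h8⟩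
  choose F hF using hstep
  let S : ℕ → {L : ℂ → ℂ // Nice β L} := fun n => Nat.rec ⟨fun _ => 0, nice_zero β⟩
    (fun n L => (F n L).2) n
  have hS : ∀ n, S (n + 1) = (F n (S n)).2 := fun n => rfl
  refine ⟨fun n => (F n (S n)).1.1, fun n => (F n (S n)).1.2, fun n => (S n).1, ?_, ?_, ?_, ?_, ?_, ?_⟩
  · intro n
    have h := hF n (S n)
    exact ⟨h.1, h.2.1, h.2.2.1⟩
  · intro n z
    induction n with
    | zero => rfl
    | succ n ih =>
      rw [Finset.sum_range_succ, ← ih]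
      exact (hF n (S n)).2.2.2.1 z
  · intro n
    exact (S n).2
  · intro n
    exact (hF n (S n)).2.2.2.2.1
  · intro n
    exact (hF n (S n)).2.2.2.2.2.1
  · intro n
    exact (hF n (S n)).2.2.2.2.2.2

end Pool.Agent.Lib.BergExt
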