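import Pool.Agent.Lib.BergExt.Norms

/-!
# The inductive step
-/

set_option autoImplicit false

open MeasureTheory Complex Filter Topology
open scoped ComplexConjugate ENNReal

namespace Pool.Agent.Lib.BergExt

theorem IsRep.mul_scale {ι κ : Type} {Ψ : ℂ → ℂ} {c : ι → ℂ} {x y : ι → ℕ} (h : IsRep Ψ c x y)
    {T : ℂ → ℂ} {θ : κ → ℂ} {i j : κ → ℕ} (hθ : Summable (fun k => ‖θ k‖))
    (hT : ∀ w, ‖w‖ ≤ 1 → HasSum (fun k => θ k * (w ^ i k * conj w ^ j k)) (T w)) (N : ℕ) :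
    IsRep (fun z => Ψ z * T (z ^ N)) (fun q : ι × κ => c q.1 * θ q.2)
      (fun q => x q.1 + N * i q.2) (fun q => y q.1 + N * j q.2) := by
  constructor
  · have h1 := Summable.mul_of_nonneg (f := fun i => ‖c i‖) (g := fun k => ‖θ k‖)
      h.sum hθ (fun i => norm_nonneg _) (fun i => norm_nonneg _)
    refine h1.congr ?_
    intro q
    rw [norm_mul]
  · intro z hz
    have hzN : ‖z ^ N‖ ≤ 1 := by
      rw [norm_pow]
      exact pow_le_one₀ (norm_nonneg _) hz
    have e2 := tsum_mul_tsum_of_summable_norm (f := fun i => c i * (z ^ x i * conj z ^ y i))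
      (g := fun k => θ k * ((z ^ N) ^ i k * conj (z ^ N) ^ j k))
      (h.summable hz) (hT (z ^ N) hzN).summable.norm
    rw [(hT (z ^ N) hzN).tsum_eq, ← h.eq z hz] at e2
    rw [e2]
    congr 1
    ext q
    rw [map_pow, ← pow_mul, ← pow_mul, pow_add, pow_add]
    ring

theorem IsRep.continuousOn {ι : Type} {Ψ : ℂ → ℂ} {c : ι → ℂ} {x y : ι → ℕ}
    (h : IsRep Ψ c x y) : ContinuousOn Ψ (Metric.closedBall 0 1) := by
  have h1 : ContinuousOn (fun z => ∑' i, c i * (z ^ x i * conj z ^ y i)) (Metric.closedBall 0 1) := by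
    refine continuousOn_tsum (u := fun i => ‖c i‖) (fun i => ?_) h.sum ?_
    · refine Continuous.continuousOn ?_
      fun_prop
    · intro i z hz
      rw [norm_mul]
      exact mul_le_of_le_one_right (norm_nonneg _) (norm_mono_le (by simpa using hz) _ _)
  refine h1.congr ?_
  intro z hz
  exact h.eq z (by simpa using hz)

theorem aesm_of_continuousOn {f : ℂ → ℂ} (hf : ContinuousOn f (Metric.ball 0 1)) :
    AEStronglyMeasurable f μD := by
  unfold μD
  exact (hf.aestronglyMeasurable Metric.isOpen_ball.measurableSet).smul_measure _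

theorem IsRep.aesm {ι : Type} {Ψ : ℂ → ℂ} {c : ι → ℂ} {x y : ι → ℕ}
    (h : IsRep Ψ c x y) : AEStronglyMeasurable Ψ μD :=
  aesm_of_continuousOn (h.continuousOn.mono Metric.ball_subset_closedBall)

theorem integrable_kernel' {z : ℂ} (hz : ‖z‖ < 1) :
    Integrable (fun w => ((1 - z * conj w) ^ 2)⁻¹) μD := by
  refine (integrable_kernel hz).mono ?_ (ae_of_all _ fun w => ?_)
  · refine Measurable.aestronglyMeasurable ?_
    have : Measurable (fun w : ℂ => conj w) := continuous_conj.measurable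
    fun_prop
  · rw [norm_inv, norm_inv, norm_pow, norm_pow, ← RCLike.norm_conj (1 - z * conj w)]
    simp

theorem norm_kernel_le {z w : ℂ} (hz : ‖z‖ < 1) (hw : ‖w‖ < 1) :
    ‖((1 - z * conj w) ^ 2)⁻¹‖ ≤ ((1 - ‖z‖) ^ 2)⁻¹ := by
  have h0 : 0 < 1 - ‖z‖ := by linarith
  rw [norm_inv, norm_pow]
  have h1 : 1 - ‖z‖ ≤ ‖1 - z * conj w‖ := by
    have h2 := norm_sub_norm_le (1 : ℂ) (z * conj w)
    rw [norm_one, norm_mul, RCLike.norm_conj] at h2
    have h3 : ‖z‖ * ‖w‖ ≤ ‖z‖ := mul_le_of_le_one_right (norm_nonneg _) hw.le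
    linarith
  exact inv_anti₀ (by positivity) (by gcongr)

theorem integrable_mul_kernel {Ψ : ℂ → ℂ} (hΨ : Integrable Ψ μD) {z : ℂ} (hz : ‖z‖ < 1) :
    Integrable (fun w => Ψ w * ((1 - z * conj w) ^ 2)⁻¹) μD := by
  refine hΨ.mul_bdd (c := ((1 - ‖z‖) ^ 2)⁻¹) (integrable_kernel' hz).aestronglyMeasurable ?_
  filter_upwards [ae_ball] with w hw
  exact norm_kernel_le hz hw

theorem IsRep.integrable {ι : Type} {Ψ : ℂ → ℂ} {c : ι → ℂ} {x y : ι → ℕ}
    (h : IsRep Ψ c x y) : Integrable Ψ μD := by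
  refine Integrable.of_bound (C := ∑' i, ‖c i‖) h.aesm ?_
  filter_upwards [ae_ball] with z hz
  exact h.bound hz.le

theorem PP_sub {Ψ Φ : ℂ → ℂ} (hΨ : Integrable Ψ μD) (hΦ : Integrable Φ μD) {z : ℂ} (hz : ‖z‖ < 1) :
    PP (fun w => Ψ w - Φ w) z = PP Ψ z - PP Φ z := by
  unfold PP
  rw [← integral_sub (integrable_mul_kernel hΨ hz) (integrable_mul_kernel hΦ hz)]
  congr 1
  ext w
  ring

theorem PP_congr {Ψ Φ : ℂ → ℂ} (h : ∀ z, ‖z‖ < 1 → Ψ z = Φ z) (z : ℂ) : PP Ψ z = PP Φ z := by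
  unfold PP
  refine integral_congr_ae ?_
  filter_upwards [ae_ball] with w hw
  rw [h w hw]

/-- The function `|F| ^ (p - 2) F` in terms of a logarithm. -/
noncomputable def Psi (β : ℝ) (L : ℂ → ℂ) (z : ℂ) : ℂ := exp (2 * L z - β * conj (L z))

/-- Finite-stage functions. -/
def Nice (β : ℝ) (L : ℂ → ℂ) : Prop :=
  ∃ (ι : Type) (_ : Countable ι) (c : ι → ℂ) (x y : ι → ℕ), IsRep (Psi β L) c x y

/-- The conjugate factor of the block. -/
noncomputable def Gam (β R : ℝ) (w : ℂ) : ℂ := exp (-(β * lc (R * w)))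

theorem Gam_zero (β R : ℝ) : Gam β R 0 = 1 := by
  unfold Gam
  simp [lc_zero]

theorem Psi_add {β : ℝ} {L : ℂ → ℂ} {R : ℝ} (h0 : 0 ≤ R) (h1 : R < 1) (N : ℕ) {z : ℂ}
    (hz : ‖z‖ ≤ 1) :
    Psi β (fun z => L z + lc (R * z ^ N)) z =
      Psi β L z * (cay (R * z ^ N) ^ 2 * conj (Gam β R (z ^ N))) := by
  have ht : ‖(R : ℂ) * z ^ N‖ < 1 := by
    rw [norm_mul, Complex.norm_real, Real.norm_of_nonneg h0, norm_pow]
    have : ‖z‖ ^ N ≤ 1 := pow_le_one₀ (norm_nonneg _) hz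
    nlinarith
  unfold Psi Gam
  rw [← exp_lc ht, ← exp_conj, ← exp_nat_mul, ← exp_add, ← exp_add]
  congr 1
  simp
  ring

theorem norm_Gam_R {β : ℝ} (hβ : 0 ≤ β) {R : ℝ} (h0 : 0 ≤ R) (h1 : R < 1) :
    ‖Gam β R (R : ℂ)‖ ≤ (2 * (1 - R)) ^ β := by
  have hR2 : R * R < 1 := by nlinarith
  have hR2' : 0 ≤ R * R := by positivity
  have ht : lc ((R : ℂ) * R) = ((Real.log ((1 + R * R) / (1 - R * R)) : ℝ) : ℂ) := by
    unfold lc cay
    rw [ofReal_log (div_nonneg (by linarith) (by linarith))]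
    push_cast
    rfl
  unfold Gam
  rw [ht]
  have h2 : (-((β : ℂ) * ((Real.log ((1 + R * R) / (1 - R * R)) : ℝ) : ℂ))) =
      ((-(β * Real.log ((1 + R * R) / (1 - R * R))) : ℝ) : ℂ) := by
    push_cast
    ring
  rw [h2, ← ofReal_exp, Complex.norm_real, Real.norm_of_nonneg (Real.exp_pos _).le]
  have hpos : 0 < (1 + R * R) / (1 - R * R) := div_pos (by linarith) (by linarith)
  have h3 : Real.exp (-(β * Real.log ((1 + R * R) / (1 - R * R)))) =
      ((1 - R * R) / (1 + R * R)) ^ β := by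
    rw [Real.rpow_def_of_pos (div_pos (by linarith) (by linarith))]
    congr 1
    rw [← inv_div, Real.log_inv]
    ring
  rw [h3]
  refine Real.rpow_le_rpow (div_nonneg (by linarith) (by linarith)) ?_ hβ
  rw [div_le_iff₀ (by linarith)]
  nlinarith

theorem diff_Gam {β R : ℝ} (h0 : 0 < R) :
    DifferentiableOn ℂ (Gam β R) (Metric.ball 0 (1 / R)) := by
  intro w hw
  have hw' : ‖w‖ < 1 / R := by simpa using hw
  have ht : ‖(R : ℂ) * w‖ < 1 := by
    rw [norm_mul, Complex.norm_real, Real.norm_of_nonneg h0.le]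
    rw [lt_div_iff₀ h0] at hw'
    linarith
  refine DifferentiableAt.differentiableWithinAt ?_
  unfold Gam
  have h1 : DifferentiableAt ℂ (fun w : ℂ => lc (R * w)) w :=
    (differentiableAt_lc ht).comp w ((differentiableAt_id).const_mul (R : ℂ))
  fun_prop

theorem nice_zero (β : ℝ) : Nice β (fun _ => 0) := by
  refine ⟨Unit, inferInstance, fun _ => 1, fun _ => 0, fun _ => 0, ?_, ?_⟩
  · exact Summable.of_finite
  · intro z _
    simp [Psi]

end Pool.Agent.Lib.BergExt
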