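import Pool.Agent.Lib.BergExt.Step

/-!
# The inductive step, conclusion
-/

set_option autoImplicit false

open MeasureTheory Complex Filter Topology
open scoped ComplexConjugate ENNReal

namespace Pool.Agent.Lib.BergExt

/-- Choice of `R`. -/
theorem exists_R {β s B ε : ℝ} (hβ0 : 0 ≤ β) (hβ : 2 - 1 / s < β) (hε : 0 < ε) :
    ∃ R : ℝ, 1 / 2 ≤ R ∧ R < 1 ∧ B * (4 * ‖Gam β R (R : ℂ)‖) * (1 - R) ^ (-2 + 1 / s) ≤ ε := by
  have ha : 0 < β - 2 + 1 / s := by linarith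
  have h1 : Tendsto (fun t : ℝ => (|B| * 4 * 2 ^ β) * t ^ (β - 2 + 1 / s)) (𝓝[>] 0) (𝓝 0) := by
    have h2 : Tendsto (fun t : ℝ => t ^ (β - 2 + 1 / s)) (𝓝[>] 0) (𝓝 0) := by
      have h3 := (Real.continuousAt_rpow_const 0 (β - 2 + 1 / s) (Or.inr ha.le)).tendsto
      rw [Real.zero_rpow ha.ne'] at h3
      exact h3.mono_left nhdsWithin_le_nhds
    have h3 := h2.const_mul (|B| * 4 * 2 ^ β)
    rwa [mul_zero] at h3
  have h2 : ∀ᶠ t : ℝ in 𝓝[>] 0, (|B| * 4 * 2 ^ β) * t ^ (β - 2 + 1 / s) < ε :=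
    h1.eventually_lt_const hε
  have h3 : ∀ᶠ t : ℝ in 𝓝[>] 0, t < 1 / 2 :=
    mem_nhdsWithin_of_mem_nhds (Iio_mem_nhds (by norm_num))
  have h4 : ∀ᶠ t : ℝ in 𝓝[>] 0, 0 < t := self_mem_nhdsWithin
  obtain ⟨t, ht1, ht2, ht3⟩ := (h2.and (h3.and h4)).exists
  refine ⟨1 - t, by linarith, by linarith, ?_⟩
  have h5 := norm_Gam_R hβ0 (R := 1 - t) (by linarith) (by linarith)
  rw [sub_sub_cancel] at h5 ⊢
  have h6 : 0 < t ^ (-2 + 1 / s) := Real.rpow_pos_of_pos ht3 _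
  calc B * (4 * ‖Gam β (1 - t) ((1 - t : ℝ) : ℂ)‖) * t ^ (-2 + 1 / s)
      ≤ |B| * (4 * (2 * t) ^ β) * t ^ (-2 + 1 / s) := by
        have := le_abs_self B
        gcongr
    _ = (|B| * 4 * 2 ^ β) * t ^ (β - 2 + 1 / s) := by
        rw [Real.mul_rpow (by norm_num) ht3.le]
        have : t ^ (β - 2 + 1 / s) = t ^ β * t ^ (-2 + 1 / s) := by
          rw [← Real.rpow_add ht3]
          congr 1
          ring
        rw [this]
        ring
    _ ≤ ε := ht1.le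

theorem norm_prof_le {β R : ℝ} (h0 : 0 ≤ R) (h1 : R < 1) {γ : ℕ → ℂ}
    (hΓ : HasSum (fun j => γ j * (R : ℂ) ^ j) (Gam β R R)) {w : ℂ} (hw : ‖w‖ ≤ 1) :
    ‖prof (thc R γ) w‖ ≤ (4 * ‖Gam β R (R : ℂ)‖) * (‖w‖ * (‖1 - (R : ℂ) * w‖ ^ 2)⁻¹) := by
  rw [prof_thc h0 h1 hΓ hw, norm_mul, norm_mul, RCLike.norm_conj, norm_div, norm_mul, norm_pow,
    Complex.norm_real, Real.norm_of_nonneg h0, div_eq_mul_inv]
  have h4 : ‖(4 : ℂ)‖ = 4 := by norm_num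
  rw [h4]
  gcongr
  exact mul_le_of_le_one_left (norm_nonneg _) h1.le

theorem step {β : ℝ} (hβ0 : 0 ≤ β) {L : ℂ → ℂ} (hL : Nice β L) {s q : ℝ} (hs : 1 ≤ s) (hq : 1 ≤ q)
    (hβ : 2 - 1 / s < β) {ε : ℝ} (hε : 0 < ε) (n0 : ℕ) :
    ∃ (R : ℝ) (N : ℕ), 1 / 2 ≤ R ∧ R < 1 ∧ n0 ≤ N ∧ 1 ≤ N ∧
      Nice β (fun z => L z + lc (R * z ^ N)) ∧
      eLpNorm (fun z => Psi β (fun z => L z + lc (R * z ^ N)) z - Psi β L z)
        (ENNReal.ofReal q) μD ≤ ENNReal.ofReal ε ∧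
      eLpNorm (fun z => PP (Psi β (fun z => L z + lc (R * z ^ N))) z - PP (Psi β L) z)
        (ENNReal.ofReal q) μD ≤ ENNReal.ofReal ε ∧
      ∀ ρ : ℝ, 0 ≤ ρ → ρ < 1 →
        eLpNorm (fun θ => PP (Psi β (fun z => L z + lc (R * z ^ N))) (ρ * eit θ) -
          PP (Psi β L) (ρ * eit θ)) (ENNReal.ofReal s) μT ≤ ENNReal.ofReal ε := by
  obtain ⟨ι, hι, c, x, y, hrep⟩ := hL
  set B : ℝ := ∑' i, ‖c i‖ with hB
  have hB0 : 0 ≤ B := tsum_nonneg fun i => norm_nonneg _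
  obtain ⟨R, hR2, hR1, hRε⟩ := exists_R (B := B) hβ0 hβ (half_pos hε)
  have hR0 : 0 < R := by linarith
  have h1R : 1 < 1 / R := by
    rw [lt_div_iff₀ hR0]
    linarith
  obtain ⟨γ, hγs, hγ⟩ := exists_coef h1R (diff_Gam (β := β) hR0)
  have hγ' : ∀ z, ‖z‖ ≤ 1 → HasSum (fun n => γ n * z ^ n) (Gam β R z) :=
    fun z hz => hγ z (lt_of_le_of_lt hz h1R)
  have hγ0 : γ 0 = 1 := by
    have h1 := hγ' 0 (by simp)
    have h2 : HasSum (fun n => γ n * (0 : ℂ) ^ n) (γ 0) := by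
      have h3 := hasSum_single (f := fun n => γ n * (0 : ℂ) ^ n) 0 (by
        intro n hn
        rw [zero_pow hn, mul_zero])
      simpa using h3
    rw [← Gam_zero β R]
    exact h2.unique h1
  have hγR : HasSum (fun j => γ j * (R : ℂ) ^ j) (Gam β R R) := by
    refine hγ' R ?_
    rw [Complex.norm_real, Real.norm_of_nonneg hR0.le]
    exact hR1.le
  set A : ℝ := ∑' κ, ‖thc R γ κ‖ with hA
  have hθs := summable_thc hR0.le hR1 hγs
  have hA0 : 0 ≤ A := tsum_nonneg fun i => norm_nonneg _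
  set K : ℝ := 4 * ‖Gam β R (R : ℂ)‖ with hK
  have hK0 : 0 ≤ K := by positivity
  have h1R0 : 0 < 1 - R := by linarith
  -- choice of N
  have hT1 : Tendsto (fun N : ℕ => A * ∑' i, ‖c i‖ * del N (x i + y i)) atTop (𝓝 0) :=
    tendsto_err hrep.sum A
  have hT2 := tendsto_pow_bound hq
  have hT3 : Tendsto (fun N : ℕ => (B * K * ((1 - R) ^ 2)⁻¹) *
      (1 / (((N / 2 : ℕ) : ℝ) + 1)) ^ (1 / q)) atTop (𝓝 0) := by
    have := hT2.const_mul (B * K * ((1 - R) ^ 2)⁻¹)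
    rwa [mul_zero] at this
  have hT4 : Tendsto (fun N : ℕ => (B * A) *
      (1 / (((N / 2 : ℕ) : ℝ) + 1)) ^ (1 / q)) atTop (𝓝 0) := by
    have := hT2.const_mul (B * A)
    rwa [mul_zero] at this
  obtain ⟨N, hN1, hN2, hN3, hN4, hN5⟩ := ((hT1.eventually_lt_const (half_pos hε)).and
    ((hT3.eventually_lt_const (half_pos hε)).and ((hT4.eventually_lt_const hε).and
      ((eventually_ge_atTop n0).and (eventually_ge_atTop 1))))).exists
  set err : ℝ := A * ∑' i, ‖c i‖ * del N (x i + y i) with herr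
  have herr0 : 0 ≤ err := mul_nonneg hA0 (tsum_nonneg fun i =>
    mul_nonneg (norm_nonneg _) (del_nonneg _ _))
  set H : ℝ := (1 / (((N / 2 : ℕ) : ℝ) + 1)) ^ (1 / q) with hH
  have hH0 : 0 ≤ H := by positivity
  set L' : ℂ → ℂ := fun z => L z + lc (R * z ^ N) with hL'
  have hfull : IsRep (fun z => Psi β L z * (fun w => cay (R * w) ^ 2 * conj (Gam β R w)) (z ^ N))
      (fun q : ι × (ℕ × ℕ) => c q.1 * (gco R q.2.1 * conj (γ q.2.2)))
      (fun q => x q.1 + N * q.2.1) (fun q => y q.1 + N * q.2.2) :=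
    hrep.mul_scale (summable_prod_gco hR0.le hR1 hγs)
      (fun w hw => hasSum_full hR0.le hR1 hw (hγ' w hw)) N
  have hrep' : IsRep (Psi β L') (fun q : ι × (ℕ × ℕ) => c q.1 * (gco R q.2.1 * conj (γ q.2.2)))
      (fun q => x q.1 + N * q.2.1) (fun q => y q.1 + N * q.2.2) := by
    refine ⟨hfull.sum, fun z hz => ?_⟩
    rw [← hfull.eq z hz, hL', Psi_add hR0.le hR1 N hz]
  have hΔ : IsRep (fun z => Psi β L z * (fun w => cay (R * w) ^ 2 * conj (Gam β R w) - 1) (z ^ N))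
      (fun q : ι × (ℕ × ℕ) => c q.1 * thc R γ q.2)
      (fun q => x q.1 + N * q.2.1) (fun q => y q.1 + N * q.2.2) :=
    hrep.mul_scale hθs (fun w hw => hasSum_thc hR0.le hR1 hγ0 hw (hγ' w hw)) N
  set Δ : ℂ → ℂ := fun z => Psi β L z * (fun w => cay (R * w) ^ 2 * conj (Gam β R w) - 1) (z ^ N)
    with hΔdef
  have hΔeq : ∀ z, ‖z‖ ≤ 1 → Δ z = Psi β L' z - Psi β L z := by
    intro z hz
    rw [hΔdef, hL', Psi_add hR0.le hR1 N hz]
    ring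
  have hPPΔ : ∀ z, ‖z‖ < 1 → PP (Psi β L') z - PP (Psi β L) z = PP Δ z := by
    intro z hz
    rw [← PP_sub hrep'.integrable hrep.integrable hz]
    exact PP_congr (fun w hw => (hΔeq w hw.le).symm) z
  -- the two-scale estimate
  have hts : ∀ ζ : ℂ, ‖ζ‖ = 1 → ∀ ρ : ℝ, 0 ≤ ρ → ρ < 1 → ‖PP Δ ((ρ : ℂ) * ζ)‖ ≤
      (B * K) * (ρ ^ N * (‖1 - (R : ℂ) * ((ρ : ℂ) * ζ) ^ N‖ ^ 2)⁻¹) + err := by
    intro ζ hζ ρ hρ0 hρ1
    have h1 := two_scale hrep hθs (thc_zero R γ) hN5 hΔ hζ hρ0 hρ1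
    have hw : ‖((ρ : ℂ) * ζ) ^ N‖ = ρ ^ N := by
      rw [norm_pow, norm_mul, hζ, mul_one, Complex.norm_real, Real.norm_of_nonneg hρ0]
    have hw1 : ‖((ρ : ℂ) * ζ) ^ N‖ ≤ 1 := by
      rw [hw]
      exact pow_le_one₀ hρ0 hρ1.le
    have h2 := norm_prof_le hR0.le hR1 hγR hw1
    rw [hw] at h2
    have h3 : ‖Psi β L ζ‖ ≤ B := hrep.bound hζ.le
    have h4 : ‖PP Δ ((ρ : ℂ) * ζ)‖ ≤ ‖Psi β L ζ * prof (thc R γ) (((ρ : ℂ) * ζ) ^ N)‖ + err := by
      have h5 := norm_sub_norm_le (PP Δ ((ρ : ℂ) * ζ))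
        (Psi β L ζ * prof (thc R γ) (((ρ : ℂ) * ζ) ^ N))
      linarith
    refine h4.trans ?_
    rw [norm_mul]
    have h5 : ‖Psi β L ζ‖ * ‖prof (thc R γ) (((ρ : ℂ) * ζ) ^ N)‖ ≤
        B * (K * (ρ ^ N * (‖1 - (R : ℂ) * ((ρ : ℂ) * ζ) ^ N‖ ^ 2)⁻¹)) :=
      mul_le_mul h3 h2 (norm_nonneg _) hB0
    linarith
  refine ⟨R, N, hR2, hR1, hN4, hN5, ⟨ι × (ℕ × ℕ), inferInstance, _, _, _, hrep'⟩, ?_, ?_, ?_⟩
  · -- (ii)
    have hb : ∀ᵐ z ∂μD, ‖Psi β L' z - Psi β L z‖ ≤ (B * A) * (fun z : ℂ => ‖z‖ ^ N) z + 0 := by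
      filter_upwards [ae_ball] with z hz
      rw [← hΔeq z hz.le, hΔdef, add_zero]
      simp only
      rw [norm_mul, mul_assoc]
      refine mul_le_mul (hrep.bound hz.le) ?_ (norm_nonneg _) hB0
      have hzN : ‖z ^ N‖ ≤ 1 := by
        rw [norm_pow]
        exact pow_le_one₀ (norm_nonneg _) hz.le
      have h1 := hasSum_thc hR0.le hR1 hγ0 hzN (hγ' _ hzN)
      rw [← h1.tsum_eq, mul_comm]
      have h2 : Summable (fun κ : ℕ × ℕ => ‖z‖ ^ N * ‖thc R γ κ‖) := hθs.mul_left _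
      have h3 : ∀ κ : ℕ × ℕ, ‖thc R γ κ * ((z ^ N) ^ κ.1 * conj (z ^ N) ^ κ.2)‖ ≤
          ‖z‖ ^ N * ‖thc R γ κ‖ := by
        rintro ⟨i, j⟩
        rw [norm_mul, mul_comm]
        by_cases hij : (i, j) = (0, 0)
        · rw [hij, thc_zero, norm_zero, mul_zero, mul_zero]
        · refine mul_le_mul_of_nonneg_right ?_ (norm_nonneg _)
          simp only
          rw [norm_mul, norm_pow, norm_pow (conj (z ^ N)), RCLike.norm_conj, ← norm_pow z N,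
            ← pow_add]
          have h4 : 1 ≤ i + j := by
            by_contra hcon
            apply hij
            ext
            · simp only
              omega
            · simp only
              omega
          calc ‖z ^ N‖ ^ (i + j) ≤ ‖z ^ N‖ ^ 1 :=
                pow_le_pow_of_le_one (norm_nonneg _) hzN h4
            _ = ‖z ^ N‖ := pow_one _
      calc ‖∑' κ : ℕ × ℕ, thc R γ κ * ((z ^ N) ^ κ.1 * conj (z ^ N) ^ κ.2)‖
          ≤ ∑' κ : ℕ × ℕ, ‖z‖ ^ N * ‖thc R γ κ‖ := tsum_of_norm_bounded h2.hasSum h3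
        _ = ‖z‖ ^ N * A := by rw [tsum_mul_left]
    have h1 := eLpNorm_le_affine (μ := μD) hq (h := fun z : ℂ => ‖z‖ ^ N)
      (Measurable.aestronglyMeasurable (by fun_prop)) (mul_nonneg hB0 hA0) le_rfl hH0 hb
      (eLpNorm_pow hq N)
    refine h1.trans (ENNReal.ofReal_le_ofReal ?_)
    linarith
  · -- (iii)
    have hb : ∀ᵐ z ∂μD, ‖PP (Psi β L') z - PP (Psi β L) z‖ ≤
        (B * K * ((1 - R) ^ 2)⁻¹) * (fun z : ℂ => ‖z‖ ^ N) z + err := by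
      filter_upwards [ae_ball] with z hz
      rw [hPPΔ z hz]
      obtain ⟨ζ, hζ, hzζ⟩ : ∃ ζ : ℂ, ‖ζ‖ = 1 ∧ z = (‖z‖ : ℂ) * ζ := by
        by_cases h0 : z = 0
        · exact ⟨1, by simp, by simp [h0]⟩
        · have hn : (‖z‖ : ℂ) ≠ 0 := by
            rw [ofReal_ne_zero]
            exact norm_ne_zero_iff.2 h0
          refine ⟨z / ‖z‖, ?_, ?_⟩
          · rw [norm_div, Complex.norm_real, norm_norm]
            exact div_self (norm_ne_zero_iff.2 h0)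
          · field_simp
      have h1 := hts ζ hζ ‖z‖ (norm_nonneg z) hz
      rw [← hzζ] at h1
      refine h1.trans ?_
      have h2 : (‖1 - (R : ℂ) * z ^ N‖ ^ 2)⁻¹ ≤ ((1 - R) ^ 2)⁻¹ := by
        have h3 := norm_sub_norm_le (1 : ℂ) ((R : ℂ) * z ^ N)
        have h4 : ‖(R : ℂ) * z ^ N‖ ≤ R := by
          rw [norm_mul, norm_pow, Complex.norm_real, Real.norm_of_nonneg hR0.le]
          exact mul_le_of_le_one_right hR0.le (pow_le_one₀ (norm_nonneg _) hz.le)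
        rw [norm_one] at h3
        have h5 : 1 - R ≤ ‖1 - (R : ℂ) * z ^ N‖ := by linarith
        exact inv_anti₀ (by positivity) (by gcongr)
      have h3 : (B * K) * (‖z‖ ^ N * (‖1 - (R : ℂ) * z ^ N‖ ^ 2)⁻¹) ≤
          (B * K) * (‖z‖ ^ N * ((1 - R) ^ 2)⁻¹) := by
        gcongr
      linarith
    have h1 := eLpNorm_le_affine (μ := μD) hq (h := fun z : ℂ => ‖z‖ ^ N)
      (Measurable.aestronglyMeasurable (by fun_prop)) (by positivity) herr0 hH0 hb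
      (eLpNorm_pow hq N)
    refine h1.trans (ENNReal.ofReal_le_ofReal ?_)
    linarith
  · -- (iv)
    intro ρ hρ0 hρ1
    have hb : ∀ᵐ θ ∂μT, ‖PP (Psi β L') (ρ * eit θ) - PP (Psi β L) (ρ * eit θ)‖ ≤
        (B * K) * (fun θ => (‖1 - (R : ℂ) * ((ρ : ℂ) * eit θ) ^ N‖ ^ 2)⁻¹) θ + err := by
      refine ae_of_all _ fun θ => ?_
      have hz : ‖(ρ : ℂ) * eit θ‖ < 1 := by
        rw [norm_mul, norm_eit, mul_one, Complex.norm_real, Real.norm_of_nonneg hρ0]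
        exact hρ1
      rw [hPPΔ _ hz]
      refine (hts (eit θ) (norm_eit θ) ρ hρ0 hρ1).trans ?_
      have h2 : ρ ^ N * (‖1 - (R : ℂ) * ((ρ : ℂ) * eit θ) ^ N‖ ^ 2)⁻¹ ≤
          (‖1 - (R : ℂ) * ((ρ : ℂ) * eit θ) ^ N‖ ^ 2)⁻¹ :=
        mul_le_of_le_one_left (by positivity) (pow_le_one₀ hρ0 hρ1.le)
      have h3 : 0 ≤ B * K := by positivity
      have h4 := mul_le_mul_of_nonneg_left h2 h3
      simp only
      linarith
    have hce := continuous_eit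
    have h1 := eLpNorm_le_affine (μ := μT) hs
      (h := fun θ => (‖1 - (R : ℂ) * ((ρ : ℂ) * eit θ) ^ N‖ ^ 2)⁻¹)
      (Measurable.aestronglyMeasurable (by
        have := hce.measurable
        fun_prop)) (by positivity) herr0
      (Real.rpow_nonneg h1R0.le _) hb (eLpNorm_poisson hs hR0.le hR1 hN5 hρ0 hρ1)
    refine h1.trans (ENNReal.ofReal_le_ofReal ?_)
    linarith

end Pool.Agent.Lib.BergExt
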