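import Pool.Agent.Lib.BergExt.Proj

/-!
# The two-scale estimate
-/

set_option autoImplicit false

open MeasureTheory Complex Filter Topology
open scoped ComplexConjugate

namespace Pool.Agent.Lib.BergExt

/-- The limit of the coefficient `lam` for widely separated scales. -/
noncomputable def lamInf (i j : ℕ) : ℝ := if j < i then ((i : ℝ) - j) / i else 0

theorem lamInf_nonneg (i j : ℕ) : 0 ≤ lamInf i j := by
  unfold lamInf
  split_ifs with h
  · have : (j : ℝ) ≤ i := by exact_mod_cast h.le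
    exact div_nonneg (by linarith) (by positivity)
  · exact le_rfl

theorem lamInf_le_one (i j : ℕ) : lamInf i j ≤ 1 := by
  unfold lamInf
  split_ifs with h
  · have h1 : (0 : ℝ) ≤ j := Nat.cast_nonneg j
    have h2 : (0 : ℝ) < i := by
      have : 0 < i := by omega
      exact_mod_cast this
    rw [div_le_one h2]
    linarith
  · exact zero_le_one

/-- the error bound -/
noncomputable def del (N s : ℕ) : ℝ :=
  if N ≤ s then 2 else min 2 ((4 * (s : ℝ) + 4) / ((N : ℝ) - s))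

theorem del_nonneg (N s : ℕ) : 0 ≤ del N s := by
  unfold del
  split_ifs with h
  · norm_num
  · have : (s : ℝ) < N := by exact_mod_cast not_le.1 h
    refine le_min (by norm_num) (div_nonneg (by positivity) (by linarith))

theorem del_le_two (N s : ℕ) : del N s ≤ 2 := by
  unfold del
  split_ifs with h
  · exact le_rfl
  · exact min_le_left _ _

theorem tendsto_del (s : ℕ) : Tendsto (fun N => del N s) atTop (𝓝 0) := by
  have h1 : Tendsto (fun N : ℕ => (4 * (s : ℝ) + 4) / ((N : ℝ) - s)) atTop (𝓝 0) := by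
    refine Tendsto.div_atTop tendsto_const_nhds ?_
    exact tendsto_atTop_add_const_right _ _ tendsto_natCast_atTop_atTop
  refine squeeze_zero' (Eventually.of_forall fun N => del_nonneg N s) ?_ h1
  filter_upwards [eventually_gt_atTop s] with N hN
  unfold del
  rw [if_neg (not_le.2 hN)]
  exact min_le_right _ _

theorem pow_diff {ρ : ℝ} (h0 : 0 ≤ ρ) (h1 : ρ ≤ 1) {m n : ℕ} (hmn : m ≤ n) :
    ρ ^ m - ρ ^ n ≤ ((n : ℝ) - m) / (m + 1) := by
  obtain ⟨k, rfl⟩ := Nat.exists_eq_add_of_le hmn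
  have h2 : (1 - ρ) * (∑ l ∈ Finset.range (m + 1), ρ ^ l) = 1 - ρ ^ (m + 1) := by
    rw [mul_comm]
    have := geom_sum_mul_neg ρ (m + 1)
    exact this
  have h3 : ((m : ℝ) + 1) * ρ ^ m ≤ ∑ l ∈ Finset.range (m + 1), ρ ^ l := by
    have : ∑ l ∈ Finset.range (m + 1), ρ ^ m ≤ ∑ l ∈ Finset.range (m + 1), ρ ^ l := by
      refine Finset.sum_le_sum fun l hl => ?_
      exact pow_le_pow_of_le_one h0 h1 (by have := Finset.mem_range.1 hl; omega)
    rw [Finset.sum_const, Finset.card_range, nsmul_eq_mul] at this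
    push_cast at this
    exact this
  have h4 : ((m : ℝ) + 1) * ρ ^ m * (1 - ρ) ≤ 1 := by
    have h5 : 0 ≤ ρ ^ (m + 1) := by positivity
    have h6 := mul_le_mul_of_nonneg_right h3 (by linarith : 0 ≤ 1 - ρ)
    linarith
  have h5 : 1 - ρ ^ k ≤ k * (1 - ρ) := by
    have h6 : (1 - ρ) * (∑ l ∈ Finset.range k, ρ ^ l) = 1 - ρ ^ k := by
      rw [mul_comm]
      exact geom_sum_mul_neg ρ k
    have h7 : ∑ l ∈ Finset.range k, ρ ^ l ≤ k := by
      have : ∑ l ∈ Finset.range k, ρ ^ l ≤ ∑ _l ∈ Finset.range k, (1 : ℝ) :=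
        Finset.sum_le_sum fun l _ => pow_le_one₀ h0 h1
      simpa using this
    rw [← h6]
    nlinarith
  rw [le_div_iff₀ (by positivity), pow_add]
  push_cast
  have h6 : 0 ≤ ρ ^ m := by positivity
  have h7 : (0 : ℝ) ≤ k := Nat.cast_nonneg k
  have h8 : (ρ ^ m - ρ ^ m * ρ ^ k) * ((m : ℝ) + 1) ≤ (((m : ℝ) + 1) * ρ ^ m) * (k * (1 - ρ)) := by
    have : (ρ ^ m - ρ ^ m * ρ ^ k) * ((m : ℝ) + 1) = (((m : ℝ) + 1) * ρ ^ m) * (1 - ρ ^ k) := by
      ring
    rw [this]
    exact mul_le_mul_of_nonneg_left h5 (by positivity)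
  have h9 : (((m : ℝ) + 1) * ρ ^ m) * (k * (1 - ρ)) = k * (((m : ℝ) + 1) * ρ ^ m * (1 - ρ)) := by
    ring
  have h10 : k * (((m : ℝ) + 1) * ρ ^ m * (1 - ρ)) ≤ k * 1 := mul_le_mul_of_nonneg_left h4 h7
  linarith

theorem abs_pow_diff {ρ : ℝ} (h0 : 0 ≤ ρ) (h1 : ρ ≤ 1) {m n k : ℕ} (hk : k ≤ m) (hk' : k ≤ n)
    {s : ℝ} (hs : |(n : ℝ) - m| ≤ s) : |ρ ^ m - ρ ^ n| ≤ s / (k + 1) := by
  rcases le_total m n with h | h
  · rw [abs_of_nonneg (sub_nonneg.2 (pow_le_pow_of_le_one h0 h1 h))]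
    refine (pow_diff h0 h1 h).trans ?_
    have h2 : (n : ℝ) - m ≤ s := (le_abs_self _).trans hs
    have h3 : (0 : ℝ) ≤ s := (abs_nonneg _).trans hs
    have h4 : (k : ℝ) ≤ m := by exact_mod_cast hk
    gcongr
  · rw [abs_sub_comm, abs_of_nonneg (sub_nonneg.2 (pow_le_pow_of_le_one h0 h1 h))]
    refine (pow_diff h0 h1 h).trans ?_
    have h2 : (m : ℝ) - n ≤ s := by
      rw [abs_sub_comm] at hs
      exact (le_abs_self _).trans hs
    have h3 : (0 : ℝ) ≤ s := (abs_nonneg _).trans hs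
    have h4 : (k : ℝ) ≤ n := by exact_mod_cast hk'
    gcongr

theorem norm_pow_conj {ζ : ℂ} (hζ : ‖ζ‖ = 1) {a b : ℕ} (h : b ≤ a) :
    ζ ^ a * conj ζ ^ b = ζ ^ (a - b) := by
  obtain ⟨k, rfl⟩ := Nat.exists_eq_add_of_le h
  have h1 : ζ * conj ζ = 1 := by
    rw [mul_conj, normSq_eq_norm_sq, hζ]
    simp
  rw [Nat.add_sub_cancel_left, pow_add, mul_right_comm, ← mul_pow, h1, one_pow, one_mul]

theorem term_bound {ζ : ℂ} (hζ : ‖ζ‖ = 1) {ρ : ℝ} (h0 : 0 ≤ ρ) (h1 : ρ ≤ 1) {N : ℕ} (hN : 1 ≤ N)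
    (x y i j : ℕ) (hij : ¬ (i = 0 ∧ j = 0)) :
    ‖(lam (x + N * i) (y + N * j) : ℂ) * ((ρ : ℂ) * ζ) ^ ((x + N * i) - (y + N * j)) -
      (ζ ^ x * conj ζ ^ y) * ((lamInf i j : ℂ) * (((ρ : ℂ) * ζ) ^ N) ^ (i - j))‖ ≤
      del N (x + y) := by
  have hρζ : ‖(ρ : ℂ) * ζ‖ ≤ 1 := by
    rw [norm_mul, hζ, mul_one, Complex.norm_real, Real.norm_of_nonneg h0]
    exact h1
  have hA : ‖(lam (x + N * i) (y + N * j) : ℂ) * ((ρ : ℂ) * ζ) ^ ((x + N * i) - (y + N * j))‖ ≤
      lam (x + N * i) (y + N * j) := by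
    rw [norm_mul, Complex.norm_real, Real.norm_of_nonneg (lam_nonneg _ _), norm_pow]
    exact mul_le_of_le_one_right (lam_nonneg _ _) (pow_le_one₀ (norm_nonneg _) hρζ)
  have hB : ‖(ζ ^ x * conj ζ ^ y) * ((lamInf i j : ℂ) * (((ρ : ℂ) * ζ) ^ N) ^ (i - j))‖ ≤
      lamInf i j := by
    rw [norm_mul, norm_mul (lamInf i j : ℂ), Complex.norm_real,
      Real.norm_of_nonneg (lamInf_nonneg _ _), norm_pow, norm_pow]
    have h2 := norm_mono_le hζ.le x y
    have h3 : (‖(ρ : ℂ) * ζ‖ ^ N) ^ (i - j) ≤ 1 :=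
      pow_le_one₀ (by positivity) (pow_le_one₀ (norm_nonneg _) hρζ)
    calc ‖ζ ^ x * conj ζ ^ y‖ * (lamInf i j * (‖(ρ : ℂ) * ζ‖ ^ N) ^ (i - j))
        ≤ 1 * (lamInf i j * 1) := by
          have := lamInf_nonneg i j
          gcongr
      _ = lamInf i j := by ring
  have htwo : ‖(lam (x + N * i) (y + N * j) : ℂ) * ((ρ : ℂ) * ζ) ^ ((x + N * i) - (y + N * j)) -
      (ζ ^ x * conj ζ ^ y) * ((lamInf i j : ℂ) * (((ρ : ℂ) * ζ) ^ N) ^ (i - j))‖ ≤ 2 := by
    refine (norm_sub_le _ _).trans ?_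
    have h2 := lam_le_one (x + N * i) (y + N * j)
    have h3 := lamInf_le_one i j
    linarith
  unfold del
  split_ifs with hNs
  · exact htwo
  have hNs' : x + y < N := not_le.1 hNs
  have hNr : ((x : ℝ) + y) < N := by exact_mod_cast hNs'
  refine le_min htwo ?_
  have hden : (0 : ℝ) < (N : ℝ) - ((x + y : ℕ) : ℝ) := by
    push_cast
    linarith
  have hx0 : (0 : ℝ) ≤ x := Nat.cast_nonneg x
  have hy0 : (0 : ℝ) ≤ y := Nat.cast_nonneg y
  have hN1 : (1 : ℝ) ≤ N := by exact_mod_cast hN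
  rcases lt_trichotomy i j with hlt | heq | hgt
  · -- i < j
    have h2 : ¬ (y + N * j ≤ x + N * i) := by
      have h3 : N * (i + 1) ≤ N * j := Nat.mul_le_mul_left N hlt
      have h4 : N * (i + 1) = N * i + N := by ring
      omega
    have h3 : lam (x + N * i) (y + N * j) = 0 := by
      unfold lam
      rw [if_neg h2]
    have h4 : lamInf i j = 0 := by
      unfold lamInf
      rw [if_neg (by omega)]
    rw [h3, h4]
    simp only [ofReal_zero, zero_mul, mul_zero, sub_zero, norm_zero]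
    exact div_nonneg (by positivity) hden.le
  · -- i = j
    subst heq
    have h4 : lamInf i i = 0 := by
      unfold lamInf
      rw [if_neg (by omega)]
    have hi : 1 ≤ i := by
      rcases Nat.eq_zero_or_pos i with h | h
      · exact absurd ⟨h, h⟩ hij
      · exact h
    have hB' := hB.trans h4.le
    have h5 : lam (x + N * i) (y + N * i) ≤ ((x : ℝ) + 1) / N := by
      unfold lam
      split_ifs with h
      · have h6 : (N : ℝ) ≤ ((x + N * i : ℕ) : ℝ) + 1 := by
          have : N ≤ x + N * i := by nlinarith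
          have : (N : ℝ) ≤ ((x + N * i : ℕ) : ℝ) := by exact_mod_cast this
          linarith
        have h7 : ((x + N * i : ℕ) : ℝ) - ((y + N * i : ℕ) : ℝ) + 1 ≤ (x : ℝ) + 1 := by
          push_cast
          linarith
        exact div_le_div₀ (by linarith) h7 (by linarith) h6
      · positivity
    refine (norm_sub_le _ _).trans ?_
    have h6 : ((x : ℝ) + 1) / N ≤ (4 * (((x + y : ℕ) : ℝ)) + 4) / ((N : ℝ) - ((x + y : ℕ) : ℝ)) := by
      push_cast at hden ⊢
      exact div_le_div₀ (by linarith) (by linarith) hden (by linarith)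
    linarith
  · -- j < i
    obtain ⟨k, rfl⟩ := Nat.exists_eq_add_of_lt hgt
    have hA1 : j + k + 1 - j = k + 1 := by omega
    have hle : y + N * j ≤ x + N * (j + k + 1) := by
      have : N * (j + k + 1) = N * j + N * k + N := by ring
      omega
    set M : ℕ := x + N * (j + k + 1) - (y + N * j) with hM
    have hMval : M + y = x + N * (k + 1) := by
      have : N * (j + k + 1) = N * j + N * (k + 1) := by ring
      omega
    have hζpow : (ζ ^ x * conj ζ ^ y) * ζ ^ (N * (k + 1)) = ζ ^ M := by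
      have h2 : (ζ ^ x * conj ζ ^ y) * ζ ^ (N * (k + 1)) = ζ ^ (x + N * (k + 1)) * conj ζ ^ y := by
        rw [pow_add]
        ring
      rw [h2, ← hMval, norm_pow_conj hζ (by omega), Nat.add_sub_cancel]
    have hform : (lam (x + N * (j + k + 1)) (y + N * j) : ℂ) * ((ρ : ℂ) * ζ) ^ M -
        (ζ ^ x * conj ζ ^ y) * ((lamInf (j + k + 1) j : ℂ) * (((ρ : ℂ) * ζ) ^ N) ^ (j + k + 1 - j)) =
        ((lam (x + N * (j + k + 1)) (y + N * j) * ρ ^ M -
          lamInf (j + k + 1) j * ρ ^ (N * (k + 1)) : ℝ) : ℂ) * ζ ^ M := by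
      rw [hA1, ← pow_mul, mul_pow, mul_pow]
      push_cast
      rw [← hζpow]
      ring
    rw [hform, norm_mul, norm_pow, hζ, one_pow, mul_one, Complex.norm_real, Real.norm_eq_abs]
    set l := lam (x + N * (j + k + 1)) (y + N * j) with hl
    set l' := lamInf (j + k + 1) j with hl'
    have hl0 : 0 ≤ l' := lamInf_nonneg _ _
    have hl1 : l' ≤ 1 := lamInf_le_one _ _
    have hsplit : l * ρ ^ M - l' * ρ ^ (N * (k + 1)) =
        (l - l') * ρ ^ M + l' * (ρ ^ M - ρ ^ (N * (k + 1))) := by ring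
    have hρM : ρ ^ M ≤ 1 := pow_le_one₀ h0 h1
    have hρM0 : 0 ≤ ρ ^ M := by positivity
    -- difference of the coefficients
    have hdiff : |l - l'| ≤ (2 * x + y + 2) / N := by
      have hlval : l = ((N : ℝ) * (k + 1) + x - y + 1) / (x + N * (j + k + 1) + 1) := by
        rw [hl]
        unfold lam
        rw [if_pos hle]
        push_cast
        congr 1
        ring
      have hl'val : l' = ((k : ℝ) + 1) / (j + k + 1) := by
        rw [hl']
        unfold lamInf
        rw [if_pos (by omega)]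
        push_cast
        congr 1
        ring
      have hj0 : (0 : ℝ) ≤ j := Nat.cast_nonneg j
      have hk0 : (0 : ℝ) ≤ k := Nat.cast_nonneg k
      have hd1 : (0 : ℝ) < (x : ℝ) + N * (j + k + 1) + 1 := by positivity
      have hd2 : (0 : ℝ) < (j : ℝ) + k + 1 := by positivity
      have heq : l - l' = (((j : ℝ) + k + 1) * ((x : ℝ) - y + 1) - ((k : ℝ) + 1) * (x + 1)) /
          (((x : ℝ) + N * (j + k + 1) + 1) * (j + k + 1)) := by
        rw [hlval, hl'val, div_sub_div _ _ hd1.ne' hd2.ne']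
        congr 1
        ring
      rw [heq, abs_div, abs_of_pos (mul_pos hd1 hd2)]
      have hnum : |((j : ℝ) + k + 1) * ((x : ℝ) - y + 1) - ((k : ℝ) + 1) * (x + 1)| ≤
          ((j : ℝ) + k + 1) * (2 * x + y + 2) := by
        rw [abs_le]
        constructor
        · nlinarith
        · nlinarith
      calc |((j : ℝ) + k + 1) * ((x : ℝ) - y + 1) - ((k : ℝ) + 1) * (x + 1)| /
            (((x : ℝ) + N * (j + k + 1) + 1) * (j + k + 1))
          ≤ (((j : ℝ) + k + 1) * (2 * x + y + 2)) /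
            (((x : ℝ) + N * (j + k + 1) + 1) * (j + k + 1)) := by
            gcongr
        _ = (2 * x + y + 2) / ((x : ℝ) + N * (j + k + 1) + 1) := by
            field_simp
        _ ≤ (2 * x + y + 2) / N := by
            have : (N : ℝ) ≤ (x : ℝ) + N * (j + k + 1) + 1 := by nlinarith
            gcongr
    have hpow : |ρ ^ M - ρ ^ (N * (k + 1))| ≤ ((x : ℝ) + y) / (((N - y : ℕ) : ℝ) + 1) := by
      have hNk : N ≤ N * (k + 1) := Nat.le_mul_of_pos_right N (Nat.succ_pos k)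
      refine abs_pow_diff h0 h1 (k := N - y) (by omega) (by omega) ?_
      have h2 : ((N * (k + 1) : ℕ) : ℝ) - M = (y : ℝ) - x := by
        have h3 : ((M + y : ℕ) : ℝ) = ((x + N * (k + 1) : ℕ) : ℝ) := by rw [hMval]
        push_cast at h3 ⊢
        linarith
      rw [h2, abs_le]
      constructor <;> linarith
    have hNy : (((N - y : ℕ) : ℝ) + 1) = (N : ℝ) - y + 1 := by
      rw [Nat.cast_sub (by omega)]
    rw [hNy] at hpow
    rw [hsplit]
    have e1 : |(l - l') * ρ ^ M| ≤ (2 * x + y + 2) / N := by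
      rw [abs_mul, abs_of_nonneg hρM0]
      exact (mul_le_of_le_one_right (abs_nonneg _) hρM).trans hdiff
    have e2 : |l' * (ρ ^ M - ρ ^ (N * (k + 1)))| ≤ ((x : ℝ) + y) / ((N : ℝ) - y + 1) := by
      rw [abs_mul, abs_of_nonneg hl0]
      exact (mul_le_of_le_one_left (abs_nonneg _) hl1).trans hpow
    have e3 : (2 * (x : ℝ) + y + 2) / N ≤ (2 * x + y + 2) / ((N : ℝ) - ((x + y : ℕ) : ℝ)) := by
      push_cast at hden ⊢
      exact div_le_div_of_nonneg_left (by positivity) hden (by linarith)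
    have e4 : ((x : ℝ) + y) / ((N : ℝ) - y + 1) ≤ (x + y) / ((N : ℝ) - ((x + y : ℕ) : ℝ)) := by
      push_cast at hden ⊢
      exact div_le_div_of_nonneg_left (by positivity) hden (by linarith)
    have e5 : (2 * (x : ℝ) + y + 2) / ((N : ℝ) - ((x + y : ℕ) : ℝ)) +
        (x + y) / ((N : ℝ) - ((x + y : ℕ) : ℝ)) ≤
        (4 * (((x + y : ℕ) : ℝ)) + 4) / ((N : ℝ) - ((x + y : ℕ) : ℝ)) := by
      rw [← add_div]
      have : (2 * (x : ℝ) + y + 2) + (x + y) ≤ 4 * (((x + y : ℕ) : ℝ)) + 4 := by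
        push_cast
        linarith
      gcongr
    refine (abs_add_le _ _).trans ?_
    linarith

end Pool.Agent.Lib.BergExt
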