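import Pool.Agent.Lib.BergExt.TwoScale

/-!
# The two-scale estimate, summed
-/

set_option autoImplicit false

open MeasureTheory Complex Filter Topology
open scoped ComplexConjugate

namespace Pool.Agent.Lib.BergExt

/-- the limiting profile attached to a family of coefficients -/
noncomputable def prof (θ : ℕ × ℕ → ℂ) (w : ℂ) : ℂ :=
  ∑' κ : ℕ × ℕ, θ κ * ((lamInf κ.1 κ.2 : ℂ) * w ^ (κ.1 - κ.2))

/-- abbreviation: the term of the series for the projection -/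
noncomputable def tA {ι : Type} (c : ι → ℂ) (x y : ι → ℕ) (θ : ℕ × ℕ → ℂ) (N : ℕ) (z : ℂ)
    (q : ι × (ℕ × ℕ)) : ℂ :=
  c q.1 * θ q.2 * ((lam (x q.1 + N * q.2.1) (y q.1 + N * q.2.2) : ℂ) *
    z ^ ((x q.1 + N * q.2.1) - (y q.1 + N * q.2.2)))

/-- abbreviation: the term of the series for the main part -/
noncomputable def tB {ι : Type} (c : ι → ℂ) (x y : ι → ℕ) (θ : ℕ × ℕ → ℂ) (N : ℕ) (ζ z : ℂ)
    (q : ι × (ℕ × ℕ)) : ℂ :=
  (c q.1 * (ζ ^ x q.1 * conj ζ ^ y q.1)) *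
    (θ q.2 * ((lamInf q.2.1 q.2.2 : ℂ) * (z ^ N) ^ (q.2.1 - q.2.2)))

theorem term_le {ι : Type} (c : ι → ℂ) (x y : ι → ℕ) {θ : ℕ × ℕ → ℂ} (hθ0 : θ (0, 0) = 0)
    {N : ℕ} (hN : 1 ≤ N) {ζ : ℂ} (hζ : ‖ζ‖ = 1) {ρ : ℝ} (h0 : 0 ≤ ρ) (h1 : ρ ≤ 1)
    (q : ι × (ℕ × ℕ)) :
    ‖tA c x y θ N ((ρ : ℂ) * ζ) q - tB c x y θ N ζ ((ρ : ℂ) * ζ) q‖ ≤
      (‖c q.1‖ * del N (x q.1 + y q.1)) * ‖θ q.2‖ := by
  obtain ⟨a, i, j⟩ := q
  unfold tA tB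
  simp only
  have h2 : c a * θ (i, j) * ((lam (x a + N * i) (y a + N * j) : ℂ) *
      ((ρ : ℂ) * ζ) ^ ((x a + N * i) - (y a + N * j))) -
    (c a * (ζ ^ x a * conj ζ ^ y a)) *
      (θ (i, j) * ((lamInf i j : ℂ) * (((ρ : ℂ) * ζ) ^ N) ^ (i - j))) =
    (c a * θ (i, j)) * ((lam (x a + N * i) (y a + N * j) : ℂ) *
      ((ρ : ℂ) * ζ) ^ ((x a + N * i) - (y a + N * j)) -
      (ζ ^ x a * conj ζ ^ y a) * ((lamInf i j : ℂ) * (((ρ : ℂ) * ζ) ^ N) ^ (i - j))) := by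
    ring
  rw [h2, norm_mul, norm_mul]
  by_cases hij : i = 0 ∧ j = 0
  · rw [hij.1, hij.2, hθ0]
    simp
  · have h3 := term_bound hζ h0 h1 hN (x a) (y a) i j hij
    have h4 := mul_le_mul_of_nonneg_left h3 (mul_nonneg (norm_nonneg (c a)) (norm_nonneg (θ (i, j))))
    linarith

theorem summable_tA {ι : Type} {c : ι → ℂ} {x y : ι → ℕ} {θ : ℕ × ℕ → ℂ} {N : ℕ}
    (hs : Summable (fun q : ι × (ℕ × ℕ) => ‖c q.1 * θ q.2‖)) {z : ℂ} (hz : ‖z‖ ≤ 1) :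
    Summable (tA c x y θ N z) := by
  refine Summable.of_norm ?_
  refine Summable.of_nonneg_of_le (fun i => norm_nonneg _) (fun q => ?_) hs
  unfold tA
  rw [norm_mul]
  refine mul_le_of_le_one_right (norm_nonneg _) ?_
  rw [norm_mul, Complex.norm_real, Real.norm_of_nonneg (lam_nonneg _ _), norm_pow]
  exact mul_le_one₀ (lam_le_one _ _) (by positivity) (pow_le_one₀ (norm_nonneg _) hz)

theorem summable_prof {θ : ℕ × ℕ → ℂ} (hθ : Summable (fun κ => ‖θ κ‖)) {w : ℂ} (hw : ‖w‖ ≤ 1) :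
    Summable (fun κ : ℕ × ℕ => ‖θ κ * ((lamInf κ.1 κ.2 : ℂ) * w ^ (κ.1 - κ.2))‖) := by
  refine Summable.of_nonneg_of_le (fun i => norm_nonneg _) (fun κ => ?_) hθ
  rw [norm_mul, norm_mul, Complex.norm_real, Real.norm_of_nonneg (lamInf_nonneg _ _), norm_pow]
  refine mul_le_of_le_one_right (norm_nonneg _) ?_
  exact mul_le_one₀ (lamInf_le_one _ _) (by positivity) (pow_le_one₀ (norm_nonneg _) hw)

theorem main_eq {ι : Type} {Ψ : ℂ → ℂ} {c : ι → ℂ} {x y : ι → ℕ}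
    (h : IsRep Ψ c x y) {θ : ℕ × ℕ → ℂ} (hθ : Summable (fun κ => ‖θ κ‖))
    (N : ℕ) {ζ z : ℂ} (hζ : ‖ζ‖ ≤ 1) (hz : ‖z‖ ≤ 1) :
    Summable (tB c x y θ N ζ z) ∧ Ψ ζ * prof θ (z ^ N) = ∑' q, tB c x y θ N ζ z q := by
  have hzN : ‖z ^ N‖ ≤ 1 := by
    rw [norm_pow]
    exact pow_le_one₀ (norm_nonneg _) hz
  have e1 := summable_mul_of_summable_norm (f := fun i => c i * (ζ ^ x i * conj ζ ^ y i))
    (g := fun κ : ℕ × ℕ => θ κ * ((lamInf κ.1 κ.2 : ℂ) * (z ^ N) ^ (κ.1 - κ.2)))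
    (h.summable hζ) (summable_prof hθ hzN)
  have e2 := tsum_mul_tsum_of_summable_norm (f := fun i => c i * (ζ ^ x i * conj ζ ^ y i))
    (g := fun κ : ℕ × ℕ => θ κ * ((lamInf κ.1 κ.2 : ℂ) * (z ^ N) ^ (κ.1 - κ.2)))
    (h.summable hζ) (summable_prof hθ hzN)
  refine ⟨e1, ?_⟩
  rw [h.eq ζ hζ]
  exact e2

/-- The two-scale estimate. -/
theorem two_scale {ι : Type} [Countable ι] {Ψ : ℂ → ℂ} {c : ι → ℂ} {x y : ι → ℕ}
    (h : IsRep Ψ c x y) {θ : ℕ × ℕ → ℂ} (hθ : Summable (fun κ => ‖θ κ‖)) (hθ0 : θ (0, 0) = 0)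
    {N : ℕ} (hN : 1 ≤ N)
    {Δ : ℂ → ℂ} (hΔ : IsRep Δ (fun q : ι × (ℕ × ℕ) => c q.1 * θ q.2)
      (fun q => x q.1 + N * q.2.1) (fun q => y q.1 + N * q.2.2))
    {ζ : ℂ} (hζ : ‖ζ‖ = 1) {ρ : ℝ} (h0 : 0 ≤ ρ) (h1 : ρ < 1) :
    ‖PP Δ ((ρ : ℂ) * ζ) - Ψ ζ * prof θ (((ρ : ℂ) * ζ) ^ N)‖ ≤
      (∑' κ, ‖θ κ‖) * ∑' i, ‖c i‖ * del N (x i + y i) := by
  have hρζ : ‖(ρ : ℂ) * ζ‖ < 1 := by
    rw [norm_mul, hζ, mul_one, Complex.norm_real, Real.norm_of_nonneg h0]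
    exact h1
  have hsumdel : Summable (fun i => ‖c i‖ * del N (x i + y i)) := by
    refine Summable.of_nonneg_of_le (fun i => mul_nonneg (norm_nonneg _) (del_nonneg _ _))
      (fun i => ?_) (h.sum.mul_right 2)
    exact mul_le_mul_of_nonneg_left (del_le_two _ _) (norm_nonneg _)
  obtain ⟨hs2, hmain⟩ := main_eq h hθ N hζ.le hρζ.le
  have hs1 : Summable (tA c x y θ N ((ρ : ℂ) * ζ)) := summable_tA hΔ.sum hρζ.le
  have hPP : PP Δ ((ρ : ℂ) * ζ) = ∑' q, tA c x y θ N ((ρ : ℂ) * ζ) q := PP_rep hΔ hρζ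
  rw [hPP, hmain, ← hs1.tsum_sub hs2]
  have hbound : Summable (fun q : ι × (ℕ × ℕ) =>
      (‖c q.1‖ * del N (x q.1 + y q.1)) * ‖θ q.2‖) :=
    Summable.mul_of_nonneg (f := fun i => ‖c i‖ * del N (x i + y i)) (g := fun κ => ‖θ κ‖)
      hsumdel hθ (fun i => mul_nonneg (norm_nonneg _) (del_nonneg _ _)) (fun i => norm_nonneg _)
  refine (tsum_of_norm_bounded hbound.hasSum (term_le c x y hθ0 hN hζ h0 h1.le)).trans ?_
  have hfin : (∑' i, ‖c i‖ * del N (x i + y i)) * (∑' κ, ‖θ κ‖) =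
      ∑' q : ι × (ℕ × ℕ), (‖c q.1‖ * del N (x q.1 + y q.1)) * ‖θ q.2‖ :=
    tsum_mul_tsum_of_summable_norm (f := fun i => ‖c i‖ * del N (x i + y i))
      (g := fun κ => ‖θ κ‖) hsumdel.norm hθ.norm
  rw [← hfin, mul_comm]

theorem tendsto_err {ι : Type} {c : ι → ℂ} {x y : ι → ℕ} (hc : Summable (fun i => ‖c i‖))
    (A : ℝ) : Tendsto (fun N => A * ∑' i, ‖c i‖ * del N (x i + y i)) atTop (𝓝 0) := by
  have h : Tendsto (fun N => ∑' i, ‖c i‖ * del N (x i + y i)) atTop (𝓝 (∑' _i : ι, (0 : ℝ))) := by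
    refine tendsto_tsum_of_dominated_convergence (bound := fun i => ‖c i‖ * 2) (hc.mul_right 2) ?_ ?_
    · intro i
      have := (tendsto_del (x i + y i)).const_mul ‖c i‖
      rwa [mul_zero] at this
    · refine Eventually.of_forall fun N i => ?_
      rw [Real.norm_of_nonneg (mul_nonneg (norm_nonneg _) (del_nonneg _ _))]
      exact mul_le_mul_of_nonneg_left (del_le_two _ _) (norm_nonneg _)
  rw [tsum_zero] at h
  have := h.const_mul A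
  rwa [mul_zero] at this

end Pool.Agent.Lib.BergExt
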